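import Pool.Agent.H646.CR.Stm

set_option autoImplicit false

/-!
# Existence of the processes with values in the realization (S_yex)
-/

namespace Pool.Agent.H894.CR.Yex

open MeasureTheory ProbabilityTheory Set Topology TopologicalSpace Filter
open scoped ENNReal
open Pool.Agent.H646.CR

/-- Measurable choice of an index. -/
theorem sel {Y : Type} [MeasurableSpace Y] (A : ℕ → Set Y) (hA : ∀ m, MeasurableSet (A m)) :
    ∃ f : Y → ℕ, Measurable f ∧ ∀ y, (∃ m, y ∈ A m) → y ∈ A (f y) := by
  classical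
  have hp : ∀ y : Y, ∃ N, y ∈ A N ∨ y ∉ ⋃ m, A m := by
    intro y
    by_cases h : y ∈ ⋃ m, A m
    · obtain ⟨m, hm⟩ := mem_iUnion.1 h
      exact ⟨m, Or.inl hm⟩
    · exact ⟨0, Or.inr h⟩
  refine ⟨fun y => Nat.find (hp y), ?_, ?_⟩
  · apply measurable_find
    intro k
    have h1 : {y | y ∈ A k ∨ y ∉ ⋃ m, A m} = A k ∪ (⋃ m, A m)ᶜ := rfl
    rw [h1]
    exact (hA k).union (MeasurableSet.iUnion hA).compl
  · intro y hy
    rcases Nat.find_spec (hp y) with h | h
    · exact h
    · exact absurd (mem_iUnion.2 hy) h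

theorem polish (K : Type) [TopologicalSpace K] [CompactSpace K] [MetrizableSpace K] :
    PolishSpace K := by
  let := metrizableSpaceMetric K
  infer_instance

section

variable {G K : Type} [Group G] [Countable G] [TopologicalSpace K] [CompactSpace K]
    [MetrizableSpace K] [MeasurableSpace K] [BorelSpace K]
    [MulAction G (P × K)] [ContinuousConstSMul G (P × K)]
    {lam : Measure K} {q : P × K → Bool} {c : ℕ → G} {Q : Fin 4 → G} {X0 : Set (P × K)}

theorem mu_eq (lam : Measure K) [SFinite lam] (s : P) : mu lam s = Measure.map (Prod.mk s) lam :=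
  Measure.dirac_prod s

theorem meas_smul (g : G) : Measurable fun x : P × K => g • x :=
  (continuous_const_smul g).measurable

theorem mu_inv (sys : IsSys G K lam q c Q X0) (s : P) (g : G) :
    Measure.map (fun x => g • x) (mu lam s) = mu lam s := by
  have := sys.prob
  rw [mu_eq, Measure.map_map (meas_smul g) measurable_prodMk_left]
  have h1 : ((fun x : P × K => g • x) ∘ Prod.mk s) =
      Prod.mk s ∘ fun k : K => (g • ((s, k) : P × K)).2 := by
    funext k
    exact Prod.ext (sys.fst_smul g (s, k)) rfl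
  rw [h1, ← Measure.map_map measurable_prodMk_left]
  · rw [sys.pres g s]
  · exact measurable_snd.comp ((meas_smul g).comp measurable_prodMk_left)

theorem mu_apply [SFinite lam] (s : P) (D : Set (P × K)) (hD : MeasurableSet D) :
    mu lam s D = lam {k | (s, k) ∈ D} := by
  rw [mu_eq, Measure.map_apply measurable_prodMk_left hD]
  rfl

/-- a set of large measure -/
theorem large {X : Type} [MeasurableSpace X] (μ : Measure X) [IsProbabilityMeasure μ]
    (X1 : Set X) (h1 : μ X1ᶜ = 0) (D : Set X) (hD : MeasurableSet D) (ε : ℝ) (hε : 0 ≤ ε)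
    (h2 : μ D ≤ ENNReal.ofReal ε) (F : Set X) (hF : ∀ x ∈ X1, x ∉ D → x ∈ F) :
    ENNReal.ofReal (1 - ε) ≤ μ F := by
  have h3 : Dᶜ ⊆ F ∪ X1ᶜ := by
    intro x hx
    by_cases h : x ∈ X1
    · exact Or.inl (hF x h hx)
    · exact Or.inr h
  have h4 : μ Dᶜ ≤ μ F := by
    refine (measure_mono h3).trans ((measure_union_le _ _).trans ?_)
    rw [h1, add_zero]
  refine le_trans ?_ h4
  rw [prob_compl_eq_one_sub hD, ENNReal.ofReal_sub _ hε, ENNReal.ofReal_one]
  exact tsub_le_tsub_left h2 1

end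

theorem holds (ha : S_approx) (hp : S_pw) : S_yex := by
  intro G K _ _ _ _ _ _ _ _ _ lam q c Q X0 sys Λ Y _ _ _ _ _ _ _ _ _ B Θ Ξ Y0 real hB s hs
  have hprob := sys.prob
  have : PolishSpace K := polish K
  set μ : Measure (P × K) := mu lam s with hμ
  have hμp : IsProbabilityMeasure μ := by
    rw [hμ, mu_eq]
    exact Measure.isProbabilityMeasure_map measurable_prodMk_left.aemeasurable
  have hsm : ∀ g : G, Measurable fun x : P × K => g • x := meas_smul
  have hsmY : ∀ w : Λ, Measurable fun y : Y => w • y := fun w => (continuous_const_smul w).measurable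
  -- the good points
  set X1 : Set (P × K) := {x | x ∈ X0 ∧ x.1 ∈ B} with hX1
  have hX1m : MeasurableSet X1 := sys.X0_meas.inter (measurable_fst hB)
  have hX1z : μ X1ᶜ = 0 := by
    rw [hμ, mu_apply s _ hX1m.compl]
    refine le_antisymm (le_trans (measure_mono ?_) (sys.X0_full s).le) zero_le
    intro k hk h0
    exact hk ⟨h0, hs⟩
  -- the process
  set F : P × K → (P × K) × (G → Y) := fun x => (x, fun g => Θ (g • x)) with hF
  have hFm : Measurable F :=
    measurable_id.prodMk (measurable_pi_lambda _ fun g => real.mΘ.comp (hsm g))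
  have hw : ∀ (w : Λ) (x : P × K), x ∈ X1 → w • Θ x ∈ Y0 := by
    intro w x hx
    exact real.inv w _ (real.ΘY x hx.1 hx.2).1
  -- choice of the data
  have hgen : ∀ i : Fin 4, ∃ l : ℕ, ENNReal.ofReal (1 - 1 / 10 ^ 8) ≤
      Measure.map F μ (FY Λ l (Q i)) := by
    intro i
    obtain ⟨f, hfm, hf⟩ := sel (fun m : ℕ => {y : Y | Θ (Q i • Ξ y) = en Λ m • y}) (fun m =>
      measurableSet_eq_fun (real.mΘ.comp ((hsm (Q i)).comp real.mΞ)) (hsmY (en Λ m)))
    obtain ⟨l, hl⟩ := ha Y (Measure.map Θ μ) (Measure.isProbabilityMeasure_map real.mΘ.aemeasurable)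
      f hfm (1 / 10 ^ 8) (by positivity)
    refine ⟨l, le_trans ?_ (Measure.le_map_apply hFm.aemeasurable _)⟩
    have hDm : MeasurableSet {y : Y | 1 / 4 < |dn Y l y - f y|} := by
      apply measurableSet_lt measurable_const
      have h1 : Measurable fun y : Y => dn Y l y - (f y : ℝ) :=
        (dn Y l).continuous.measurable.sub (measurable_from_nat.comp hfm)
      exact h1.norm
    refine large μ X1 hX1z (Θ ⁻¹' {y : Y | 1 / 4 < |dn Y l y - f y|}) (real.mΘ hDm) (1 / 10 ^ 8)
      (by positivity) ?_ _ ?_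
    · rw [← Measure.map_apply real.mΘ hDm]
      exact hl
    · intro x hx hxD
      have h1 : ¬ (1 / 4 < |dn Y l (Θ x) - f (Θ x)|) := hxD
      obtain ⟨hY, hΞ⟩ := real.ΘY x hx.1 hx.2
      have hx' : Q i • x ∈ X0 ∧ (Q i • x).1 ∈ B :=
        ⟨sys.X0_inv _ _ hx.1, by rw [sys.fst_smul]; exact hx.2⟩
      obtain ⟨w, hw'⟩ := (real.orb x (Q i • x) hx.1 hx.2 hx'.1 hx'.2).1 ⟨Q i, rfl⟩
      obtain ⟨m, rfl⟩ := en_surj Λ w
      have h2 : Θ (Q i • Ξ (Θ x)) = en Λ (f (Θ x)) • Θ x := by
        refine hf (Θ x) ⟨m, ?_⟩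
        change Θ (Q i • Ξ (Θ x)) = en Λ m • Θ x
        rw [hΞ, hw']
      rw [hΞ] at h2
      refine ⟨f (Θ x), ?_, ?_⟩
      · change |dn Y l (Θ ((1 : G) • x)) - f (Θ x)| ≤ 1 / 4
        rw [one_smul]
        exact not_lt.1 h1
      · change Θ (Q i • x) = en Λ (f (Θ x)) • Θ ((1 : G) • x)
        rw [one_smul]
        exact h2
  have hdig : ∃ l : ℕ, ENNReal.ofReal (1 - 1 / 10 ^ 8) ≤ Measure.map F μ (HY q l) := by
    set f : Y → ℕ := fun y => if q (Ξ y) then 1 else 0 with hf
    have hfm : Measurable f := by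
      have h1 : Measurable fun b : Bool => if b then (1 : ℕ) else 0 := measurable_of_finite _
      exact h1.comp (sys.q_cont.measurable.comp real.mΞ)
    obtain ⟨l, hl⟩ := ha Y (Measure.map Θ μ) (Measure.isProbabilityMeasure_map real.mΘ.aemeasurable)
      f hfm (1 / 10 ^ 8) (by positivity)
    refine ⟨l, le_trans ?_ (Measure.le_map_apply hFm.aemeasurable _)⟩
    have hDm : MeasurableSet {y : Y | 1 / 4 < |dn Y l y - f y|} := by
      apply measurableSet_lt measurable_const
      have h1 : Measurable fun y : Y => dn Y l y - (f y : ℝ) :=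
        (dn Y l).continuous.measurable.sub (measurable_from_nat.comp hfm)
      exact h1.norm
    refine large μ X1 hX1z (Θ ⁻¹' {y : Y | 1 / 4 < |dn Y l y - f y|}) (real.mΘ hDm) (1 / 10 ^ 8)
      (by positivity) ?_ _ ?_
    · rw [← Measure.map_apply real.mΘ hDm]
      exact hl
    · intro x hx hxD
      have h1 : ¬ (1 / 4 < |dn Y l (Θ x) - f (Θ x)|) := hxD
      obtain ⟨hY, hΞ⟩ := real.ΘY x hx.1 hx.2
      have h2 : (f (Θ x) : ℝ) = b2r (q x) := by
        rw [hf]
        simp only [hΞ, b2r]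
        split_ifs <;> norm_num
      rw [h2] at h1
      change |dn Y l (Θ ((1 : G) • x)) - b2r (q x)| ≤ 1 / 4
      rw [one_smul]
      exact not_lt.1 h1
  choose l hl using hgen
  obtain ⟨l', hl'⟩ := hdig
  refine ⟨l, l', Measure.map F μ, ?_⟩
  refine ⟨Measure.isProbabilityMeasure_map hFm.aemeasurable, ?_, ?_, ?_, hl, hl'⟩
  · intro h
    have hm : Measurable fun ω : (P × K) × (G → Y) => (h • ω.1, fun g => ω.2 (g * h)) :=
      ((hsm h).comp measurable_fst).prodMk
        (measurable_pi_lambda _ fun g => (measurable_pi_apply (g * h)).comp measurable_snd)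
    rw [Measure.map_map hm hFm]
    have h1 : ((fun ω : (P × K) × (G → Y) => (h • ω.1, fun g => ω.2 (g * h))) ∘ F) =
        F ∘ fun x => h • x := by
      funext x
      refine Prod.ext rfl ?_
      funext g
      change Θ ((g * h) • x) = Θ (g • h • x)
      rw [mul_smul]
    rw [h1, ← Measure.map_map hFm (hsm h), hμ, mu_inv sys s h]
  · have hm : MeasurableSet {ω : (P × K) × (G → Y) | ω.1.1 ≠ s} :=
      (measurable_fst.comp measurable_fst) (measurableSet_singleton s).compl
    rw [Measure.map_apply hFm hm, hμ, mu_apply s _ (hFm hm)]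
    have h1 : {k : K | (s, k) ∈ F ⁻¹' {ω : (P × K) × (G → Y) | ω.1.1 ≠ s}} = ∅ := by
      ext k
      simp [hF]
    rw [h1, measure_empty]
  · intro w
    have hm1 : Measurable fun ω : (P × K) × (G → Y) => ω.2 1 :=
      (measurable_pi_apply (1 : G)).comp measurable_snd
    have hm2 : Measurable fun ω : (P × K) × (G → Y) => w • ω.2 1 := (hsmY w).comp hm1
    rw [Measure.map_map hm2 hFm, Measure.map_map hm1 hFm]
    have e1 : ((fun ω : (P × K) × (G → Y) => w • ω.2 1) ∘ F) = fun x => w • Θ x := by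
      funext x
      change w • Θ ((1 : G) • x) = w • Θ x
      rw [one_smul]
    have e2 : ((fun ω : (P × K) × (G → Y) => ω.2 1) ∘ F) = Θ := by
      funext x
      change Θ ((1 : G) • x) = Θ x
      rw [one_smul]
    rw [e1, e2]
    set φ : P × K → P × K := fun x => Ξ (w • Θ x) with hφ
    have hφm : Measurable φ := real.mΞ.comp ((hsmY w).comp real.mΘ)
    have hφ1 : ∀ x ∈ X1, Θ (φ x) = w • Θ x := fun x hx => (real.ΞX _ (hw w x hx)).2.2
    have hmap : Measure.map φ μ = μ := by
      refine hp (P × K) G hsm μ hμp (mu_inv sys s) φ X1 hφm hX1m hX1z ?_ ?_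
      · intro x hx x' hx' h
        have h1 := hφ1 x hx
        have h2 := hφ1 x' hx'
        rw [h, h2] at h1
        have h3 : Θ x' = Θ x := smul_left_cancel w h1
        have h4 := (real.ΘY x hx.1 hx.2).2
        have h5 := (real.ΘY x' hx'.1 hx'.2).2
        rw [← h4, ← h5, h3]
      · intro x hx
        have h1 := real.ΞX _ (hw w x hx)
        obtain ⟨g, hg⟩ := (real.orb x (φ x) hx.1 hx.2 h1.1 h1.2.1).2 ⟨w, (hφ1 x hx).symm⟩
        exact ⟨g, hg.symm⟩
    conv_rhs => rw [← hmap]
    rw [Measure.map_map real.mΘ hφm]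
    refine Measure.map_congr ?_
    have h1 : ∀ᵐ x ∂μ, x ∈ X1 := by
      rw [ae_iff]
      exact hX1z
    filter_upwards [h1] with x hx
    exact (hφ1 x hx).symm

end Pool.Agent.H894.CR.Yex
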