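import Pool.Agent.H646.CR.Stm2

set_option autoImplicit false

/-!
# Assembly of the lemmas
-/

namespace Pool.Agent.H646.CR

open MeasureTheory ProbabilityTheory Set Topology TopologicalSpace Filter
open scoped ENNReal

theorem rt_of (h₁ : S_gns) (h₂ : S_rtH) : S_rt := by
  intro G _ c α β γ hc hi ha1 ha2 hb1 hb2 hg1 hg2 Φ hΦ hα hβ hγ hc1 n
  obtain ⟨V, _, _, π, ξ, hmul, hone, hnorm, hξ, hinner⟩ := h₁ G Φ hΦ
  have key : ∀ k : G, 1 - 2 / 10 ^ 6 ≤ Φ k → ‖π k ξ - ξ‖ ≤ 2 / 10 ^ 3 := by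
    intro k hk
    have h3 : ‖π k ξ - ξ‖ ^ 2 ≤ (2 / 10 ^ 3) ^ 2 := by
      rw [norm_sub_sq_real, hnorm, hξ, hinner]
      norm_num
      norm_num at hk
      linarith
    exact (pow_le_pow_iff_left₀ (norm_nonneg _) (by norm_num) (by norm_num)).1 h3
  have := h₂ G c α β γ hc hi ha1 ha2 hb1 hb2 hg1 hg2 V π ξ hmul hone hnorm hξ
    (key α hα) (key β hβ) (key γ hγ) (key (c 1) hc1) n
  rwa [hinner] at this

section tr1

theorem tr1_of (htrm : S_trm) (ha : S_tr1a) (hb : S_tr1b) (hc : S_tr1c) :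
  ∀ (G K : Type) [Group G] [Countable G] [TopologicalSpace K] [CompactSpace K]
    [MetrizableSpace K] [MeasurableSpace K] [BorelSpace K]
    [MulAction G (P × K)] [ContinuousConstSMul G (P × K)]
    (lam : Measure K) (q : P × K → Bool) (c : ℕ → G) (Q : Fin 4 → G) (X0 : Set (P × K)),
    IsSys G K lam q c Q X0 →
    ∀ (Λ Y : Type) [Group Λ] [Countable Λ] [TopologicalSpace Y] [CompactSpace Y]
    [MetrizableSpace Y] [MeasurableSpace Y] [BorelSpace Y] [MulAction Λ Y]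
    [ContinuousConstSMul Λ Y] (B : Set P) (Θ : P × K → Y) (Ξ : Y → P × K) (Y0 : Set Y),
    IsReal Λ Y G X0 B Θ Ξ Y0 → MeasurableSet B →
    ∀ (l : Fin 4 → ℕ) (l' : ℕ) (d : P) (ζ : Measure ((P × K) × (G → Y))),
      LimW Λ q Q l l' d ζ → ∃ (k : Fin 4 → ℕ) (k' : ℕ), Pre lam q Q B k k' d := by
  intro G K _ _ _ _ _ _ _ _ _ lam q c Q X0 hS Λ Y _ _ _ _ _ _ _ _ _ B Θ Ξ Y0 hR hB l l' d ζ hζ
  obtain ⟨k, k', hk, hk'⟩ := hc G K lam q c Q X0 hS Λ Y B Θ Ξ Y0 hR hB l l' d ζ hζ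
  obtain ⟨hb1, hb2⟩ := hb G K lam q c Q X0 hS Λ Y B Θ Ξ Y0 hR hB l l' d ζ hζ
  have hW := ha G K lam q c Q X0 hS Λ Y B Θ Ξ Y0 hR hB l l' d ζ hζ
  have hm : Measurable (tr (G := G) Ξ) := htrm G K Y Ξ hR.mΞ
  have m1 : MeasurableSet {ω : St G K | ω.2.1.1 ≠ d} :=
    (measurable_fst.comp (measurable_fst.comp measurable_snd)) (measurableSet_singleton d).compl
  have m2 : MeasurableSet {ω : St G K | ω.1.1 ∉ B} :=
    (measurable_fst.comp measurable_fst) hB.compl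
  refine ⟨k, k', Measure.map (tr Ξ) ζ, hW, ?_, ?_, ?_, hk, hk'⟩
  · rw [Measure.map_apply hm m1]
    exact hζ.par
  · rw [Measure.map_apply hm m2]
    exact hb2
  · have e1 : Measure.map (fun ω : St G K => ω.1.1) (Measure.map (tr Ξ) ζ) =
        Measure.map (fun ω : (P × K) × (G → Y) => (Ξ (ω.2 1)).1) ζ :=
      Measure.map_map (measurable_fst.comp measurable_fst) hm
    have e2 : Measure.map Prod.fst (Measure.map (tr (G := G) Ξ) ζ) =
        Measure.map (fun ω : (P × K) × (G → Y) => Ξ (ω.2 1)) ζ :=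
      Measure.map_map measurable_fst hm
    rw [e1, e2]
    exact hb1

end tr1

section core

theorem core_of (htopo : S_topo) (huniq : S_uniq) (hclosed : S_closed) (hycl : S_ycl)
    (hyex : S_yex) (htrm : S_trm) (ha : S_tr1a) (hb : S_tr1b) (hc : S_tr1c) (htr2 : S_tr2)
    (hS : IsSys GG KK lamK qq cc QQ XX0) : Core := by
  obtain ⟨D, hD, B, hB, hBd, hno⟩ := htopo ((Fin 4 → ℕ) × ℕ)
    (fun i t s => Rel lamK qq QQ i.1 i.2 t s)
    (fun i t => hclosed GG KK lamK qq cc QQ XX0 hS i.1 i.2 t)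
    (fun i s t t' h h' => huniq GG KK lamK qq cc QQ XX0 hS i.1 i.2 t t' s h h')
  refine ⟨B, hB.measurableSet, hBd.nonempty, ?_⟩
  intro Λ Y _ _ _ _ _ _ _ _ _ Θ Ξ Y0 hR
  have hcl : ∀ i : (Fin 4 → ℕ) × ℕ,
      IsClosed {d | ∃ ζ : Measure ((P × KK) × (GG → Y)), LimW Λ qq QQ i.1 i.2 d ζ} :=
    fun i => hycl GG KK qq QQ Λ Y hS.q_cont i.1 i.2
  have hsub : B ⊆ ⋃ i : (Fin 4 → ℕ) × ℕ,
      {d | ∃ ζ : Measure ((P × KK) × (GG → Y)), LimW Λ qq QQ i.1 i.2 d ζ} := by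
    intro s hs
    obtain ⟨l, l', ζ, h⟩ := hyex GG KK lamK qq cc QQ XX0 hS Λ Y B Θ Ξ Y0 hR
      hB.measurableSet s hs
    exact mem_iUnion.2 ⟨(l, l'), ζ, h⟩
  have hdense := hB.dense_iUnion_interior_of_closed hBd hcl hsub
  obtain ⟨x, hx⟩ := hdense.nonempty
  obtain ⟨i, hi⟩ := mem_iUnion.1 hx
  obtain ⟨y, hy1, j, hj⟩ := hD.inter_open_nonempty _ isOpen_interior ⟨x, hi⟩
  have h1 := interior_subset hy1
  rw [← hj] at h1
  obtain ⟨ζ, hζ⟩ := h1
  obtain ⟨k, k', hpre⟩ := tr1_of htrm ha hb hc GG KK lamK qq cc QQ XX0 hS Λ Y B Θ Ξ Y0 hR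
    hB.measurableSet i.1 i.2 (D j) ζ hζ
  obtain ⟨s, hs, hrel⟩ := htr2 GG KK lamK qq cc QQ XX0 hS B hB.measurableSet k k' (D j) hpre
  exact hno s hs (k, k') j hrel

end core

section sys

theorem infinite_GG : Infinite GG := by
  have : Infinite F3 := inferInstance
  exact Infinite.of_surjective (fun g : GG => g.right)
    (fun f => ⟨SemidirectProduct.inr f, rfl⟩)

theorem continuous_qq : Continuous qq := by
  have h : qq = (fun z : ZMod 2 => decide (z ≠ 0)) ∘ fun x : P × KK => x.2 (Sum.inl 1) := rfl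
  rw [h]
  exact continuous_of_discreteTopology.comp ((continuous_apply _).comp continuous_snd)

theorem qq_cc (n : ℕ) (x : P × KK) : qq (cc n • x) = xor (x.1 n) (qq x) := by
  have h1 : (cc n • x).2 (Sum.inl 1) = x.2 (Sum.inl 1) + (if x.1 n then 1 else 0) := by
    rw [smul_inl]
    have h2 : (cc n).right = 1 := rfl
    have h3 : cy x.1 (cc n) 1 = (if x.1 n then (1 : ZMod 2) else 0) := by
      unfold cy
      rw [map_one]
      show pr x.1 (Finsupp.single n 1) = _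
      unfold pr
      rw [Finsupp.linearCombination_single, one_smul]
    rw [h2, h3, mul_one]
  unfold qq
  rw [h1]
  generalize x.2 (Sum.inl 1) = z
  generalize x.1 n = b
  revert z b
  decide

theorem sys_of (hgns : S_gns) (hrtH : S_rtH) (hgrp : S_grp) (hhaar : S_haar) (ha : S_X0a)
    (hb : S_X0b) (hc : S_X0c) (hd : S_X0d) : IsSys GG KK lamK qq cc QQ XX0 := by
  obtain ⟨g1, g2, g3, g4, g5, g6, g7, g8⟩ := hgrp
  refine ⟨infinite_GG, hhaar.1, fun _ _ => rfl, fun g s => hhaar.2.1 g s, continuous_qq, qq_cc,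
    ?_, ha.1, ha.2, ?_, ?_, hd⟩
  · intro Φ hΦ hQ n
    exact rt_of hgns hrtH GG cc (QQ 0) (QQ 1) (QQ 2) g1 g2 g3 g4 g5 g6 g7 g8 Φ hΦ
      (hQ 0) (hQ 1) (hQ 2) (hQ 3) n
  · intro g x hx h
    by_contra hg
    exact hx.1 g hg h
  · intro s
    have h1 : ∀ᵐ k ∂lamK, ∀ g : GG, g ≠ 1 → g • ((s, k) : P × KK) ≠ (s, k) := by
      rw [ae_all_iff]
      intro g
      by_cases hg : g = 1
      · exact Eventually.of_forall fun _ h => absurd hg h
      · have := hb g s hg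
        rw [← compl_compl {k | g • ((s, k) : P × KK) = (s, k)}] at this
        have h2 : ∀ᵐ k ∂lamK, k ∈ {k | g • ((s, k) : P × KK) = (s, k)}ᶜ := this
        filter_upwards [h2] with k hk _
        exact hk
    have h2 : ∀ᵐ k ∂lamK, ∀ (h : GG) (S : Finset (F3 ⊕ GG)), S.Nonempty →
      Tendsto (fun n : ℕ =>
        (∑ j ∈ Finset.range (n ^ 2), chi S ((g0 ^ j * h) • ((s, k) : P × KK)).2) / (n : ℝ) ^ 2)
        atTop (𝓝 0) := by
      rw [ae_all_iff]
      intro h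
      rw [ae_all_iff]
      intro S
      by_cases hS : S.Nonempty
      · filter_upwards [hc s h S hS] with k hk _
        exact hk
      · exact Eventually.of_forall fun _ h => absurd h hS
    have h3 : ∀ᵐ k ∂lamK, (s, k) ∈ XX0 := by
      filter_upwards [h1, h2] with k hk1 hk2
      exact ⟨hk1, hk2⟩
    exact h3

end sys

end Pool.Agent.H646.CR
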