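import Pool.Agent.H646.CR.Defs

set_option autoImplicit false

/-!
# The concrete group and the concrete system
-/

namespace Pool.Agent.H646.CR

open MeasureTheory ProbabilityTheory Set Topology TopologicalSpace Filter
open scoped ENNReal

/-- The free group on three generators. -/
abbrev F3 : Type := FreeGroup (Fin 3)

/-- The elementary abelian group. -/
abbrev A : Type := ℕ →₀ ZMod 2

/-- The nilpotent part of a transvection. -/
noncomputable def nil (f : ℕ → A) : A →ₗ[ZMod 2] A := Finsupp.linearCombination (ZMod 2) f

/-- The nilpotent part for the first generator: `e (2 i + 1) ↦ e (2 i)`. -/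
noncomputable def fa (n : ℕ) : A := if n % 2 = 1 then Finsupp.single (n - 1) 1 else 0
/-- The nilpotent part for the second generator: `e (2 i) ↦ e (2 i + 1)`. -/
noncomputable def fb (n : ℕ) : A := if n % 2 = 0 then Finsupp.single (n + 1) 1 else 0
/-- The nilpotent part for the third generator: `e (2 i) ↦ e (2 i + 3)`. -/
noncomputable def fc (n : ℕ) : A := if n % 2 = 0 then Finsupp.single (n + 3) 1 else 0

theorem nil_sq (f : ℕ → A) (h : ∀ n, nil f (f n) = 0) (a : A) : nil f (nil f a) = 0 := by
  induction a using Finsupp.induction_linear with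
  | zero => simp
  | add x y hx hy => rw [map_add, map_add, hx, hy, add_zero]
  | single n x =>
    have : nil f (Finsupp.single n x) = x • f n := by
      unfold nil
      rw [Finsupp.linearCombination_single]
    rw [this, map_smul, h, smul_zero]

/-- The transvection. -/
noncomputable def tv (f : ℕ → A) (h : ∀ n, nil f (f n) = 0) : A ≃+ A where
  toFun a := a + nil f a
  invFun a := a + nil f a
  left_inv a := by
    show a + nil f a + nil f (a + nil f a) = a
    rw [map_add, nil_sq f h, add_zero, add_assoc]
    have : nil f a + nil f a = 0 := by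
      rw [← two_smul (ZMod 2)]
      have : (2 : ZMod 2) = 0 := by decide
      rw [this, zero_smul]
    rw [this, add_zero]
  right_inv a := by
    show a + nil f a + nil f (a + nil f a) = a
    rw [map_add, nil_sq f h, add_zero, add_assoc]
    have : nil f a + nil f a = 0 := by
      rw [← two_smul (ZMod 2)]
      have : (2 : ZMod 2) = 0 := by decide
      rw [this, zero_smul]
    rw [this, add_zero]
  map_add' a b := by
    show a + b + nil f (a + b) = a + nil f a + (b + nil f b)
    rw [map_add]
    abel

theorem fa_nil (n : ℕ) : nil fa (fa n) = 0 := by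
  by_cases h : n % 2 = 1
  · have h2 : (n - 1) % 2 ≠ 1 := by omega
    simp [fa, nil, h, h2]
  · simp [fa, h]

theorem fb_nil (n : ℕ) : nil fb (fb n) = 0 := by
  by_cases h : n % 2 = 0
  · have h2 : (n + 1) % 2 ≠ 0 := by omega
    simp [fb, nil, h, h2]
  · simp [fb, h]

theorem fc_nil (n : ℕ) : nil fc (fc n) = 0 := by
  by_cases h : n % 2 = 0
  · have h2 : (n + 3) % 2 ≠ 0 := by omega
    simp [fc, nil, h, h2]
  · simp [fc, h]

/-- The three automorphisms. -/
noncomputable def auts : Fin 3 → MulAut (Multiplicative A) :=
  ![AddEquiv.toMultiplicative (tv fa fa_nil), AddEquiv.toMultiplicative (tv fb fb_nil),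
    AddEquiv.toMultiplicative (tv fc fc_nil)]

/-- The action of the free group on `A`. -/
noncomputable def phi : F3 →* MulAut (Multiplicative A) := FreeGroup.lift auts

/-- The acting group. -/
abbrev GG : Type := Multiplicative A ⋊[phi] F3

instance : Countable (Multiplicative A) := inferInstanceAs (Countable A)

instance : Countable GG :=
  Function.Injective.countable (f := fun g : GG => (g.left, g.right))
    (fun g h e => SemidirectProduct.ext (Prod.ext_iff.1 e).1 (Prod.ext_iff.1 e).2)

/-- The pairing of a parameter with an element of `A`. -/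
noncomputable def pr (s : P) : A →ₗ[ZMod 2] ZMod 2 :=
  Finsupp.linearCombination (ZMod 2) (fun n => if s n then (1 : ZMod 2) else 0)

/-- The cocycle. -/
noncomputable def cy (s : P) (h : GG) (f : F3) : ZMod 2 :=
  pr s (Multiplicative.toAdd (phi f h.left))

/-- The compact space. -/
abbrev KK : Type := F3 ⊕ GG → ZMod 2

/-- The action on the fibre over `s`. -/
noncomputable def actK (h : GG) (s : P) (k : KK) : KK
  | Sum.inl f => k (Sum.inl (f * h.right)) + cy s h f
  | Sum.inr g => k (Sum.inr (g * h))

noncomputable instance : MulAction GG (P × KK) where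
  smul h x := (x.1, actK h x.1 x.2)
  one_smul x := by
    refine Prod.ext rfl ?_
    funext i
    rcases i with f | g
    · show x.2 (Sum.inl (f * (1 : GG).right)) + cy x.1 1 f = x.2 (Sum.inl f)
      simp [cy]
    · show x.2 (Sum.inr (g * 1)) = x.2 (Sum.inr g)
      rw [mul_one]
  mul_smul h₁ h₂ x := by
    refine Prod.ext rfl ?_
    funext i
    rcases i with f | g
    · show x.2 (Sum.inl (f * (h₁ * h₂).right)) + cy x.1 (h₁ * h₂) f =
        x.2 (Sum.inl (f * h₁.right * h₂.right)) + cy x.1 h₂ (f * h₁.right) + cy x.1 h₁ f
      rw [SemidirectProduct.mul_right, mul_assoc, add_assoc]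
      congr 1
      unfold cy
      rw [SemidirectProduct.mul_left, map_mul, toAdd_mul, map_add, map_mul, add_comm]
      rfl
    · show x.2 (Sum.inr (g * (h₁ * h₂))) = x.2 (Sum.inr (g * h₁ * h₂))
      rw [mul_assoc]

theorem smul_def (h : GG) (x : P × KK) : h • x = (x.1, actK h x.1 x.2) := rfl

theorem smul_inl (h : GG) (x : P × KK) (f : F3) :
    (h • x).2 (Sum.inl f) = x.2 (Sum.inl (f * h.right)) + cy x.1 h f := rfl

theorem smul_inr (h : GG) (x : P × KK) (g : GG) :
    (h • x).2 (Sum.inr g) = x.2 (Sum.inr (g * h)) := rfl

theorem continuous_pr (a : A) : Continuous fun s : P => pr s a := by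
  have : (fun s : P => pr s a) =
      fun s : P => a.sum fun n x => x • (if s n then (1 : ZMod 2) else 0) := by
    funext s
    rfl
  rw [this]
  unfold Finsupp.sum
  refine continuous_finsetSum _ fun n _ => ?_
  exact (continuous_of_discreteTopology (f := fun b : Bool =>
    a n • (if b then (1 : ZMod 2) else 0))).comp (continuous_apply n)

instance : ContinuousConstSMul GG (P × KK) where
  continuous_const_smul h := by
    refine continuous_fst.prodMk (continuous_pi fun i => ?_)
    rcases i with f | g
    · have h1 : Continuous fun x : P × KK => x.2 (Sum.inl (f * h.right)) :=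
        (continuous_apply _).comp continuous_snd
      have h2 : Continuous fun x : P × KK => cy x.1 h f := (continuous_pr _).comp continuous_fst
      exact (continuous_of_discreteTopology (f := fun p : ZMod 2 × ZMod 2 => p.1 + p.2)).comp
        (h1.prodMk h2)
    · exact (continuous_apply _).comp continuous_snd

/-- The digit. -/
def qq (x : P × KK) : Bool := decide (x.2 (Sum.inl 1) ≠ 0)

/-- The elements of `A` in the group. -/
noncomputable def cc (n : ℕ) : GG :=
  SemidirectProduct.inl (Multiplicative.ofAdd (Finsupp.single n 1))

/-- The finite set. -/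
noncomputable def QQ : Fin 4 → GG :=
  ![SemidirectProduct.inr (FreeGroup.of 0), SemidirectProduct.inr (FreeGroup.of 1),
    SemidirectProduct.inr (FreeGroup.of 2), cc 1]

/-- The Haar probability measure. -/
noncomputable def lamK : Measure KK := Measure.addHaarMeasure ⊤

/-- The characters of the compact group. -/
noncomputable def chi (S : Finset (F3 ⊕ GG)) (k : KK) : ℝ :=
  ∏ i ∈ S, (if k i = 0 then 1 else -1)

/-- The translating element. -/
noncomputable def g0 : GG := SemidirectProduct.inr (FreeGroup.of 0)

/-- The points of the system which are generic and have trivial stabilizer. -/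
def XX0 : Set (P × KK) :=
  {x | (∀ g : GG, g ≠ 1 → g • x ≠ x) ∧
    ∀ (h : GG) (S : Finset (F3 ⊕ GG)), S.Nonempty →
      Tendsto (fun n : ℕ => (∑ j ∈ Finset.range (n ^ 2), chi S ((g0 ^ j * h) • x).2) / (n : ℝ) ^ 2)
        atTop (𝓝 0)}

end Pool.Agent.H646.CR
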