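import Mathlib

set_option autoImplicit false

/-!
# Countable Borel equivalence relations without compact action realizations: definitions

Paper proof: see `Pool/Agent/H646/CR/PLAN.md`.
-/

namespace Pool.Agent.H646.CR

open MeasureTheory ProbabilityTheory Set Topology TopologicalSpace Filter
open scoped ENNReal

/-- The parameter space (Cantor space). -/
abbrev P : Type := ℕ → Bool

/-- An enumeration of a countable group. -/
noncomputable def en (G : Type) [Group G] [Countable G] : ℕ → G :=
  (exists_surjective_nat G).choose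

theorem en_surj (G : Type) [Group G] [Countable G] : Function.Surjective (en G) :=
  (exists_surjective_nat G).choose_spec

/-- A dense sequence of continuous real functions on a compact metrizable space. -/
noncomputable def dn (X : Type) [TopologicalSpace X] [CompactSpace X] [MetrizableSpace X] :
    ℕ → C(X, ℝ) := denseSeq C(X, ℝ)

/-- A bit as a real number. -/
def b2r (b : Bool) : ℝ := if b then 1 else 0

/-- Normalised real positive definite functions on a group. -/
structure IsPD {G : Type} [Group G] (Φ : G → ℝ) : Prop where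
  one : Φ 1 = 1
  symm : ∀ g, Φ g⁻¹ = Φ g
  psd : ∀ (n : ℕ) (g : Fin n → G) (a : Fin n → ℝ),
    0 ≤ ∑ i, ∑ j, a i * a j * Φ (g j * (g i)⁻¹)

/-- The measure on the fibre over `s`. -/
noncomputable def mu {K : Type} [MeasurableSpace K] (lam : Measure K) (s : P) : Measure (P × K) :=
  (Measure.dirac s).prod lam

section sys

variable (G K : Type) [Group G] [Countable G] [TopologicalSpace K] [CompactSpace K]
  [MetrizableSpace K] [MeasurableSpace K] [BorelSpace K]
  [MulAction G (P × K)] [ContinuousConstSMul G (P × K)]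

/-- The dynamical system used for the counterexample: `G` acts continuously on `P × K` over `P`,
preserving `lam` in each fibre; `q` is a continuous digit on which the elements `c n` act over the
parameter `s` by the sign `s n`; the pair (`Q`, `c`) has the uniform relative property (T); and
`X0` is an invariant Borel set of full measure in each fibre, on which the action is free and on
which the only invariant measures are the products. -/
structure IsSys (lam : Measure K) (q : P × K → Bool) (c : ℕ → G) (Q : Fin 4 → G)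
    (X0 : Set (P × K)) : Prop where
  inf : Infinite G
  prob : IsProbabilityMeasure lam
  fst_smul : ∀ (g : G) (x : P × K), (g • x).1 = x.1
  pres : ∀ (g : G) (s : P), Measure.map (fun k => (g • ((s, k) : P × K)).2) lam = lam
  q_cont : Continuous q
  q_c : ∀ (n : ℕ) (x : P × K), q (c n • x) = xor (x.1 n) (q x)
  rt : ∀ Φ : G → ℝ, IsPD Φ → (∀ i, 1 - 2 / 10 ^ 6 ≤ Φ (Q i)) → ∀ n, 9 / 10 ≤ Φ (c n)
  X0_meas : MeasurableSet X0
  X0_inv : ∀ (g : G) (x : P × K), x ∈ X0 → g • x ∈ X0
  X0_free : ∀ (g : G) (x : P × K), x ∈ X0 → g • x = x → g = 1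
  X0_full : ∀ s : P, lam {k | (s, k) ∉ X0} = 0
  X0_ue : ∀ ρ : Measure (P × K), IsProbabilityMeasure ρ →
    (∀ g : G, Measure.map (fun x => g • x) ρ = ρ) → ρ X0ᶜ = 0 →
    ρ = (Measure.map Prod.fst ρ).prod lam

end sys

/-- Label arrays: `L g u = true` means that the point with name `g` is `u •` the base point. -/
abbrev Lab (G : Type) : Type := G → G → Bool

/-- State space of the labelled processes: base point, point of the imitated system, labels. -/
abbrev St (G K : Type) : Type := (P × K) × ((P × K) × Lab G)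

section proc

variable {G K : Type} [Group G] [Countable G] [TopologicalSpace K] [CompactSpace K]
  [MetrizableSpace K] [MeasurableSpace K] [BorelSpace K]
  [MulAction G (P × K)] [ContinuousConstSMul G (P × K)]

/-- Change of base point for label arrays. -/
def shL (g u : G) (L : Lab G) : Lab G := fun h w => L (h * g) (w * u)

/-- Change of base point for states. -/
def T (g u : G) (ω : St G K) : St G K := (u • ω.1, (g • ω.2.1, shL g u ω.2.2))

/-- The common properties of the labelled processes. -/
structure W0 (η : Measure (St G K)) : Prop where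
  prob : IsProbabilityMeasure η
  lab_one : η {ω | ω.2.2 1 1 = false} = 0
  lab_uniq : ∀ g u w : G, u ≠ w → η {ω | ω.2.2 g u = true ∧ ω.2.2 g w = true} = 0
  inv : ∀ (g u : G) (D : Set (St G K)), MeasurableSet D →
    η ({ω | ω.2.2 g u = true} ∩ T g u ⁻¹' D) = η ({ω | ω.2.2 g⁻¹ u⁻¹ = true} ∩ D)

/-- The closed event that the label of `g` is the one predicted by the continuous function
number `l`. -/
def FX (l : ℕ) (g : G) : Set (St G K) :=
  {ω | ∃ m : ℕ, |dn (P × K) l ω.1 - m| ≤ 1 / 4 ∧ ω.2.2 g (en G m) = true}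

/-- The closed event that the digit is the one predicted by the continuous function
number `l`. -/
def HX (q : P × K → Bool) (l : ℕ) : Set (St G K) :=
  {ω | |dn (P × K) l ω.1 - b2r (q ω.2.1)| ≤ 1 / 4}

/-- The system over the parameter `t` is approximately contained in the one over `s`. -/
structure RelW (lam : Measure K) (q : P × K → Bool) (Q : Fin 4 → G) (l : Fin 4 → ℕ) (l' : ℕ)
    (t s : P) (η : Measure (St G K)) : Prop where
  w0 : W0 η
  marg : Measure.map Prod.fst η = mu lam s
  par : η {ω | ω.2.1.1 ≠ t} = 0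
  gen : ∀ i, ENNReal.ofReal (1 - 1 / 10 ^ 6) ≤ η (FX (l i) (Q i))
  dig : ENNReal.ofReal (1 - 1 / 10 ^ 6) ≤ η (HX q l')

/-- The relation obtained from `RelW`. -/
def Rel (lam : Measure K) (q : P × K → Bool) (Q : Fin 4 → G) (l : Fin 4 → ℕ) (l' : ℕ)
    (t s : P) : Prop := ∃ η : Measure (St G K), RelW lam q Q l l' t s η

/-- State space of couplings. -/
abbrev Cp (G K : Type) : Type := (P × K) × (((P × K) × Lab G) × ((P × K) × Lab G))

/-- Change of base point for couplings. -/
def TC (g u : G) (ω : Cp G K) : Cp G K :=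
  (u • ω.1, ((g • ω.2.1.1, shL g u ω.2.1.2), (g • ω.2.2.1, shL g u ω.2.2.2)))

/-- The properties of the coupling of two labelled processes. -/
structure CW (C : Measure (Cp G K)) : Prop where
  prob : IsProbabilityMeasure C
  one₁ : C {ω | ω.2.1.2 1 1 = false} = 0
  one₂ : C {ω | ω.2.2.2 1 1 = false} = 0
  uniq₁ : ∀ g u w : G, u ≠ w → C {ω | ω.2.1.2 g u = true ∧ ω.2.1.2 g w = true} = 0
  uniq₂ : ∀ g u w : G, u ≠ w → C {ω | ω.2.2.2 g u = true ∧ ω.2.2.2 g w = true} = 0
  inv : ∀ (g u : G) (D : Set (Cp G K)), MeasurableSet D →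
    C ({ω | ω.2.1.2 g u = true ∧ ω.2.2.2 g u = true} ∩ TC g u ⁻¹' D) =
      C ({ω | ω.2.1.2 g⁻¹ u⁻¹ = true ∧ ω.2.2.2 g⁻¹ u⁻¹ = true} ∩ D)

end proc

section real

variable {G K : Type} [Group G] [Countable G] [TopologicalSpace K] [CompactSpace K]
  [MetrizableSpace K] [MeasurableSpace K] [BorelSpace K]
  [MulAction G (P × K)] [ContinuousConstSMul G (P × K)]
variable (Λ Y : Type) [Group Λ] [Countable Λ] [TopologicalSpace Y] [CompactSpace Y]
  [MetrizableSpace Y] [MeasurableSpace Y] [BorelSpace Y] [MulAction Λ Y]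
  [ContinuousConstSMul Λ Y]

/-- A (partial) compact action realization of the orbit relation of `G` on the part of `X0` over
`B`; the rest of `Y` carries no `Λ`-invariant probability measure. -/
structure IsReal (G : Type) [Group G] [MulAction G (P × K)] (X0 : Set (P × K)) (B : Set P)
    (Θ : P × K → Y) (Ξ : Y → P × K) (Y0 : Set Y) : Prop where
  mΘ : Measurable Θ
  mΞ : Measurable Ξ
  mY0 : MeasurableSet Y0
  ΘY : ∀ x, x ∈ X0 → x.1 ∈ B → Θ x ∈ Y0 ∧ Ξ (Θ x) = x
  ΞX : ∀ y, y ∈ Y0 → Ξ y ∈ X0 ∧ (Ξ y).1 ∈ B ∧ Θ (Ξ y) = y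
  inv : ∀ (w : Λ) (y : Y), y ∈ Y0 → w • y ∈ Y0
  orb : ∀ x x', x ∈ X0 → x.1 ∈ B → x' ∈ X0 → x'.1 ∈ B →
    ((∃ g : G, g • x = x') ↔ ∃ w : Λ, w • Θ x = Θ x')
  full : ∀ ρ : Measure Y, IsProbabilityMeasure ρ →
    (∀ w : Λ, Measure.map (fun y => w • y) ρ = ρ) → ρ Y0ᶜ = 0

variable {Λ Y}

/-- The closed event that the point with name `g` is the one predicted by the continuous
function number `l`. -/
def FY (Λ : Type) [Group Λ] [Countable Λ] [MulAction Λ Y] (l : ℕ) (g : G) :
    Set ((P × K) × (G → Y)) :=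
  {ω | ∃ m : ℕ, |dn Y l (ω.2 1) - m| ≤ 1 / 4 ∧ ω.2 g = en Λ m • ω.2 1}

/-- The closed event that the digit is the one predicted by the continuous function
number `l`. -/
def HY (q : P × K → Bool) (l : ℕ) : Set ((P × K) × (G → Y)) :=
  {ω | |dn Y l (ω.2 1) - b2r (q ω.1)| ≤ 1 / 4}

/-- The processes with values in the realization. -/
structure LimW (Λ : Type) [Group Λ] [Countable Λ] [MulAction Λ Y]
    (q : P × K → Bool) (Q : Fin 4 → G) (l : Fin 4 → ℕ) (l' : ℕ) (d : P)
    (ζ : Measure ((P × K) × (G → Y))) : Prop where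
  prob : IsProbabilityMeasure ζ
  inv : ∀ h : G, Measure.map (fun ω => (h • ω.1, fun g => ω.2 (g * h))) ζ = ζ
  par : ζ {ω | ω.1.1 ≠ d} = 0
  marg : ∀ w : Λ, Measure.map (fun ω => w • ω.2 1) ζ = Measure.map (fun ω => ω.2 1) ζ
  gen : ∀ i, ENNReal.ofReal (1 - 1 / 10 ^ 8) ≤ ζ (FY Λ (l i) (Q i))
  dig : ENNReal.ofReal (1 - 1 / 10 ^ 8) ≤ ζ (HY q l')

end real

end Pool.Agent.H646.CR
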