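import Pool.Agent.H646.CR.Stm

/-!
# GNS construction for real positive definite functions (helper344 for helper646)
-/

set_option autoImplicit false

namespace Pool.Agent.H344.CRgns

open Pool.Agent.H646.CR

section
variable {G : Type} [Group G] (Φ : G → ℝ)

/-- the form -/
noncomputable def B : (G →₀ ℝ) →ₗ[ℝ] (G →₀ ℝ) →ₗ[ℝ] ℝ :=
  Finsupp.linearCombination ℝ (fun g => Finsupp.linearCombination ℝ (fun h => Φ (h * g⁻¹)))

theorem B_single (g h : G) (a b : ℝ) :
    B Φ (Finsupp.single g a) (Finsupp.single h b) = a * b * Φ (h * g⁻¹) := by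
  unfold B
  rw [Finsupp.linearCombination_single, LinearMap.smul_apply, Finsupp.linearCombination_single,
    smul_eq_mul, smul_eq_mul]
  ring

theorem B_symm (hΦ : IsPD Φ) (x y : G →₀ ℝ) : B Φ x y = B Φ y x := by
  have h : B Φ = (B Φ).flip := by
    refine Finsupp.lhom_ext fun g a => Finsupp.lhom_ext fun h b => ?_
    rw [LinearMap.flip_apply, B_single, B_single]
    have e : Φ (g * h⁻¹) = Φ (h * g⁻¹) := by
      rw [← hΦ.symm (h * g⁻¹)]
      congr 1
      group
    rw [e]
    ring
  conv_lhs => rw [h]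
  rfl

theorem B_nonneg (hΦ : IsPD Φ) (x : G →₀ ℝ) : 0 ≤ B Φ x x := by
  have h1 : B Φ x x = ∑ g ∈ x.support, ∑ h ∈ x.support, x g * x h * Φ (h * g⁻¹) := by
    have hx : B Φ x x = B Φ (∑ g ∈ x.support, Finsupp.single g (x g))
        (∑ h ∈ x.support, Finsupp.single h (x h)) := by
      have e : ∑ g ∈ x.support, Finsupp.single g (x g) = x := Finsupp.sum_single x
      rw [e]
    rw [hx]
    simp only [map_sum, LinearMap.sum_apply, B_single]
    exact Finset.sum_comm
  rw [h1]
  have h2 := hΦ.psd x.support.card (fun i => (x.support.equivFin.symm i : G))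
    (fun i => x (x.support.equivFin.symm i : G))
  have h3 : ∑ g ∈ x.support, ∑ h ∈ x.support, x g * x h * Φ (h * g⁻¹) =
      ∑ g : x.support, ∑ h : x.support, x (g : G) * x (h : G) * Φ ((h : G) * (g : G)⁻¹) := by
    rw [← Finset.sum_coe_sort x.support (fun g => ∑ h ∈ x.support, x g * x h * Φ (h * g⁻¹))]
    refine Finset.sum_congr rfl fun g _ => ?_
    rw [← Finset.sum_coe_sort x.support (fun h => x (g : G) * x h * Φ (h * (g : G)⁻¹))]
  rw [h3, ← Equiv.sum_comp x.support.equivFin.symm]
  refine h2.trans (le_of_eq (Finset.sum_congr rfl fun i _ => ?_))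
  exact Equiv.sum_comp x.support.equivFin.symm (fun h : x.support =>
    x (x.support.equivFin.symm i : G) * x (h : G) * Φ ((h : G) *
      (x.support.equivFin.symm i : G)⁻¹))

/-- the representation -/
noncomputable def rep (k : G) : (G →₀ ℝ) →ₗ[ℝ] (G →₀ ℝ) :=
  Finsupp.lmapDomain ℝ ℝ (fun g => g * k⁻¹)

theorem rep_single (k g : G) (a : ℝ) :
    rep k (Finsupp.single g a) = Finsupp.single (g * k⁻¹) a := by
  unfold rep
  rw [Finsupp.lmapDomain_apply, Finsupp.mapDomain_single]

theorem rep_mul (g h : G) (v : G →₀ ℝ) : rep (g * h) v = rep g (rep h v) := by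
  have e : rep (g * h) = (rep g).comp (rep h) := by
    refine Finsupp.lhom_ext fun x a => ?_
    rw [LinearMap.comp_apply, rep_single, rep_single, rep_single]
    congr 1
    group
  rw [e]
  rfl

theorem rep_one (v : G →₀ ℝ) : rep (1 : G) v = v := by
  have e : rep (1 : G) = LinearMap.id := by
    refine Finsupp.lhom_ext fun x a => ?_
    rw [rep_single, inv_one, mul_one]
    rfl
  rw [e]
  rfl

theorem B_rep (k : G) (x y : G →₀ ℝ) : B Φ (rep k x) (rep k y) = B Φ x y := by
  have e : (B Φ).compl₁₂ (rep k) (rep k) = B Φ := by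
    refine Finsupp.lhom_ext fun g a => Finsupp.lhom_ext fun h b => ?_
    rw [LinearMap.compl₁₂_apply, rep_single, rep_single, B_single, B_single]
    congr 2
    group
  conv_rhs => rw [← e]
  rfl

/-- the core -/
@[instance_reducible]
noncomputable def core (hΦ : IsPD Φ) : PreInnerProductSpace.Core ℝ (G →₀ ℝ) where
  inner x y := B Φ x y
  conj_inner_symm x y := by
    rw [conj_trivial]
    exact B_symm Φ hΦ y x
  re_inner_nonneg x := by
    rw [RCLike.re_to_real]
    exact B_nonneg Φ hΦ x
  add_left x y z := by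
    rw [map_add, LinearMap.add_apply]
  smul_left x y r := by
    rw [map_smul, LinearMap.smul_apply, conj_trivial, smul_eq_mul]

end

theorem holds : Pool.Agent.H646.CR.S_gns := by
  intro G _ Φ hΦ
  let c := core Φ hΦ
  let i1 : SeminormedAddCommGroup (G →₀ ℝ) :=
    @InnerProductSpace.Core.toSeminormedAddCommGroup ℝ (G →₀ ℝ) _ _ _ c
  let i2 : InnerProductSpace ℝ (G →₀ ℝ) := InnerProductSpace.ofCore c
  have hin : ∀ x y : G →₀ ℝ, inner ℝ x y = B Φ x y := fun x y => rfl
  have hnorm : ∀ x : G →₀ ℝ, ‖x‖ = √(B Φ x x) := fun x => rfl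
  refine ⟨G →₀ ℝ, i1, i2, rep, Finsupp.single 1 1, rep_mul, rep_one, ?_, ?_, ?_⟩
  · intro g v
    rw [hnorm, hnorm, B_rep]
  · rw [hnorm, B_single, mul_inv_cancel, hΦ.one]
    norm_num
  · intro g
    rw [hin, rep_single, B_single]
    simp

end Pool.Agent.H344.CRgns
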