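import Pool.Agent.H646.CR.Stm

set_option autoImplicit false
set_option linter.unusedSectionVars false

/-!
Project CR (helper646), piece S_pd (helper740): positive definiteness of the agreement function.
-/

namespace Pool.Agent.H740.CRPD

open MeasureTheory ProbabilityTheory Set Topology TopologicalSpace Filter
open scoped ENNReal
open Pool.Agent.H646.CR

section

variable {G K : Type} [Group G] [Countable G] [TopologicalSpace K] [CompactSpace K]
  [MetrizableSpace K] [MeasurableSpace K] [BorelSpace K]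
  [MulAction G (P × K)] [ContinuousConstSMul G (P × K)]

/-- both labels of `g` are `u` -/
def Ag (G K : Type) (g u : G) : Set (Cp G K) :=
  {ω | ω.2.1.2 g u = true ∧ ω.2.2.2 g u = true}

/-- the labels of `g` agree -/
def Ng (G K : Type) (g : G) : Set (Cp G K) :=
  {ω | ∃ u : G, ω.2.1.2 g u = true ∧ ω.2.2.2 g u = true}

theorem Ng_eq (g : G) : Ng G K g = ⋃ u, Ag G K g u := by
  ext ω
  simp only [mem_iUnion]
  exact Iff.rfl

theorem meas_Ag (g u : G) : MeasurableSet (Ag G K g u) := by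
  have h1 : Measurable fun ω : Cp G K => ω.2.1.2 g u :=
    (measurable_pi_apply u).comp ((measurable_pi_apply g).comp
      (measurable_snd.comp (measurable_fst.comp measurable_snd)))
  have h2 : Measurable fun ω : Cp G K => ω.2.2.2 g u :=
    (measurable_pi_apply u).comp ((measurable_pi_apply g).comp
      (measurable_snd.comp (measurable_snd.comp measurable_snd)))
  exact (h1 (measurableSet_singleton true)).inter (h2 (measurableSet_singleton true))

theorem meas_Ng (g : G) : MeasurableSet (Ng G K g) := by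
  rw [Ng_eq]
  exact MeasurableSet.iUnion fun u => meas_Ag g u

variable {C : Measure (Cp G K)}

theorem sum_Ng (hC : CW C) (g : G) {E : Set (Cp G K)} (hE : MeasurableSet E) :
    C (Ng G K g ∩ E) = ∑' u, C (Ag G K g u ∩ E) := by
  rw [Ng_eq, iUnion_inter]
  refine measure_iUnion₀ ?_ fun u => ((meas_Ag g u).inter hE).nullMeasurableSet
  intro u w huw
  refine measure_mono_null ?_ (hC.uniq₁ g u w huw)
  rintro ω ⟨⟨h1, -⟩, ⟨h2, -⟩⟩
  exact ⟨h1.1, h2.1⟩

/-- the key identity -/
theorem key (hC : CW C) (h : G) {E D : Set (Cp G K)} (hE : MeasurableSet E) (hD : MeasurableSet D)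
    (hED : ∀ u, ∀ ω ∈ Ag G K h u, (ω ∈ E ↔ TC h u ω ∈ D)) :
    C (Ng G K h ∩ E) = C (Ng G K h⁻¹ ∩ D) := by
  rw [sum_Ng hC h hE, sum_Ng hC h⁻¹ hD]
  have h1 : ∀ u, C (Ag G K h u ∩ E) = C (Ag G K h⁻¹ u⁻¹ ∩ D) := by
    intro u
    refine Eq.trans ?_ (hC.inv h u D hD)
    congr 1
    ext ω
    constructor
    · rintro ⟨h2, h3⟩
      exact ⟨h2, (hED u ω h2).1 h3⟩
    · rintro ⟨h2, h3⟩
      exact ⟨h2, (hED u ω h2).2 h3⟩
  rw [tsum_congr h1]
  exact (Equiv.inv G).tsum_eq (fun u => C (Ag G K h⁻¹ u ∩ D))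

theorem TC_mem (h u m : G) (ω : Cp G K) : TC h u ω ∈ Ng G K m ↔ ω ∈ Ng G K (m * h) := by
  constructor
  · rintro ⟨w, h1, h2⟩
    exact ⟨w * u, h1, h2⟩
  · rintro ⟨w, h1, h2⟩
    refine ⟨w * u⁻¹, ?_, ?_⟩
    · show ω.2.1.2 (m * h) (w * u⁻¹ * u) = true
      rw [inv_mul_cancel_right]
      exact h1
    · show ω.2.2.2 (m * h) (w * u⁻¹ * u) = true
      rw [inv_mul_cancel_right]
      exact h2

theorem N_one (hC : CW C) : C (Ng G K 1)ᶜ = 0 := by
  have h := measure_union_null hC.one₁ hC.one₂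
  refine measure_mono_null ?_ h
  intro ω hω
  by_contra hcon
  rw [mem_union, not_or] at hcon
  refine hω ⟨1, ?_, ?_⟩
  · exact Bool.eq_true_of_not_eq_false hcon.1
  · exact Bool.eq_true_of_not_eq_false hcon.2

/-- the set of names which agree with `i` is `S` -/
def Ev {n : ℕ} (K : Type) (g : Fin n → G) (i : Fin n) (S : Finset (Fin n)) : Set (Cp G K) :=
  {ω | ∀ j, j ∈ S ↔ ω ∈ Ng G K (g j * (g i)⁻¹)}

theorem meas_Ev {n : ℕ} (g : Fin n → G) (i : Fin n) (S : Finset (Fin n)) :
    MeasurableSet (Ev K g i S) := by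
  have h : Ev K g i S = ⋂ j, {ω | j ∈ S ↔ ω ∈ Ng G K (g j * (g i)⁻¹)} := by
    ext ω
    simp only [mem_iInter]
    exact Iff.rfl
  rw [h]
  refine MeasurableSet.iInter fun j => ?_
  by_cases hj : j ∈ S
  · have : {ω : Cp G K | j ∈ S ↔ ω ∈ Ng G K (g j * (g i)⁻¹)} = Ng G K (g j * (g i)⁻¹) := by
      ext ω
      exact ⟨fun h => h.1 hj, fun h => ⟨fun _ => h, fun _ => hj⟩⟩
    rw [this]
    exact meas_Ng _
  · have : {ω : Cp G K | j ∈ S ↔ ω ∈ Ng G K (g j * (g i)⁻¹)} = (Ng G K (g j * (g i)⁻¹))ᶜ := by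
      ext ω
      exact ⟨fun h h' => hj (h.2 h'), fun h => ⟨fun h' => absurd h' hj, fun h' => absurd h' h⟩⟩
    rw [this]
    exact (meas_Ng _).compl

theorem Ev_swap (hC : CW C) {n : ℕ} (g : Fin n → G) {i k : Fin n} {S : Finset (Fin n)}
    (hi : i ∈ S) (hk : k ∈ S) : C (Ev K g i S) = C (Ev K g k S) := by
  have h1 := key hC (g k * (g i)⁻¹) (meas_Ev g i S) (meas_Ev g k S) (by
    intro u ω _
    refine forall_congr' fun j => ?_
    rw [TC_mem]
    have : g j * (g k)⁻¹ * (g k * (g i)⁻¹) = g j * (g i)⁻¹ := by group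
    rw [this])
  have h2 : Ng G K (g k * (g i)⁻¹) ∩ Ev K g i S = Ev K g i S :=
    inter_eq_right.2 fun ω hω => (hω k).1 hk
  have h3 : Ng G K (g k * (g i)⁻¹)⁻¹ ∩ Ev K g k S = Ev K g k S := by
    refine inter_eq_right.2 fun ω hω => ?_
    have : (g k * (g i)⁻¹)⁻¹ = g i * (g k)⁻¹ := by group
    rw [this]
    exact (hω i).1 hi
  rw [h2, h3] at h1
  exact h1

theorem Ev_zero (hC : CW C) {n : ℕ} (g : Fin n → G) {i : Fin n} {S : Finset (Fin n)}
    (hi : i ∉ S) : C (Ev K g i S) = 0 := by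
  refine measure_mono_null (fun ω hω => ?_) (N_one hC)
  intro h
  refine hi ((hω i).2 ?_)
  rw [mul_inv_cancel]
  exact h

theorem N_sum (hC : CW C) {n : ℕ} (g : Fin n → G) (i j : Fin n) :
    (C (Ng G K (g j * (g i)⁻¹))).toReal =
      ∑ S : Finset (Fin n), if j ∈ S then (C (Ev K g i S)).toReal else 0 := by
  classical
  have hp := hC.prob
  rw [← Finset.sum_filter]
  have h1 : Ng G K (g j * (g i)⁻¹) =
      ⋃ S ∈ Finset.univ.filter (fun S : Finset (Fin n) => j ∈ S), Ev K g i S := by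
    ext ω
    simp only [mem_iUnion, Finset.mem_filter, Finset.mem_univ, true_and, exists_prop]
    constructor
    · intro h
      refine ⟨Finset.univ.filter (fun j => ω ∈ Ng G K (g j * (g i)⁻¹)), ?_, fun l => ?_⟩
      · simpa using h
      · simp
    · rintro ⟨S, hS, hω⟩
      exact (hω j).1 hS
  rw [h1, measure_biUnion_finset]
  · rw [ENNReal.toReal_sum]
    intro S _
    exact measure_ne_top _ _
  · intro S _ S' _ hne
    refine Set.disjoint_left.2 fun ω hω hω' => hne ?_
    ext l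
    rw [hω l, hω' l]
  · intro S _
    exact meas_Ev g i S

theorem psd (hC : CW C) (n : ℕ) (g : Fin n → G) (a : Fin n → ℝ) :
    0 ≤ ∑ i, ∑ j, a i * a j * (C (Ng G K (g j * (g i)⁻¹))).toReal := by
  classical
  have h1 : ∑ i, ∑ j, a i * a j * (C (Ng G K (g j * (g i)⁻¹))).toReal =
      ∑ S : Finset (Fin n), (∑ i, a i * (C (Ev K g i S)).toReal) * ∑ j ∈ S, a j := by
    have h2 : ∀ i j, a i * a j * (C (Ng G K (g j * (g i)⁻¹))).toReal =
        ∑ S : Finset (Fin n), a i * (C (Ev K g i S)).toReal * (if j ∈ S then a j else 0) := by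
      intro i j
      rw [N_sum hC, Finset.mul_sum]
      refine Finset.sum_congr rfl fun S _ => ?_
      split_ifs <;> ring
    simp only [h2]
    rw [Finset.sum_congr rfl fun i _ => Finset.sum_comm, Finset.sum_comm]
    refine Finset.sum_congr rfl fun S _ => ?_
    rw [Finset.sum_mul]
    refine Finset.sum_congr rfl fun i _ => ?_
    rw [← Finset.mul_sum, Finset.sum_ite_mem, Finset.univ_inter]
  rw [h1]
  refine Finset.sum_nonneg fun S _ => ?_
  rcases S.eq_empty_or_nonempty with hS | ⟨k, hk⟩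
  · rw [hS]
    simp
  · have h3 : ∑ i, a i * (C (Ev K g i S)).toReal = (C (Ev K g k S)).toReal * ∑ i ∈ S, a i := by
      have h6 : ∀ i, a i * (C (Ev K g i S)).toReal =
          if i ∈ S then (C (Ev K g k S)).toReal * a i else 0 := by
        intro i
        by_cases hi : i ∈ S
        · rw [if_pos hi, Ev_swap hC g hi hk]
          ring
        · rw [if_neg hi, Ev_zero hC g hi]
          simp
      simp only [h6]
      rw [Finset.sum_ite_mem, Finset.univ_inter, Finset.mul_sum]
    rw [h3]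
    have h4 : 0 ≤ (C (Ev K g k S)).toReal := ENNReal.toReal_nonneg
    have h5 := mul_self_nonneg (∑ i ∈ S, a i)
    nlinarith [mul_nonneg h4 h5]

end

theorem holds : S_pd := by
  intro G K _ _ _ _ _ _ _ _ _ C hC
  have hp := hC.prob
  refine ⟨?_, ?_, ?_⟩
  · show (C (Ng G K 1)).toReal = 1
    have h1 : C (Ng G K 1) = 1 := by
      have h2 := prob_add_prob_compl (μ := C) (meas_Ng (K := K) (1 : G))
      rw [N_one hC, add_zero] at h2
      exact h2
    rw [h1, ENNReal.toReal_one]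
  · intro g
    show (C (Ng G K g⁻¹)).toReal = (C (Ng G K g)).toReal
    have h1 := key hC g MeasurableSet.univ MeasurableSet.univ (fun u ω _ => by simp)
    rw [inter_univ, inter_univ] at h1
    rw [h1]
  · intro n g a
    exact psd hC n g a

end Pool.Agent.H740.CRPD
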