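import Pool.Agent.H646.CR.Stm

/-! S_pw: piecewise maps preserve the measure. -/

set_option autoImplicit false

namespace Pool.Agent.H71.CRpw

open MeasureTheory Set Pool.Agent.H646.CR
open scoped ENNReal

theorem holds : Pool.Agent.H646.CR.S_pw := by
  classical
  intro X _ _ G _ _ _ hG μ hμ hinv φ X1 hφ hX1 hfull hinj horb
  -- the pieces
  let A : ℕ → Set X := fun n => {x | x ∈ X1 ∧ φ x = en G n • x ∧ ∀ m < n, φ x ≠ en G m • x}
  have hEq : ∀ n, MeasurableSet {x | φ x = en G n • x} := fun n =>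
    measurableSet_eq_fun hφ (hG (en G n))
  have hA : ∀ n, MeasurableSet (A n) := by
    intro n
    have h1 : A n = X1 ∩ ({x | φ x = en G n • x} ∩ ⋂ m ∈ Finset.range n,
        {x | φ x = en G m • x}ᶜ) := by
      ext x
      simp only [A, mem_ofPred_eq, mem_inter_iff, mem_iInter, Finset.mem_range, mem_compl_iff]
    rw [h1]
    refine hX1.inter ((hEq n).inter ?_)
    exact Finset.measurableSet_biInter _ fun m _ => (hEq m).compl
  have hAd : ∀ n m x, x ∈ A n → x ∈ A m → n = m := by
    intro n m x hn hm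
    by_contra hne
    rcases lt_or_gt_of_ne hne with h | h
    · exact hm.2.2 n h hn.2.1
    · exact hn.2.2 m h hm.2.1
  have hAc : ∀ x ∈ X1, ∃ n, x ∈ A n := by
    intro x hx
    have hex : ∃ n, φ x = en G n • x := by
      obtain ⟨g, hg⟩ := horb x hx
      obtain ⟨n, hn⟩ := en_surj G g
      exact ⟨n, by rw [hn]; exact hg⟩
    exact ⟨Nat.find hex, hx, Nat.find_spec hex, fun m hm => Nat.find_min hex hm⟩
  -- the inequality
  have hle : Measure.map φ μ ≤ μ := by
    refine Measure.le_iff.2 fun D hD => ?_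
    rw [Measure.map_apply hφ hD]
    let C : ℕ → Set X := fun n => A n ∩ (fun x => en G n • x) ⁻¹' D
    have hC : ∀ n, MeasurableSet (C n) := fun n => (hA n).inter (hG _ hD)
    let B : ℕ → Set X := fun n => (fun x => (en G n)⁻¹ • x) ⁻¹' C n
    have hB : ∀ n, MeasurableSet (B n) := fun n => hG _ (hC n)
    have hBm : ∀ n, μ (B n) = μ (C n) := by
      intro n
      have h1 : Measure.map (fun x => (en G n)⁻¹ • x) μ (C n) = μ (C n) := by
        rw [hinv]
      rw [Measure.map_apply (hG _) (hC n)] at h1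
      exact h1
    have hCd : Pairwise (Function.onFun Disjoint C) := by
      intro n m hnm
      show Disjoint (C n) (C m)
      rw [Set.disjoint_left]
      intro x hn hm
      exact hnm (hAd n m x hn.1 hm.1)
    have hBd : Pairwise (Function.onFun Disjoint B) := by
      intro n m hnm
      show Disjoint (B n) (B m)
      rw [Set.disjoint_left]
      intro y hn hm
      have hn1 : (en G n)⁻¹ • y ∈ A n := hn.1
      have hm1 : (en G m)⁻¹ • y ∈ A m := hm.1
      have e1 : φ ((en G n)⁻¹ • y) = y := by rw [hn1.2.1, smul_inv_smul]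
      have e2 : φ ((en G m)⁻¹ • y) = y := by rw [hm1.2.1, smul_inv_smul]
      have e3 := hinj hn1.1 hm1.1 (e1.trans e2.symm)
      rw [← e3] at hm1
      exact hnm (hAd n m _ hn1 hm1)
    have hBD : (⋃ n, B n) ⊆ D := by
      intro y hy
      obtain ⟨n, hn⟩ := mem_iUnion.1 hy
      have h2 : en G n • ((en G n)⁻¹ • y) ∈ D := hn.2
      rwa [smul_inv_smul] at h2
    have hcov : φ ⁻¹' D ⊆ X1ᶜ ∪ ⋃ n, C n := by
      intro x hx
      by_cases hx1 : x ∈ X1
      · right
        obtain ⟨n, hn⟩ := hAc x hx1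
        refine mem_iUnion.2 ⟨n, hn, ?_⟩
        show en G n • x ∈ D
        rw [← hn.2.1]
        exact hx
      · exact Or.inl hx1
    calc μ (φ ⁻¹' D) ≤ μ (X1ᶜ ∪ ⋃ n, C n) := measure_mono hcov
      _ ≤ μ X1ᶜ + μ (⋃ n, C n) := measure_union_le _ _
      _ = ∑' n, μ (C n) := by rw [hfull, zero_add, measure_iUnion hCd hC]
      _ = ∑' n, μ (B n) := by simp only [hBm]
      _ = μ (⋃ n, B n) := (measure_iUnion hBd hB).symm
      _ ≤ μ D := measure_mono hBD
  have := Measure.isProbabilityMeasure_map (μ := μ) hφ.aemeasurable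
  refine Measure.eq_of_le_of_measure_univ_eq hle ?_
  rw [measure_univ, measure_univ]

end Pool.Agent.H71.CRpw
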