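import Pool.Agent.H646.CR.Stm

set_option autoImplicit false

/-! CR/S_tr1b (helper870 for helper646): the marginal of the labelled process. -/

namespace Pool.Agent.H870.CR.Tr1b

open MeasureTheory ProbabilityTheory Set Topology TopologicalSpace Filter
open scoped ENNReal
open Pool.Agent.H646.CR

theorem holds (hpw : S_pw) : S_tr1b := by
  intro G K _ _ _ _ _ _ _ _ _ lam q c Q X0 hS Λ Y _ _ _ _ _ _ _ _ _ B Θ Ξ Y0 hR hB l l' d ζ hζ
  have hprob : IsProbabilityMeasure ζ := hζ.prob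
  have hev : Measurable (fun ω : (P × K) × (G → Y) => ω.2 1) :=
    (measurable_pi_apply 1).comp measurable_snd
  have hw : ∀ w : Λ, Measurable (fun y : Y => w • y) := fun w =>
    (continuous_const_smul w).measurable
  have hg : ∀ g : G, Measurable (fun x : P × K => g • x) := fun g =>
    (continuous_const_smul g).measurable
  have hpol : PolishSpace Y := by
    letI := metrizableSpaceMetric Y
    infer_instance
  -- the marginal in `Y`
  set ρ : Measure Y := Measure.map (fun ω : (P × K) × (G → Y) => ω.2 1) ζ with hρ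
  have hρp : IsProbabilityMeasure ρ := Measure.isProbabilityMeasure_map hev.aemeasurable
  have hρinv : ∀ w : Λ, Measure.map (fun y => w • y) ρ = ρ := by
    intro w
    rw [hρ, Measure.map_map (hw w) hev]
    exact hζ.marg w
  have hρ0 : ρ Y0ᶜ = 0 := hR.full ρ hρp hρinv
  have hae : ∀ᵐ y ∂ρ, y ∈ Y0 := by
    rw [ae_iff]
    exact hρ0
  -- invariance under `G`
  set ρX : Measure (P × K) := Measure.map Ξ ρ with hρX
  have hρXp : IsProbabilityMeasure ρX := Measure.isProbabilityMeasure_map hR.mΞ.aemeasurable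
  have hback : ∀ (g : G) (y : Y), y ∈ Y0 → Ξ (Θ (g • Ξ y)) = g • Ξ y ∧ g • Ξ y ∈ X0 ∧
      (g • Ξ y).1 ∈ B := by
    intro g y hy
    obtain ⟨h1, h2, h3⟩ := hR.ΞX y hy
    have h4 : g • Ξ y ∈ X0 := hS.X0_inv g _ h1
    have h5 : (g • Ξ y).1 ∈ B := by
      rw [hS.fst_smul]
      exact h2
    exact ⟨(hR.ΘY _ h4 h5).2, h4, h5⟩
  have hinvX : ∀ g : G, Measure.map (fun x => g • x) ρX = ρX := by
    intro g
    have hφm : Measurable (fun y : Y => Θ (g • Ξ y)) := hR.mΘ.comp ((hg g).comp hR.mΞ)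
    have hφ := hpw Y Λ hw ρ hρp hρinv (fun y => Θ (g • Ξ y)) Y0 hφm hR.mY0 hρ0
      (by
        intro y hy y' hy' he
        have he' : Θ (g • Ξ y) = Θ (g • Ξ y') := he
        have h1 : g • Ξ y = g • Ξ y' := by
          rw [← (hback g y hy).1, ← (hback g y' hy').1, he']
        have h2 : Ξ y = Ξ y' := MulAction.injective g h1
        rw [← (hR.ΞX y hy).2.2, ← (hR.ΞX y' hy').2.2, h2])
      (by
        intro y hy
        obtain ⟨h1, h2, h3⟩ := hR.ΞX y hy
        obtain ⟨h4, h5, h6⟩ := hback g y hy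
        obtain ⟨w, hw'⟩ := (hR.orb (Ξ y) (g • Ξ y) h1 h2 h5 h6).mp ⟨g, rfl⟩
        refine ⟨w, ?_⟩
        rw [h3] at hw'
        exact hw'.symm)
    have e1 : Measure.map (fun x => g • x) ρX = Measure.map (fun y => g • Ξ y) ρ := by
      rw [hρX, Measure.map_map (hg g) hR.mΞ]
      rfl
    have e2 : Measure.map (fun y => g • Ξ y) ρ = Measure.map (fun y => Ξ (Θ (g • Ξ y))) ρ := by
      refine Measure.map_congr ?_
      filter_upwards [hae] with y hy
      exact (hback g y hy).1.symm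
    have e3 : Measure.map (fun y => Ξ (Θ (g • Ξ y))) ρ = Measure.map Ξ (Measure.map (fun y => Θ (g • Ξ y)) ρ) := by
      rw [Measure.map_map hR.mΞ hφm]
      rfl
    rw [e1, e2, e3, hφ]
  have hX0 : ρX X0ᶜ = 0 := by
    rw [hρX, Measure.map_apply hR.mΞ hS.X0_meas.compl]
    refine measure_mono_null ?_ hρ0
    intro y hy hy0
    exact hy (hR.ΞX y hy0).1
  have hue := hS.X0_ue ρX hρXp hinvX hX0
  have e4 : ρX = Measure.map (fun ω : (P × K) × (G → Y) => Ξ (ω.2 1)) ζ := by
    rw [hρX, hρ, Measure.map_map hR.mΞ hev]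
    rfl
  have e5 : Measure.map Prod.fst ρX = Measure.map (fun ω : (P × K) × (G → Y) => (Ξ (ω.2 1)).1) ζ := by
    have hm : Measurable (fun ω : (P × K) × (G → Y) => Ξ (ω.2 1)) := hR.mΞ.comp hev
    rw [e4, Measure.map_map measurable_fst hm]
    rfl
  refine ⟨?_, ?_⟩
  · rw [← e4, ← e5]
    exact hue
  · have h6 : ζ ((fun ω : (P × K) × (G → Y) => ω.2 1) ⁻¹' Y0ᶜ) = 0 := by
      rw [← Measure.map_apply hev hR.mY0.compl]
      exact hρ0
    refine measure_mono_null ?_ h6
    intro ω hω hω0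
    exact hω (hR.ΞX _ hω0).2.1

end Pool.Agent.H870.CR.Tr1b
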