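import Pool.Agent.H646.CR.Stm

set_option autoImplicit false

/-!
# Project CR (helper646): the transfer lemma, part c
-/

namespace Pool.Agent.H190.CR

open MeasureTheory ProbabilityTheory Set Topology TopologicalSpace Filter
open scoped ENNReal
open Pool.Agent.H646.CR

theorem sc_of_compact (K : Type) [TopologicalSpace K] [CompactSpace K] [MetrizableSpace K] :
    SecondCountableTopology K := by
  let _ := metrizableSpaceMetric K
  infer_instance

/-- removing a small set -/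
theorem cut {Ω : Type} [MeasurableSpace Ω] (ζ : Measure Ω) {A Bad C : Set Ω} {ε : ℝ} (hε : 0 ≤ ε)
    (hε2 : 2 * ε ≤ 1)
    (hA : ENNReal.ofReal (1 - ε) ≤ ζ A) (hB : ζ Bad ≤ ENNReal.ofReal ε)
    (h : ∀ ω ∈ A, ω ∉ Bad → ω ∈ C) : ENNReal.ofReal (1 - 2 * ε) ≤ ζ C := by
  have h1 : ζ A ≤ ζ C + ENNReal.ofReal ε := by
    calc ζ A ≤ ζ (C ∪ Bad) := measure_mono fun ω hω => by
          by_cases hb : ω ∈ Bad
          · exact Or.inr hb
          · exact Or.inl (h ω hω hb)
      _ ≤ ζ C + ζ Bad := measure_union_le _ _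
      _ ≤ _ := by gcongr
  have h2 : ENNReal.ofReal (1 - ε) = ENNReal.ofReal (1 - 2 * ε) + ENNReal.ofReal ε := by
    rw [← ENNReal.ofReal_add (by linarith) hε]
    congr 1; ring
  rw [h2] at hA
  exact (ENNReal.add_le_add_iff_right ENNReal.ofReal_ne_top).1 (hA.trans h1)

section

variable {G K : Type} [Group G] [Countable G] [TopologicalSpace K] [CompactSpace K]
    [MetrizableSpace K] [MeasurableSpace K] [BorelSpace K]
    [MulAction G (P × K)] [ContinuousConstSMul G (P × K)]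
    {Λ Y : Type} [Group Λ] [Countable Λ] [TopologicalSpace Y] [CompactSpace Y]
    [MetrizableSpace Y] [MeasurableSpace Y] [BorelSpace Y] [MulAction Λ Y]
    [ContinuousConstSMul Λ Y]

theorem ae_Y0 {X0 : Set (P × K)} {B : Set P} {Θ : P × K → Y} {Ξ : Y → P × K} {Y0 : Set Y}
    (hR : IsReal Λ Y G X0 B Θ Ξ Y0) {q : P × K → Bool} {Q : Fin 4 → G}
    {l : Fin 4 → ℕ} {l' : ℕ} {d : P} {ζ : Measure ((P × K) × (G → Y))}
    (hζ : LimW Λ q Q l l' d ζ) : ζ {ω | ω.2 1 ∉ Y0} = 0 := by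
  have := hζ.prob
  have hm : Measurable fun ω : (P × K) × (G → Y) => ω.2 1 :=
    (measurable_pi_apply 1).comp measurable_snd
  have h1 := hR.full (Measure.map (fun ω : (P × K) × (G → Y) => ω.2 1) ζ)
    (Measure.isProbabilityMeasure_map hm.aemeasurable) (fun w => by
      rw [Measure.map_map ?_ hm]
      · exact hζ.marg w
      · exact (continuous_const_smul w).measurable)
  rwa [Measure.map_apply hm hR.mY0.compl] at h1

end

theorem holds (hA : S_approx) (hT : S_trm) : S_tr1c := by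
  intro G K _ _ _ _ _ _ _ _ _ lam q c Q X0 hS Λ Y _ _ _ _ _ _ _ _ _ B Θ Ξ Y0 hR hB l l' d ζ hζ
  have := hζ.prob
  have : SecondCountableTopology K := sc_of_compact K
  have : SecondCountableTopology Y := sc_of_compact Y
  have htr : Measurable (tr (G := G) Ξ) := hT G K Y Ξ hR.mΞ
  have hm1 : Measurable fun ω : (P × K) × (G → Y) => ω.2 1 :=
    (measurable_pi_apply 1).comp measurable_snd
  have hmX : Measurable fun ω : (P × K) × (G → Y) => Ξ (ω.2 1) := hR.mΞ.comp hm1
  set ρ : Measure (P × K) := Measure.map (fun ω : (P × K) × (G → Y) => Ξ (ω.2 1)) ζ with hρ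
  have hρp : IsProbabilityMeasure ρ := Measure.isProbabilityMeasure_map hmX.aemeasurable
  have hY0 := ae_Y0 hR hζ
  have bad : ∀ (k : ℕ) (F : P × K → ℕ),
      ρ {x | 1 / 4 < |dn (P × K) k x - F x|} ≤ ENNReal.ofReal (1 / 10 ^ 8) →
      ζ ({ω | ω.2 1 ∉ Y0} ∪ {ω | 1 / 4 < |dn (P × K) k (Ξ (ω.2 1)) - F (Ξ (ω.2 1))|}) ≤
        ENNReal.ofReal (1 / 10 ^ 8) := by
    intro k F h
    refine (measure_union_le _ _).trans ?_
    rw [hY0, zero_add]
    refine le_trans ?_ h
    exact Measure.le_map_apply hmX.aemeasurable _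
  have gen : ∀ i, ∃ k : ℕ, ENNReal.ofReal (1 - 2 / 10 ^ 8) ≤
      (Measure.map (tr (G := G) Ξ) ζ) (FX k (Q i)) := by
    intro i
    classical
    let m : P × K → ℕ := fun x => ⌊dn Y (l i) (Θ x) + 1 / 2⌋₊
    have hm : Measurable m :=
      Nat.measurable_floor.comp (((dn Y (l i)).continuous.measurable.comp hR.mΘ).add_const _)
    let ψ : P × K → P × K := fun x => Ξ (en Λ (m x) • Θ x)
    have hψ : Measurable ψ := by
      have h1 : Measurable fun p : Y × ℕ => en Λ p.2 • p.1 :=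
        measurable_from_prod_countable_left fun n => (continuous_const_smul (en Λ n)).measurable
      exact hR.mΞ.comp (h1.comp (hR.mΘ.prodMk hm))
    have hSk : ∀ k : ℕ, MeasurableSet {x : P × K | en G k • x = ψ x} := by
      intro k
      have h1 : Measurable fun x : P × K => (en G k • x, ψ x) :=
        (continuous_const_smul (en G k)).measurable.prodMk hψ
      exact h1 (isClosed_diagonal.measurableSet)
    have hex : ∀ x : P × K, ∃ k : ℕ, en G k • x = ψ x ∨ ∀ j : ℕ, en G j • x ≠ ψ x := by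
      intro x
      by_cases h : ∃ k, en G k • x = ψ x
      · obtain ⟨k, hk⟩ := h
        exact ⟨k, Or.inl hk⟩
      · push Not at h
        exact ⟨0, Or.inr h⟩
    let F : P × K → ℕ := fun x => Nat.find (hex x)
    have hF : Measurable F := by
      refine measurable_find hex fun k => ?_
      have : {x : P × K | en G k • x = ψ x ∨ ∀ j : ℕ, en G j • x ≠ ψ x} =
          {x : P × K | en G k • x = ψ x} ∪ ⋂ j : ℕ, {x : P × K | en G j • x = ψ x}ᶜ := by
        ext x
        simp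
      rw [this]
      exact (hSk k).union (MeasurableSet.iInter fun j => (hSk j).compl)
    have hFx : ∀ x, (∃ g : G, g • x = ψ x) → en G (F x) • x = ψ x := by
      rintro x ⟨g, hg⟩
      rcases Nat.find_spec (hex x) with h | h
      · exact h
      · obtain ⟨k, hk⟩ := en_surj G g
        exact absurd (hk ▸ hg) (h k)
    obtain ⟨k, hk⟩ := hA (P × K) ρ hρp F hF (1 / 10 ^ 8) (by norm_num)
    refine ⟨k, le_trans ?_ (Measure.le_map_apply htr.aemeasurable _)⟩
    have h2 : (1 : ℝ) - 2 / 10 ^ 8 = 1 - 2 * (1 / 10 ^ 8) := by ring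
    rw [h2]
    refine cut ζ (by norm_num) (by norm_num) (hζ.gen i) (bad k F hk) ?_
    rintro ω ⟨n, hn1, hn2⟩ hω
    simp only [mem_union, mem_setOf_eq, not_or, not_not, not_lt] at hω
    obtain ⟨hω1, hω2⟩ := hω
    obtain ⟨hx0, hxB, hΘ⟩ := hR.ΞX _ hω1
    have hmn : m (Ξ (ω.2 1)) = n := by
      show ⌊dn Y (l i) (Θ (Ξ (ω.2 1))) + 1 / 2⌋₊ = n
      rw [hΘ]
      rw [abs_le] at hn1
      rw [Nat.floor_eq_iff]
      · constructor <;> linarith
      · have : (0 : ℝ) ≤ n := Nat.cast_nonneg n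
        linarith
    have hψx : ψ (Ξ (ω.2 1)) = Ξ (ω.2 (Q i)) := by
      show Ξ (en Λ (m (Ξ (ω.2 1))) • Θ (Ξ (ω.2 1))) = _
      rw [hmn, hΘ, ← hn2]
    have hQ0 : ω.2 (Q i) ∈ Y0 := by
      rw [hn2]
      exact hR.inv _ _ hω1
    obtain ⟨hx0', hxB', hΘ'⟩ := hR.ΞX _ hQ0
    have horb : ∃ g : G, g • Ξ (ω.2 1) = Ξ (ω.2 (Q i)) := by
      rw [hR.orb _ _ hx0 hxB hx0' hxB', hΘ, hΘ']
      exact ⟨en Λ n, hn2.symm⟩
    have hfin : en G (F (Ξ (ω.2 1))) • Ξ (ω.2 1) = Ξ (ω.2 (Q i)) := by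
      rw [hFx _ (by rw [hψx]; exact horb), hψx]
    refine ⟨F (Ξ (ω.2 1)), hω2, ?_⟩
    show @decide (Ξ (ω.2 (Q i)) = en G (F (Ξ (ω.2 1))) • Ξ (ω.2 1)) (Classical.propDecidable _) = true
    exact @decide_eq_true _ (Classical.propDecidable _) hfin.symm
  have dig : ∃ k' : ℕ, ENNReal.ofReal (1 - 2 / 10 ^ 8) ≤
      (Measure.map (tr (G := G) Ξ) ζ) (HX q k') := by
    classical
    let F : P × K → ℕ := fun x => if 1 / 2 < dn Y l' (Θ x) then 1 else 0
    have hF : Measurable F := by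
      refine Measurable.ite ?_ measurable_const measurable_const
      exact measurableSet_lt measurable_const ((dn Y l').continuous.measurable.comp hR.mΘ)
    obtain ⟨k, hk⟩ := hA (P × K) ρ hρp F hF (1 / 10 ^ 8) (by norm_num)
    refine ⟨k, le_trans ?_ (Measure.le_map_apply htr.aemeasurable _)⟩
    have h2 : (1 : ℝ) - 2 / 10 ^ 8 = 1 - 2 * (1 / 10 ^ 8) := by ring
    rw [h2]
    refine cut ζ (by norm_num) (by norm_num) hζ.dig (bad k F hk) ?_
    intro ω hn1 hω
    simp only [mem_union, mem_setOf_eq, not_or, not_not, not_lt] at hω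
    obtain ⟨hω1, hω2⟩ := hω
    obtain ⟨hx0, hxB, hΘ⟩ := hR.ΞX _ hω1
    show |dn (P × K) k (Ξ (ω.2 1)) - b2r (q ω.1)| ≤ 1 / 4
    have hF2 : ((F (Ξ (ω.2 1)) : ℕ) : ℝ) = b2r (q ω.1) := by
      show (((if 1 / 2 < dn Y l' (Θ (Ξ (ω.2 1))) then 1 else 0 : ℕ)) : ℝ) = _
      rw [hΘ]
      have hn1' : |dn Y l' (ω.2 1) - b2r (q ω.1)| ≤ 1 / 4 := hn1
      rw [abs_le] at hn1'
      cases hq : q ω.1
      · rw [hq] at hn1'
        simp only [b2r] at hn1' ⊢
        rw [if_neg (by simp at hn1'; linarith)]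
        simp
      · rw [hq] at hn1'
        simp only [b2r] at hn1' ⊢
        rw [if_pos (by simp at hn1'; linarith)]
        simp
    rw [← hF2]
    exact hω2
  choose k hk using gen
  obtain ⟨k', hk'⟩ := dig
  exact ⟨k, k', hk, hk'⟩

end Pool.Agent.H190.CR
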