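import Pool.Agent.H646.CR.Stm

/-!
# Project CR: upper semicontinuity of the measure of a closed set
-/

set_option autoImplicit false

namespace Pool.Agent.H803.CR.Usc

open MeasureTheory Set Topology TopologicalSpace Filter
open scoped ENNReal

theorem holds : Pool.Agent.H646.CR.S_usc := by
  intro Z _ _ _ _ _ F a hF
  rw [isClosed_iff_forall_filter]
  intro η L hL hLs hLη
  have hlim : Tendsto (fun x : ProbabilityMeasure Z => x) L (𝓝 η) := hLη
  have h1 := ProbabilityMeasure.limsup_measure_closed_le_of_tendsto hlim hF
  refine le_trans ?_ h1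
  have h2 : ∀ᶠ x : ProbabilityMeasure Z in L, a ≤ (x : Measure Z) F := le_principal_iff.1 hLs
  have h3 : L.limsup (fun _ : ProbabilityMeasure Z => a) = a := limsup_const a
  rw [← h3]
  exact limsup_le_limsup h2

end Pool.Agent.H803.CR.Usc
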