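import Pool.Agent.H646.CR.Stm

set_option autoImplicit false

namespace Pool.Agent.H321.CR_X0ab

open MeasureTheory ProbabilityTheory Set Topology TopologicalSpace Filter
open scoped ENNReal
open Pool.Agent.H646.CR

lemma continuous_chi (S : Finset (F3 ⊕ GG)) : Continuous (chi S) := by
  unfold chi
  refine continuous_finsetProd _ fun i _ => ?_
  exact (continuous_of_discreteTopology (f := fun b : ZMod 2 => (if b = 0 then (1 : ℝ) else -1))).comp
    (continuous_apply i)

lemma continuous_term (S : Finset (F3 ⊕ GG)) (g : GG) :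
    Continuous fun x : P × KK => chi S (g • x).2 :=
  (continuous_chi S).comp (continuous_snd.comp (continuous_const_smul g))

theorem holdsA : S_X0a := by
  constructor
  · have h1 : MeasurableSet {x : P × KK | ∀ g : GG, g ≠ 1 → g • x ≠ x} := by
      have : {x : P × KK | ∀ g : GG, g ≠ 1 → g • x ≠ x} =
          ⋂ g : GG, ⋂ (_ : g ≠ 1), {x : P × KK | g • x ≠ x} := by
        ext x; simp
      rw [this]
      refine MeasurableSet.iInter fun g => MeasurableSet.iInter fun _ => ?_
      exact (isClosed_eq (continuous_const_smul g) continuous_id).measurableSet.compl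
    have h2 : MeasurableSet {x : P × KK | ∀ (h : GG) (S : Finset (F3 ⊕ GG)), S.Nonempty →
        Tendsto (fun n : ℕ => (∑ j ∈ Finset.range (n ^ 2), chi S ((g0 ^ j * h) • x).2) / (n : ℝ) ^ 2)
        atTop (𝓝 0)} := by
      have : {x : P × KK | ∀ (h : GG) (S : Finset (F3 ⊕ GG)), S.Nonempty →
        Tendsto (fun n : ℕ => (∑ j ∈ Finset.range (n ^ 2), chi S ((g0 ^ j * h) • x).2) / (n : ℝ) ^ 2)
        atTop (𝓝 0)} = ⋂ h : GG, ⋂ S : Finset (F3 ⊕ GG), ⋂ (_ : S.Nonempty), {x : P × KK |
        Tendsto (fun n : ℕ => (∑ j ∈ Finset.range (n ^ 2), chi S ((g0 ^ j * h) • x).2) / (n : ℝ) ^ 2)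
        atTop (𝓝 0)} := by
        ext x; simp
      rw [this]
      refine MeasurableSet.iInter fun h => MeasurableSet.iInter fun S => MeasurableSet.iInter
        fun _ => ?_
      refine measurableSet_tendsto _ fun n => ?_
      have hc : Continuous fun x : P × KK =>
          (∑ j ∈ Finset.range (n ^ 2), chi S ((g0 ^ j * h) • x).2) / (n : ℝ) ^ 2 :=
        (continuous_finsetSum _ fun j _ => continuous_term S _).div_const _
      exact hc.measurable
    exact h1.inter h2
  · rintro g x ⟨h1, h2⟩
    refine ⟨fun h hh he => ?_, fun h S hS => ?_⟩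
    · refine h1 (g⁻¹ * h * g) ?_ ?_
      · intro h0
        apply hh
        have : h = g * (g⁻¹ * h * g) * g⁻¹ := by group
        rw [this, h0]; group
      · rw [mul_smul, mul_smul, he, ← mul_smul, inv_mul_cancel, one_smul]
    · have := h2 (h * g) S hS
      refine this.congr fun n => ?_
      congr 1
      refine Finset.sum_congr rfl fun j _ => ?_
      rw [← mul_assoc, mul_smul (g0 ^ j * h) g x]

/-- coordinate vectors -/
noncomputable def E (g : GG) : KK := fun i => @ite _ (i = Sum.inr g) (Classical.propDecidable _) 1 0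

lemma E_same (g : GG) : E g (Sum.inr g) = 1 := by
  unfold E; exact if_pos rfl

lemma E_ne {g g' : GG} (h : g' ≠ g) : E g (Sum.inr g') = 0 := by
  unfold E
  apply if_neg
  intro e
  exact h (Sum.inr.inj e)

/-- the invariant subgroup -/
def HH (h : GG) : Set KK := {k | ∀ g : GG, k (Sum.inr (g * h)) = k (Sum.inr g)}

lemma HH_closed (h : GG) : IsClosed (HH h) := by
  have : HH h = ⋂ g : GG, {k : KK | k (Sum.inr (g * h)) = k (Sum.inr g)} := by
    ext k; simp [HH]
  rw [this]
  exact isClosed_iInter fun g => isClosed_eq (continuous_apply _) (continuous_apply _)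

lemma seq_exists (h : GG) (hh : h ≠ 1) : ∃ i : ℕ → GG, Function.Injective i ∧
    ∀ m n, i n ≠ i m * h := by
  by_cases hr : h.right = 1
  · have hl : h.left ≠ 1 := fun e => hh (SemidirectProduct.ext e hr)
    refine ⟨fun n => SemidirectProduct.inr (FreeGroup.of 0 ^ n), ?_, ?_⟩
    · intro m n e
      have e1 : (FreeGroup.of (0 : Fin 3)) ^ m = FreeGroup.of 0 ^ n :=
        SemidirectProduct.inr_injective e
      let ψ : F3 →* Multiplicative ℤ := FreeGroup.lift fun _ => Multiplicative.ofAdd 1
      have e2 := congrArg ψ e1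
      rw [map_pow, map_pow, FreeGroup.lift_apply_of] at e2
      have e3 := congrArg Multiplicative.toAdd e2
      simpa using e3
    · intro m n e
      have e1 := congrArg SemidirectProduct.left e
      rw [SemidirectProduct.mul_left, SemidirectProduct.left_inr, SemidirectProduct.left_inr,
        one_mul, SemidirectProduct.right_inr] at e1
      apply hl
      have e2 := e1.symm
      have := (phi (FreeGroup.of 0 ^ m)).injective (e2.trans (map_one _).symm)
      exact this
  · refine ⟨fun n => cc n, ?_, ?_⟩
    · intro m n e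
      have e1 : (Multiplicative.ofAdd (Finsupp.single m (1 : ZMod 2)) : Multiplicative A) =
        Multiplicative.ofAdd (Finsupp.single n 1) := SemidirectProduct.inl_injective e
      have e2 : (Finsupp.single m (1 : ZMod 2)) = Finsupp.single n 1 :=
        Multiplicative.ofAdd.injective e1
      exact (Finsupp.single_left_inj (one_ne_zero)).1 e2
    · intro m n e
      have e1 := congrArg SemidirectProduct.right e
      rw [SemidirectProduct.mul_right] at e1
      unfold cc at e1
      rw [SemidirectProduct.right_inl, SemidirectProduct.right_inl, one_mul] at e1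
      exact hr e1.symm

lemma lamK_univ : lamK univ = 1 := by
  unfold lamK
  have := Measure.addHaarMeasure_self (K₀ := (⊤ : PositiveCompacts KK))
  simpa using this

lemma HH_null (h : GG) (hh : h ≠ 1) : lamK (HH h) = 0 := by
  obtain ⟨i, hi, hi2⟩ := seq_exists h hh
  set A : ℕ → Set KK := fun n => (fun k => E (i n) + k) ⁻¹' (HH h) with hA
  have hm : ∀ n, lamK (A n) = lamK (HH h) := by
    intro n
    haveI : (lamK).IsAddLeftInvariant := by unfold lamK; infer_instance
    exact measure_preimage_add lamK (E (i n)) (HH h)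
  have hmeas : ∀ n, MeasurableSet (A n) := by
    intro n
    have hc : Continuous fun k : KK => E (i n) + k := by fun_prop
    exact ((HH_closed h).preimage hc).measurableSet
  have hdis : Pairwise (Function.onFun Disjoint A) := by
    intro m n hmn
    rw [Function.onFun, Set.disjoint_left]
    intro k hk1 hk2
    have e1 : E (i m) (Sum.inr (i m * h)) + k (Sum.inr (i m * h)) =
      E (i m) (Sum.inr (i m)) + k (Sum.inr (i m)) := hk1 (i m)
    have e2 : E (i n) (Sum.inr (i m * h)) + k (Sum.inr (i m * h)) =
      E (i n) (Sum.inr (i m)) + k (Sum.inr (i m)) := hk2 (i m)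
    rw [E_same, E_ne (hi2 m m).symm, zero_add] at e1
    rw [E_ne (hi2 m n).symm, E_ne (fun e => hmn (hi e)), zero_add, zero_add] at e2
    rw [e2] at e1
    have e3 : (1 : ZMod 2) = 0 := by
      have := e1.symm
      simpa using this
    exact one_ne_zero e3
  have hsum : ∑' n, lamK (A n) ≤ 1 := by
    rw [← measure_iUnion hdis hmeas, ← lamK_univ]
    exact measure_mono (subset_univ _)
  by_contra hne
  simp only [hm] at hsum
  rw [ENNReal.tsum_const_eq_top_of_ne_zero hne] at hsum
  simp at hsum

theorem holdsB : S_X0b := by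
  intro h s hh
  refine measure_mono_null ?_ (HH_null h hh)
  intro k hk g
  have h1 : (h • ((s, k) : P × KK)).2 (Sum.inr g) = k (Sum.inr g) := by
    have h0 : h • ((s, k) : P × KK) = (s, k) := hk
    rw [h0]
  rw [smul_inr] at h1
  exact h1

theorem holds : S_X0a ∧ S_X0b := ⟨holdsA, holdsB⟩

end Pool.Agent.H321.CR_X0ab
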