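import Pool.Agent.H646.CR.Stm

set_option autoImplicit false

/-!
# Almost every point of each fibre is generic
-/

namespace Pool.Agent.H307.CRX0c

open MeasureTheory ProbabilityTheory Set Topology TopologicalSpace Filter
open scoped ENNReal
open Pool.Agent.H646.CR

/-- The sign of an element of `ZMod 2`. -/
noncomputable def sg (z : ZMod 2) : ℝ := if z = 0 then 1 else -1

theorem sg_add (a b : ZMod 2) : sg (a + b) = sg a * sg b := by
  have h1 : (1 : ZMod 2) + 1 = 0 := by decide
  have h2 : (1 : ZMod 2) ≠ 0 := by decide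
  have hx : ∀ x : ZMod 2, x = 0 ∨ x = 1 := by decide
  unfold sg
  rcases hx a with rfl | rfl <;> rcases hx b with rfl | rfl <;> simp [h1]

theorem sg_mul_self (a : ZMod 2) : sg a * sg a = 1 := by
  unfold sg
  split_ifs <;> norm_num

theorem chi_eq (S : Finset (F3 ⊕ GG)) (k : KK) : chi S k = ∏ i ∈ S, sg (k i) := rfl

theorem chi_mul_self (S : Finset (F3 ⊕ GG)) (k : KK) : chi S k * chi S k = 1 := by
  rw [chi_eq, ← Finset.prod_mul_distrib]
  exact Finset.prod_eq_one fun i _ => sg_mul_self _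

open Classical in
/-- The symmetric difference. -/
noncomputable def sd (S S' : Finset (F3 ⊕ GG)) : Finset (F3 ⊕ GG) := (S \ S') ∪ (S' \ S)

theorem sd_nonempty {S S' : Finset (F3 ⊕ GG)} (h : S ≠ S') : (sd S S').Nonempty := by
  classical
  by_contra h2
  rw [Finset.not_nonempty_iff_eq_empty] at h2
  apply h
  ext i
  have h3 : i ∉ sd S S' := by rw [h2]; simp
  unfold sd at h3
  rw [Finset.mem_union, Finset.mem_sdiff, Finset.mem_sdiff] at h3
  tauto

theorem chi_mul (S S' : Finset (F3 ⊕ GG)) (k : KK) : chi S k * chi S' k = chi (sd S S') k := by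
  classical
  have h1 := Finset.prod_inter_mul_prod_sdiff S S' (fun i => sg (k i))
  have h2 := Finset.prod_inter_mul_prod_sdiff S' S (fun i => sg (k i))
  have hd : Disjoint (S \ S') (S' \ S) := by
    rw [Finset.disjoint_left]
    intro i hi hi'
    rw [Finset.mem_sdiff] at hi hi'
    exact hi.2 hi'.1
  have h3 : chi (sd S S') k = (∏ i ∈ S \ S', sg (k i)) * ∏ i ∈ S' \ S, sg (k i) := by
    rw [chi_eq, ← Finset.prod_union hd]
    refine Finset.prod_congr ?_ fun _ _ => rfl
    ext i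
    unfold sd
    simp only [Finset.mem_union, Finset.mem_sdiff]
  have h4 := chi_mul_self (S ∩ S') k
  rw [chi_eq] at h4
  rw [h3, chi_eq, chi_eq, ← h1, ← h2, Finset.inter_comm S' S]
  calc (∏ x ∈ S ∩ S', sg (k x)) * (∏ x ∈ S \ S', sg (k x)) *
        ((∏ x ∈ S ∩ S', sg (k x)) * ∏ x ∈ S' \ S, sg (k x))
      = ((∏ x ∈ S ∩ S', sg (k x)) * ∏ x ∈ S ∩ S', sg (k x)) *
        ((∏ x ∈ S \ S', sg (k x)) * ∏ x ∈ S' \ S, sg (k x)) := by ring
    _ = _ := by rw [h4, one_mul]

theorem abs_chi (S : Finset (F3 ⊕ GG)) (k : KK) : |chi S k| = 1 := by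
  have h := chi_mul_self S k
  rw [← abs_mul_abs_self] at h
  have h0 := abs_nonneg (chi S k)
  nlinarith

theorem measurable_chi (S : Finset (F3 ⊕ GG)) : Measurable (chi S) := by
  have : chi S = fun k => ∏ i ∈ S, sg (k i) := rfl
  rw [this]
  refine Finset.measurable_prod _ fun i _ => ?_
  exact (measurable_of_countable sg).comp (measurable_pi_apply i)

/-- Right multiplication of the indices. -/
noncomputable def sh (g : GG) : F3 ⊕ GG → F3 ⊕ GG := Sum.map (· * g.right) (· * g)

theorem sh_inj (g : GG) : Function.Injective (sh g) :=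
  Sum.map_injective.2 ⟨mul_left_injective _, mul_left_injective _⟩

/-- The sign contribution. -/
noncomputable def ep (s : P) (g : GG) : F3 ⊕ GG → ℝ
  | Sum.inl f => sg (cy s g f)
  | Sum.inr _ => 1

theorem sg_smul (s : P) (g : GG) (k : KK) (i : F3 ⊕ GG) :
    sg ((g • ((s, k) : P × KK)).2 i) = ep s g i * sg (k (sh g i)) := by
  rcases i with f | g'
  · rw [smul_inl, sg_add, mul_comm]
    rfl
  · rw [smul_inr]
    show _ = 1 * _
    rw [one_mul]
    rfl

theorem ep_mul_self (s : P) (g : GG) (i : F3 ⊕ GG) : ep s g i * ep s g i = 1 := by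
  rcases i with f | g'
  · exact sg_mul_self _
  · exact one_mul 1

/-- The product of the signs. -/
noncomputable def eps (s : P) (g : GG) (S : Finset (F3 ⊕ GG)) : ℝ := ∏ i ∈ S, ep s g i

theorem eps_mul_self (s : P) (g : GG) (S : Finset (F3 ⊕ GG)) : eps s g S * eps s g S = 1 := by
  unfold eps
  rw [← Finset.prod_mul_distrib]
  exact Finset.prod_eq_one fun i _ => ep_mul_self s g i

theorem chi_smul (s : P) (g : GG) (k : KK) (S : Finset (F3 ⊕ GG)) :
    chi S (g • ((s, k) : P × KK)).2 = eps s g S * chi (S.map ⟨sh g, sh_inj g⟩) k := by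
  rw [chi_eq, chi_eq, Finset.prod_map]
  unfold eps
  rw [← Finset.prod_mul_distrib]
  exact Finset.prod_congr rfl fun i _ => sg_smul s g k i

/-- The height homomorphism. -/
noncomputable def ht3 : F3 →* Multiplicative ℤ :=
  FreeGroup.lift ![Multiplicative.ofAdd 1, 1, 1]

/-- The height of an index. -/
noncomputable def hgt : F3 ⊕ GG → ℤ
  | Sum.inl f => Multiplicative.toAdd (ht3 f)
  | Sum.inr g => Multiplicative.toAdd (ht3 g.right)

theorem hgt_sh (g : GG) (i : F3 ⊕ GG) :
    hgt (sh g i) = hgt i + Multiplicative.toAdd (ht3 g.right) := by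
  rcases i with f | g'
  · show Multiplicative.toAdd (ht3 (f * g.right)) = _
    rw [map_mul, toAdd_mul]
    rfl
  · show Multiplicative.toAdd (ht3 (g' * g).right) = _
    rw [SemidirectProduct.mul_right, map_mul, toAdd_mul]
    rfl

theorem right_pow_mul (h : GG) (j : ℕ) : (g0 ^ j * h).right = FreeGroup.of 0 ^ j * h.right := by
  have h1 : (g0 ^ j * h).right = SemidirectProduct.rightHom (g0 ^ j * h) := rfl
  rw [h1, map_mul, map_pow]
  rfl

theorem ht_pow (h : GG) (j : ℕ) : Multiplicative.toAdd (ht3 (g0 ^ j * h).right) =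
    j + Multiplicative.toAdd (ht3 h.right) := by
  rw [right_pow_mul, map_mul, map_pow, toAdd_mul, toAdd_pow]
  have h1 : ht3 (FreeGroup.of 0) = Multiplicative.ofAdd 1 := by
    unfold ht3
    rw [FreeGroup.lift_apply_of]
    rfl
  rw [h1, toAdd_ofAdd]
  simp

/-- The shifted index set. -/
noncomputable def Sj (h : GG) (S : Finset (F3 ⊕ GG)) (j : ℕ) : Finset (F3 ⊕ GG) :=
  S.map ⟨sh (g0 ^ j * h), sh_inj _⟩

theorem sum_hgt (h : GG) (S : Finset (F3 ⊕ GG)) (j : ℕ) :
    ∑ i ∈ Sj h S j, hgt i = (∑ i ∈ S, hgt i) +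
      S.card * (j + Multiplicative.toAdd (ht3 h.right)) := by
  unfold Sj
  rw [Finset.sum_map]
  have h1 : ∀ i ∈ S, hgt ((⟨sh (g0 ^ j * h), sh_inj _⟩ : F3 ⊕ GG ↪ F3 ⊕ GG) i) =
      hgt i + (j + Multiplicative.toAdd (ht3 h.right)) := by
    intro i _
    show hgt (sh (g0 ^ j * h) i) = _
    rw [hgt_sh, ht_pow]
  rw [Finset.sum_congr rfl h1, Finset.sum_add_distrib, Finset.sum_const, nsmul_eq_mul]

theorem Sj_inj (h : GG) {S : Finset (F3 ⊕ GG)} (hS : S.Nonempty) {j j' : ℕ} (hj : j ≠ j') :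
    Sj h S j ≠ Sj h S j' := by
  intro he
  have h1 := sum_hgt h S j
  have h2 := sum_hgt h S j'
  rw [he, h2] at h1
  have h3 : (S.card : ℤ) ≠ 0 := by exact_mod_cast hS.card_pos.ne'
  have h4 : (S.card : ℤ) * ((j : ℤ) - j') = 0 := by linarith
  rcases mul_eq_zero.1 h4 with h5 | h5
  · exact h3 h5
  · apply hj
    have : (j : ℤ) = j' := by linarith
    exact_mod_cast this

/-- The functions which are averaged. -/
noncomputable def ff (s : P) (h : GG) (S : Finset (F3 ⊕ GG)) (j : ℕ) (k : KK) : ℝ :=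
  chi S ((g0 ^ j * h) • ((s, k) : P × KK)).2

theorem ff_eq (s : P) (h : GG) (S : Finset (F3 ⊕ GG)) (j : ℕ) (k : KK) :
    ff s h S j k = eps s (g0 ^ j * h) S * chi (Sj h S j) k := chi_smul s _ k S

theorem measurable_ff (s : P) (h : GG) (S : Finset (F3 ⊕ GG)) (j : ℕ) :
    Measurable (ff s h S j) := by
  have : ff s h S j = fun k => eps s (g0 ^ j * h) S * chi (Sj h S j) k :=
    funext fun k => ff_eq s h S j k
  rw [this]
  exact (measurable_chi _).const_mul _

theorem abs_ff (s : P) (h : GG) (S : Finset (F3 ⊕ GG)) (j : ℕ) (k : KK) :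
    |ff s h S j k| = 1 := abs_chi _ _

theorem ff_mul_self (s : P) (h : GG) (S : Finset (F3 ⊕ GG)) (j : ℕ) (k : KK) :
    ff s h S j k * ff s h S j k = 1 := chi_mul_self _ _

open Classical in
theorem orth (H : S_haar) (s : P) (h : GG) {S : Finset (F3 ⊕ GG)} (hS : S.Nonempty) (j j' : ℕ) :
    ∫ k, ff s h S j k * ff s h S j' k ∂lamK = if j = j' then 1 else 0 := by
  have := H.1
  by_cases hj : j = j'
  · subst hj
    rw [if_pos rfl]
    simp only [ff_mul_self]
    simp
  · rw [if_neg hj]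
    have h1 : ∀ k, ff s h S j k * ff s h S j' k =
        (eps s (g0 ^ j * h) S * eps s (g0 ^ j' * h) S) * chi (sd (Sj h S j) (Sj h S j')) k := by
      intro k
      rw [ff_eq, ff_eq, ← chi_mul]
      ring
    simp only [h1]
    rw [integral_const_mul, H.2.2.1 _ (sd_nonempty (Sj_inj h hS hj)), mul_zero]

theorem integrable_ff_mul (H : S_haar) (s : P) (h : GG) (S : Finset (F3 ⊕ GG)) (j j' : ℕ) :
    Integrable (fun k => ff s h S j k * ff s h S j' k) lamK := by
  have := H.1
  refine Integrable.of_bound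
    ((measurable_ff s h S j).mul (measurable_ff s h S j')).aestronglyMeasurable 1 ?_
  refine Filter.Eventually.of_forall fun k => ?_
  rw [Real.norm_eq_abs, abs_mul, abs_ff, abs_ff, one_mul]

theorem integral_sq (H : S_haar) (s : P) (h : GG) {S : Finset (F3 ⊕ GG)} (hS : S.Nonempty)
    (N : ℕ) : ∫ k, (∑ j ∈ Finset.range N, ff s h S j k) ^ 2 ∂lamK = N := by
  classical
  have h1 : ∀ k, (∑ j ∈ Finset.range N, ff s h S j k) ^ 2 =
      ∑ j ∈ Finset.range N, ∑ j' ∈ Finset.range N, ff s h S j k * ff s h S j' k := by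
    intro k
    rw [sq, Finset.sum_mul_sum]
  simp only [h1]
  rw [integral_finsetSum _ fun j _ => integrable_finsetSum _ fun j' _ =>
    integrable_ff_mul H s h S j j']
  have h2 : ∀ j ∈ Finset.range N,
      ∫ k, ∑ j' ∈ Finset.range N, ff s h S j k * ff s h S j' k ∂lamK = 1 := by
    intro j hj
    rw [integral_finsetSum _ fun j' _ => integrable_ff_mul H s h S j j']
    simp only [orth H s h hS]
    rw [Finset.sum_ite_eq, if_pos hj]
  rw [Finset.sum_congr rfl h2]
  simp

/-- The averages. -/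
noncomputable def MM (s : P) (h : GG) (S : Finset (F3 ⊕ GG)) (n : ℕ) (k : KK) : ℝ :=
  (∑ j ∈ Finset.range (n ^ 2), ff s h S j k) / (n : ℝ) ^ 2

theorem measurable_MM (s : P) (h : GG) (S : Finset (F3 ⊕ GG)) (n : ℕ) :
    Measurable (MM s h S n) := by
  unfold MM
  exact (Finset.measurable_sum _ fun j _ => measurable_ff s h S j).div_const _

theorem abs_MM_le (s : P) (h : GG) (S : Finset (F3 ⊕ GG)) (n : ℕ) (k : KK) :
    |MM s h S n k| ≤ 1 := by
  unfold MM
  rcases Nat.eq_zero_or_pos n with rfl | hn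
  · simp
  · have hn' : (0 : ℝ) < (n : ℝ) ^ 2 := by positivity
    rw [abs_div, abs_of_pos hn', div_le_one hn']
    calc |∑ j ∈ Finset.range (n ^ 2), ff s h S j k|
        ≤ ∑ j ∈ Finset.range (n ^ 2), |ff s h S j k| := Finset.abs_sum_le_sum_abs _ _
      _ = (n : ℝ) ^ 2 := by simp [abs_ff]

theorem integral_MM_sq (H : S_haar) (s : P) (h : GG) {S : Finset (F3 ⊕ GG)} (hS : S.Nonempty)
    (n : ℕ) : ∫ k, MM s h S n k ^ 2 ∂lamK = 1 / (n : ℝ) ^ 2 := by
  unfold MM
  simp only [div_pow]
  rw [integral_div, integral_sq H s h hS]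
  rcases Nat.eq_zero_or_pos n with rfl | hn
  · simp
  · have hn' : (0 : ℝ) < (n : ℝ) := by positivity
    push_cast
    field_simp

theorem holds (H : S_haar) : S_X0c := by
  intro s h S hS
  have := H.1
  have h1 : ∀ n, ∫⁻ k, ENNReal.ofReal (MM s h S n k ^ 2) ∂lamK =
      ENNReal.ofReal (1 / (n : ℝ) ^ 2) := by
    intro n
    rw [← integral_MM_sq H s h hS n, ofReal_integral_eq_lintegral_ofReal]
    · refine Integrable.of_bound ((measurable_MM s h S n).pow_const 2).aestronglyMeasurable 1 ?_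
      refine Filter.Eventually.of_forall fun k => ?_
      rw [Real.norm_eq_abs, abs_pow]
      exact pow_le_one₀ (abs_nonneg _) (abs_MM_le s h S n k)
    · exact Filter.Eventually.of_forall fun k => sq_nonneg _
  have h2 : ∫⁻ k, ∑' n, ENNReal.ofReal (MM s h S n k ^ 2) ∂lamK ≠ ⊤ := by
    rw [lintegral_tsum fun n => ((measurable_MM s h S n).pow_const 2).ennreal_ofReal.aemeasurable]
    simp only [h1]
    have h3 : Summable fun n : ℕ => 1 / (n : ℝ) ^ 2 :=
      Real.summable_one_div_nat_pow.2 (by norm_num)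
    exact h3.tsum_ofReal_ne_top
  have h3 : ∀ᵐ k ∂lamK, ∑' n, ENNReal.ofReal (MM s h S n k ^ 2) < ⊤ := by
    refine ae_lt_top ?_ h2
    exact Measurable.tsum fun n => ((measurable_MM s h S n).pow_const 2).ennreal_ofReal
  filter_upwards [h3] with k hk
  have h4 := ENNReal.tendsto_atTop_zero_of_tsum_ne_top hk.ne
  have h5 : Tendsto (fun n => MM s h S n k ^ 2) atTop (𝓝 0) := by
    have h6 := (ENNReal.tendsto_toReal (ENNReal.zero_ne_top)).comp h4
    simp only [ENNReal.toReal_zero] at h6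
    refine h6.congr fun n => ?_
    simp only [Function.comp]
    rw [ENNReal.toReal_ofReal (sq_nonneg _)]
  have h7 : Tendsto (fun n => MM s h S n k) atTop (𝓝 0) := by
    have h8 := h5.sqrt
    rw [Real.sqrt_zero] at h8
    rw [tendsto_zero_iff_abs_tendsto_zero]
    refine h8.congr fun n => ?_
    rw [Real.sqrt_sq_eq_abs]
    rfl
  exact h7

end Pool.Agent.H307.CRX0c
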