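import Pool.Agent.H646.CR.Stm

/-! CR/S_X0d: unique ergodicity over the parameter space (helper215) -/

set_option autoImplicit false

namespace Pool.Agent.H215.CRX0d

open MeasureTheory ProbabilityTheory Set Topology TopologicalSpace Filter
open scoped ENNReal
open Pool.Agent.H646.CR

theorem meas_chi (S : Finset (F3 ⊕ GG)) : Measurable (chi S) := by
  unfold chi
  refine Finset.measurable_fun_prod S fun i _ => ?_
  refine Measurable.ite ?_ measurable_const measurable_const
  exact (measurable_pi_apply i) (measurableSet_singleton 0)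

theorem abs_chi (S : Finset (F3 ⊕ GG)) (k : KK) : |chi S k| ≤ 1 := by
  unfold chi
  rw [Finset.abs_prod]
  refine Finset.prod_le_one (fun i _ => abs_nonneg _) fun i _ => ?_
  split_ifs <;> simp

theorem chi_empty (k : KK) : chi ∅ k = 1 := by
  unfold chi
  simp

/-- the function to integrate -/
noncomputable def F (s : Set P) (S : Finset (F3 ⊕ GG)) (x : P × KK) : ℝ :=
  (Prod.fst ⁻¹' s : Set (P × KK)).indicator (fun x => chi S x.2) x

theorem meas_F {s : Set P} (hs : MeasurableSet s) (S : Finset (F3 ⊕ GG)) : Measurable (F s S) :=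
  ((meas_chi S).comp measurable_snd).indicator (measurable_fst hs)

theorem abs_F (s : Set P) (S : Finset (F3 ⊕ GG)) (x : P × KK) : |F s S x| ≤ 1 := by
  unfold F
  by_cases h : x ∈ (Prod.fst ⁻¹' s : Set (P × KK))
  · rw [indicator_of_mem h]
    exact abs_chi S x.2
  · rw [indicator_of_notMem h]
    simp

theorem meas_smul (g : GG) : Measurable fun x : P × KK => g • x :=
  (continuous_const_smul g).measurable

theorem F_smul (s : Set P) (S : Finset (F3 ⊕ GG)) (g : GG) (x : P × KK) :
    F s S (g • x) = (Prod.fst ⁻¹' s : Set (P × KK)).indicator (fun x => chi S (g • x).2) x := by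
  unfold F
  have h1 : (g • x).1 = x.1 := rfl
  by_cases h : x.1 ∈ s
  · rw [indicator_of_mem (show g • x ∈ (Prod.fst ⁻¹' s : Set (P × KK)) by
      rw [mem_preimage, h1]; exact h), indicator_of_mem (show x ∈ (Prod.fst ⁻¹' s : Set (P × KK)) from h)]
  · rw [indicator_of_notMem (show g • x ∉ (Prod.fst ⁻¹' s : Set (P × KK)) by
      rw [mem_preimage, h1]; exact h),
      indicator_of_notMem (show x ∉ (Prod.fst ⁻¹' s : Set (P × KK)) from h)]

theorem int_F (ρ : Measure (P × KK)) [IsProbabilityMeasure ρ]
    (hinv : ∀ g : GG, Measure.map (fun x => g • x) ρ = ρ) (h0 : ρ XX0ᶜ = 0)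
    {s : Set P} (hs : MeasurableSet s) {S : Finset (F3 ⊕ GG)} (hS : S.Nonempty) :
    ∫ x, F s S x ∂ρ = 0 := by
  have h1 : ∀ g : GG, ∫ x, F s S (g • x) ∂ρ = ∫ x, F s S x ∂ρ := by
    intro g
    have := integral_map (μ := ρ) (φ := fun x => g • x) (f := F s S) (meas_smul g).aemeasurable
      (meas_F hs S).aestronglyMeasurable
    rw [hinv g] at this
    exact this.symm
  have hint : ∀ g : GG, Integrable (fun x => F s S (g • x)) ρ := by
    intro g
    refine Integrable.of_bound ((meas_F hs S).comp (meas_smul g)).aestronglyMeasurable 1 ?_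
    filter_upwards with x
    rw [Real.norm_eq_abs]
    exact abs_F s S _
  set M : ℕ → P × KK → ℝ := fun n x =>
    (∑ j ∈ Finset.range (n ^ 2), F s S (g0 ^ j • x)) / (n : ℝ) ^ 2 with hM
  have h2 : ∀ n : ℕ, 1 ≤ n → ∫ x, M n x ∂ρ = ∫ x, F s S x ∂ρ := by
    intro n hn
    rw [hM]
    simp only
    rw [integral_div, integral_finsetSum _ fun j _ => hint (g0 ^ j)]
    rw [Finset.sum_congr rfl fun j _ => h1 (g0 ^ j), Finset.sum_const, Finset.card_range,
      nsmul_eq_mul]
    have : (0 : ℝ) < (n : ℝ) ^ 2 := by
      have : (0 : ℝ) < n := by exact_mod_cast hn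
      positivity
    push_cast
    field_simp
  have h3 : Tendsto (fun n => ∫ x, M n x ∂ρ) atTop (𝓝 (∫ x, (0 : ℝ) ∂ρ)) := by
    refine tendsto_integral_of_dominated_convergence (fun _ => (1 : ℝ)) ?_ (integrable_const 1) ?_ ?_
    · intro n
      refine Measurable.aestronglyMeasurable ?_
      refine Measurable.div_const ?_ _
      exact Finset.measurable_fun_sum _ fun j _ => (meas_F hs S).comp (meas_smul _)
    · intro n
      filter_upwards with x
      rw [hM, Real.norm_eq_abs]
      simp only
      rw [abs_div, abs_of_nonneg (by positivity : (0 : ℝ) ≤ (n : ℝ) ^ 2)]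
      refine div_le_one_of_le₀ ?_ (by positivity)
      refine (Finset.abs_sum_le_sum_abs _ _).trans ?_
      refine (Finset.sum_le_sum fun j _ => abs_F s S _).trans ?_
      rw [Finset.sum_const, Finset.card_range, nsmul_eq_mul, mul_one]
      push_cast
      exact le_refl _
    · have h4 : ∀ᵐ x ∂ρ, x ∈ XX0 := by
        rw [ae_iff]
        exact h0
      filter_upwards [h4] with x hx
      by_cases h : x.1 ∈ s
      · have h5 := hx.2 1 S hS
        refine h5.congr fun n => ?_
        rw [hM]
        simp only
        congr 1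
        refine Finset.sum_congr rfl fun j _ => ?_
        rw [mul_one, F_smul, indicator_of_mem (show x ∈ (Prod.fst ⁻¹' s : Set (P × KK)) from h)]
      · have : (fun n => M n x) = fun _ => 0 := by
          funext n
          rw [hM]
          simp only
          rw [Finset.sum_eq_zero, zero_div]
          intro j _
          rw [F_smul, indicator_of_notMem (show x ∉ (Prod.fst ⁻¹' s : Set (P × KK)) from h)]
        rw [this]
        exact tendsto_const_nhds
  rw [integral_zero] at h3
  have h4 : Tendsto (fun n => ∫ x, M n x ∂ρ) atTop (𝓝 (∫ x, F s S x ∂ρ)) := by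
    refine tendsto_const_nhds.congr' ?_
    filter_upwards [eventually_ge_atTop 1] with n hn
    exact (h2 n hn).symm
  exact tendsto_nhds_unique h4 h3

theorem holds (h : Pool.Agent.H646.CR.S_haar) : Pool.Agent.H646.CR.S_X0d := by
  obtain ⟨hprob, -, horth, huniq⟩ := h
  intro ρ hρ hinv h0
  have := hprob
  have := hρ
  symm
  have : IsProbabilityMeasure (Measure.map Prod.fst ρ) :=
    Measure.isProbabilityMeasure_map measurable_fst.aemeasurable
  refine Measure.prod_eq fun s t hs ht => ?_
  set B : Set (P × KK) := Prod.fst ⁻¹' s with hB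
  have hBm : MeasurableSet B := measurable_fst hs
  have key : Measure.map Prod.snd (ρ.restrict B) = (ρ B) • lamK := by
    have : IsFiniteMeasure ((ρ B) • lamK) := by
      refine ⟨?_⟩
      rw [Measure.smul_apply, smul_eq_mul]
      exact ENNReal.mul_lt_top (measure_lt_top _ _) (measure_lt_top _ _)
    refine huniq _ _ inferInstance inferInstance fun S => ?_
    rw [integral_map measurable_snd.aemeasurable (meas_chi S).aestronglyMeasurable,
      integral_smul_measure]
    rcases S.eq_empty_or_nonempty with hS | hS
    · subst hS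
      simp only [chi_empty]
      rw [integral_const, integral_const]
      simp [Measure.real]
    · rw [horth S hS, smul_zero, ← integral_indicator hBm]
      exact int_F ρ hinv h0 hs hS
  have h1 : (Measure.map Prod.snd (ρ.restrict B)) t = ρ (s ×ˢ t) := by
    rw [Measure.map_apply measurable_snd ht, Measure.restrict_apply (measurable_snd ht)]
    congr 1
    ext x
    simp only [hB, mem_inter_iff, mem_preimage, mem_prod]
    tauto
  rw [← h1, key, Measure.smul_apply, smul_eq_mul, Measure.map_apply measurable_fst hs]

end Pool.Agent.H215.CRX0d
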