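import Pool.Agent.H646.CR.Stm

set_option autoImplicit false

namespace Pool.Agent.H335.CRycl

open MeasureTheory ProbabilityTheory Set Topology TopologicalSpace Filter
open scoped ENNReal
open Pool.Agent.H646.CR

section aux

variable {G K : Type} [Group G] [Countable G] [TopologicalSpace K] [CompactSpace K]
  [MetrizableSpace K]
variable {Y : Type} [TopologicalSpace Y] [CompactSpace Y] [MetrizableSpace Y]

theorem dn_bdd (l : ℕ) : ∃ M : ℝ, ∀ y : Y, |dn Y l y| ≤ M := by
  obtain ⟨M, hM⟩ := (isCompact_range (dn Y l).continuous).isBounded.exists_norm_le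
  exact ⟨M, fun y => by simpa using hM _ (mem_range_self y)⟩

omit [Countable G] [CompactSpace K] [MetrizableSpace K] in
theorem closed_FY (Λ : Type) [Group Λ] [Countable Λ] [MulAction Λ Y] [ContinuousConstSMul Λ Y]
    (l : ℕ) (g : G) : IsClosed (FY (K := K) (Y := Y) Λ l g) := by
  obtain ⟨M, hM⟩ := dn_bdd (Y := Y) l
  obtain ⟨N, hN⟩ := exists_nat_gt (M + 1)
  have he : FY (K := K) (Y := Y) Λ l g = ⋃ m ∈ Finset.range N,
      {ω : (P × K) × (G → Y) | |dn Y l (ω.2 1) - m| ≤ 1 / 4 ∧ ω.2 g = en Λ m • ω.2 1} := by
    ext ω
    simp only [FY, mem_ofPred_eq, mem_iUnion, Finset.mem_range, exists_prop]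
    constructor
    · rintro ⟨m, h1, h2⟩
      refine ⟨m, ?_, h1, h2⟩
      have h3 := hM (ω.2 1)
      rw [abs_le] at h1 h3
      have : (m : ℝ) < N := by linarith
      exact_mod_cast this
    · rintro ⟨m, -, h1, h2⟩
      exact ⟨m, h1, h2⟩
  rw [he]
  refine isClosed_biUnion_finset fun m _ => ?_
  refine IsClosed.inter ?_ ?_
  · have h1 : Continuous fun ω : (P × K) × (G → Y) => |dn Y l (ω.2 1) - m| := by
      have := (dn Y l).continuous
      fun_prop
    exact isClosed_le h1 continuous_const
  · have h1 : Continuous fun ω : (P × K) × (G → Y) => ω.2 1 := by fun_prop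
    have h2 : Continuous fun ω : (P × K) × (G → Y) => ω.2 g := by fun_prop
    exact isClosed_eq h2 (h1.const_smul (en Λ m))

theorem cont_b2r : Continuous b2r := continuous_of_discreteTopology

omit [Countable G] [CompactSpace K] [MetrizableSpace K] in
theorem closed_HY (q : P × K → Bool) (hq : Continuous q) (l : ℕ) :
    IsClosed (HY (G := G) (Y := Y) q l) := by
  refine isClosed_le ?_ continuous_const
  have h1 := (dn Y l).continuous
  have h2 := cont_b2r
  fun_prop

end aux

theorem holds (husc : S_usc) : S_ycl := by
  intro G K _ _ _ _ _ _ _ _ _ q Q Λ Y _ _ _ _ _ _ _ _ _ hq l l'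
  let _ : MetricSpace K := metrizableSpaceMetric K
  let _ : MetricSpace Y := metrizableSpaceMetric Y
  have : SecondCountableTopology K := inferInstance
  have : SecondCountableTopology Y := inferInstance
  have : MetrizableSpace ((P × K) × (G → Y)) := inferInstance
  have : BorelSpace ((P × K) × (G → Y)) := inferInstance
  have hcl : ∀ (F : Set ((P × K) × (G → Y))) (a : ℝ≥0∞), IsClosed F →
      IsClosed {η : ProbabilityMeasure ((P × K) × (G → Y)) |
        a ≤ (η : Measure ((P × K) × (G → Y))) F} := fun F a hF => husc _ F a hF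
  have hC : IsClosed {p : P × ProbabilityMeasure ((P × K) × (G → Y)) |
      LimW Λ q Q l l' p.1 (p.2 : Measure ((P × K) × (G → Y)))} := by
    have he : {p : P × ProbabilityMeasure ((P × K) × (G → Y)) |
        LimW Λ q Q l l' p.1 (p.2 : Measure ((P × K) × (G → Y)))} =
        (⋂ h : G, {p : P × ProbabilityMeasure ((P × K) × (G → Y)) |
          Measure.map (fun ω : (P × K) × (G → Y) => (h • ω.1, fun g => ω.2 (g * h)))
            (p.2 : Measure ((P × K) × (G → Y))) = (p.2 : Measure ((P × K) × (G → Y)))}) ∩
        ((⋂ n : ℕ, ⋂ b : Bool, ({p | p.1 n ≠ b} ∪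
          {p | 1 ≤ (p.2 : Measure ((P × K) × (G → Y))) {ω | ω.1.1 n = b}})) ∩
        ((⋂ w : Λ, {p | Measure.map (fun ω : (P × K) × (G → Y) => w • ω.2 1)
            (p.2 : Measure ((P × K) × (G → Y))) = Measure.map (fun ω => ω.2 1)
              (p.2 : Measure ((P × K) × (G → Y)))}) ∩
        ((⋂ i, {p | ENNReal.ofReal (1 - 1 / 10 ^ 8) ≤
            (p.2 : Measure ((P × K) × (G → Y))) (FY Λ (l i) (Q i))}) ∩
        {p | ENNReal.ofReal (1 - 1 / 10 ^ 8) ≤
            (p.2 : Measure ((P × K) × (G → Y))) (HY q l')}))) := by
      ext ⟨d, ζ⟩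
      simp only [mem_inter_iff, mem_iInter, mem_ofPred_eq, mem_union]
      have hpar : (ζ : Measure ((P × K) × (G → Y))) {ω | ω.1.1 ≠ d} = 0 ↔
          ∀ (n : ℕ) (b : Bool), d n ≠ b ∨
            1 ≤ (ζ : Measure ((P × K) × (G → Y))) {ω | ω.1.1 n = b} := by
        have hset : {ω : (P × K) × (G → Y) | ω.1.1 ≠ d} = ⋃ n : ℕ, {ω | ω.1.1 n = d n}ᶜ := by
          ext ω
          simp only [mem_ofPred_eq, mem_iUnion, mem_compl_iff, ne_eq, funext_iff, not_forall]
        have hmeas : ∀ (n : ℕ) (b : Bool),
            MeasurableSet {ω : (P × K) × (G → Y) | ω.1.1 n = b} := by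
          intro n b
          have : Measurable fun ω : (P × K) × (G → Y) => ω.1.1 n := by fun_prop
          exact this (measurableSet_singleton b)
        have hone : ∀ (n : ℕ) (b : Bool),
            1 ≤ (ζ : Measure ((P × K) × (G → Y))) {ω | ω.1.1 n = b} ↔
              (ζ : Measure ((P × K) × (G → Y))) {ω | ω.1.1 n = b}ᶜ = 0 := by
          intro n b
          rw [prob_compl_eq_zero_iff (hmeas n b)]
          exact ⟨fun h => le_antisymm prob_le_one h, fun h => h.ge⟩
        rw [hset, measure_iUnion_null_iff]
        constructor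
        · intro h n b
          by_cases hb : d n = b
          · right
            rw [hone, ← hb]
            exact h n
          · exact Or.inl hb
        · intro h n
          rcases h n (d n) with h1 | h1
          · exact absurd rfl h1
          · exact (hone n _).1 h1
      constructor
      · intro hL
        exact ⟨hL.inv, hpar.1 hL.par, hL.marg, hL.gen, hL.dig⟩
      · rintro ⟨h1, h2, h3, h4, h5⟩
        exact ⟨inferInstance, h1, hpar.2 h2, h3, h4, h5⟩
    rw [he]
    refine IsClosed.inter ?_ (IsClosed.inter ?_ (IsClosed.inter ?_ (IsClosed.inter ?_ ?_)))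
    · refine isClosed_iInter fun h => ?_
      have hc : Continuous fun ω : (P × K) × (G → Y) =>
          (((h • ω.1, fun g => ω.2 (g * h)) : (P × K) × (G → Y))) := by
        refine Continuous.prodMk ((continuous_const_smul h).comp continuous_fst) ?_
        fun_prop
      have hcm := ProbabilityMeasure.continuous_map hc
      have hcl2 : IsClosed {p : P × ProbabilityMeasure ((P × K) × (G → Y)) |
          p.2.map hc.measurable.aemeasurable = p.2} :=
        isClosed_eq (hcm.comp continuous_snd) continuous_snd
      convert hcl2 using 1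
      ext p
      constructor
      · intro hp
        exact ProbabilityMeasure.toMeasure_injective hp
      · intro hp
        exact congrArg ProbabilityMeasure.toMeasure hp
    · refine isClosed_iInter fun n => isClosed_iInter fun b => ?_
      refine IsClosed.union ?_ ?_
      · have : IsClosed {x : Bool | x ≠ b} := isClosed_discrete _
        exact this.preimage (by fun_prop : Continuous fun
          p : P × ProbabilityMeasure ((P × K) × (G → Y)) => p.1 n)
      · refine (hcl {ω | ω.1.1 n = b} 1 ?_).preimage continuous_snd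
        exact isClosed_eq (by fun_prop) continuous_const
    · refine isClosed_iInter fun w => ?_
      have hc2 : Continuous fun ω : (P × K) × (G → Y) => ω.2 1 := by fun_prop
      have hc1 : Continuous fun ω : (P × K) × (G → Y) => w • ω.2 1 :=
        hc2.const_smul w
      have hcm1 := ProbabilityMeasure.continuous_map hc1
      have hcm2 := ProbabilityMeasure.continuous_map hc2
      have hcl2 : IsClosed {p : P × ProbabilityMeasure ((P × K) × (G → Y)) |
          p.2.map hc1.measurable.aemeasurable = p.2.map hc2.measurable.aemeasurable} :=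
        isClosed_eq (hcm1.comp continuous_snd) (hcm2.comp continuous_snd)
      convert hcl2 using 1
      ext p
      constructor
      · intro hp
        exact ProbabilityMeasure.toMeasure_injective hp
      · intro hp
        exact congrArg ProbabilityMeasure.toMeasure hp
    · refine isClosed_iInter fun i => ?_
      exact (hcl _ _ (closed_FY Λ (l i) (Q i))).preimage continuous_snd
    · exact (hcl _ _ (closed_HY q hq l')).preimage continuous_snd
  have hset : {d | ∃ ζ : Measure ((P × K) × (G → Y)), LimW Λ q Q l l' d ζ} =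
      Prod.fst '' {p : P × ProbabilityMeasure ((P × K) × (G → Y)) |
        LimW Λ q Q l l' p.1 (p.2 : Measure ((P × K) × (G → Y)))} := by
    ext d
    constructor
    · rintro ⟨ζ, hζ⟩
      exact ⟨(d, ⟨ζ, hζ.prob⟩), hζ, rfl⟩
    · rintro ⟨⟨d', ζ⟩, hζ, rfl⟩
      exact ⟨ζ, hζ⟩
  rw [hset]
  exact (hC.isCompact.image continuous_fst).isClosed

end Pool.Agent.H335.CRycl
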