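import Pool.Agent.H646.CR.Asm
import Pool.Agent.H646.CR.PTopo
import Pool.Agent.H646.CR.PApprox
import Pool.Agent.H646.CR.PPw
import Pool.Agent.H646.CR.PUsc
import Pool.Agent.H646.CR.PCoup
import Pool.Agent.H646.CR.PPd
import Pool.Agent.H646.CR.PUniq
import Pool.Agent.H646.CR.PYcl
import Pool.Agent.H646.CR.PYex
import Pool.Agent.H646.CR.PTr1a
import Pool.Agent.H646.CR.PTr1b
import Pool.Agent.H646.CR.PTr1c
import Pool.Agent.H646.CR.PGns
import Pool.Agent.H646.CR.PHaar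
import Pool.Agent.H646.CR.PX0ab
import Pool.Agent.H646.CR.PX0c
import Pool.Agent.H646.CR.PX0d

set_option autoImplicit false

/-!
# The core theorem
-/

namespace Pool.Agent.H646.CR

theorem sys (hrtH : S_rtH) (hgrp : S_grp) : IsSys GG KK lamK qq cc QQ XX0 :=
  sys_of Pool.Agent.H344.CRgns.holds hrtH hgrp Pool.Agent.H233.CR.holds
    Pool.Agent.H321.CR_X0ab.holdsA Pool.Agent.H321.CR_X0ab.holdsB
    (Pool.Agent.H307.CRX0c.holds Pool.Agent.H233.CR.holds)
    (Pool.Agent.H215.CRX0d.holds Pool.Agent.H233.CR.holds)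

theorem core (hclosed : S_closed) (htr2 : S_tr2) (hS : IsSys GG KK lamK qq cc QQ XX0) : Core :=
  core_of Pool.Agent.H282.CRtopo.holds
    (Pool.Agent.H353.CRuniq.holds H597.CR.holds Pool.Agent.H740.CRPD.holds) hclosed
    (Pool.Agent.H335.CRycl.holds Pool.Agent.H803.CR.Usc.holds)
    (Pool.Agent.H894.CR.Yex.holds Pool.Agent.H263.CRApprox.holds Pool.Agent.H71.CRpw.holds)
    Pool.Agent.H284.CRtr.holds_trm Pool.Agent.H284.CRtr.holds
    (Pool.Agent.H870.CR.Tr1b.holds Pool.Agent.H71.CRpw.holds)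
    (Pool.Agent.H190.CR.holds Pool.Agent.H263.CRApprox.holds Pool.Agent.H284.CRtr.holds_trm)
    htr2 hS

end Pool.Agent.H646.CR
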