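import Pool.Agent.H646.CR.Stm2

/-! # Project CR of helper646, piece `S_fin1`: from the core theorem to the frozen statement -/

set_option autoImplicit false

namespace Pool.Agent.H675.CRfin1

open MeasureTheory ProbabilityTheory Set Topology TopologicalSpace Filter
open scoped ENNReal
open Pool.Agent.H646.CR

section sys

variable {q : P × KK → Bool} {c : ℕ → GG} {Q : Fin 4 → GG} {X0 : Set (P × KK)} {lam : Measure KK}

theorem meas_smul (g : GG) : Measurable (fun x : P × KK => g • x) :=
  (continuous_const_smul g).measurable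

theorem mu_map (lam : Measure KK) [IsProbabilityMeasure lam] (s : P) :
    mu lam s = Measure.map (Prod.mk s) lam := by
  unfold mu
  rw [Measure.dirac_prod]

theorem mu_prob (lam : Measure KK) [IsProbabilityMeasure lam] (s : P) :
    IsProbabilityMeasure (mu lam s) := by
  unfold mu
  infer_instance

theorem mu_inv (hS : IsSys GG KK lam q c Q X0) (s : P) (g : GG) :
    Measure.map (fun x => g • x) (mu lam s) = mu lam s := by
  have := hS.prob
  have hms : Measurable (Prod.mk s : KK → P × KK) := measurable_prodMk_left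
  rw [mu_map, Measure.map_map (meas_smul g) hms]
  have h2 : Measurable (fun k : KK => (g • ((s, k) : P × KK)).2) :=
    measurable_snd.comp ((meas_smul g).comp hms)
  have e : ((fun x : P × KK => g • x) ∘ Prod.mk s) =
      Prod.mk s ∘ (fun k : KK => (g • ((s, k) : P × KK)).2) := by
    funext k
    refine Prod.ext ?_ rfl
    exact hS.fst_smul g (s, k)
  rw [e, ← Measure.map_map hms h2, hS.pres g s]

theorem mu_X0 (hS : IsSys GG KK lam q c Q X0) (s : P) : mu lam s X0ᶜ = 0 := by
  have := hS.prob
  have hms : Measurable (Prod.mk s : KK → P × KK) := measurable_prodMk_left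
  rw [mu_map, Measure.map_apply hms hS.X0_meas.compl]
  exact hS.X0_full s

theorem mu_fst (lam : Measure KK) [IsProbabilityMeasure lam] (s : P) :
    ∀ᵐ x ∂(mu lam s), x.1 = s := by
  have hms : Measurable (Prod.mk s : KK → P × KK) := measurable_prodMk_left
  have hm : MeasurableSet {x : P × KK | x.1 = s} := measurable_fst (measurableSet_singleton s)
  rw [mu_map, ae_map_iff hms.aemeasurable hm]
  exact Eventually.of_forall fun k => rfl

theorem mu_smul_singleton (hS : IsSys GG KK lam q c Q X0) (s : P) (g : GG) (x : P × KK) :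
    mu lam s {g • x} = mu lam s {x} := by
  have h1 := congrArg (fun m : Measure (P × KK) => m {g • x}) (mu_inv hS s g)
  rw [Measure.map_apply (meas_smul g) (measurableSet_singleton _)] at h1
  rw [← h1]
  congr 1
  ext y
  simp

theorem smul_inj (hS : IsSys GG KK lam q c Q X0) (x : P × KK) (hx : x ∈ X0) :
    Function.Injective (fun g : GG => g • x) := by
  intro g h e
  simp only at e
  have h1 : (h⁻¹ * g) • x = x := by
    rw [mul_smul, e, inv_smul_smul]
  have h2 := hS.X0_free _ x hx h1
  rwa [inv_mul_eq_one, eq_comm] at h2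

theorem mu_atom (hS : IsSys GG KK lam q c Q X0) (s : P) (x : P × KK) (hx : x ∈ X0) :
    mu lam s {x} = 0 := by
  have := hS.prob
  have := hS.inf
  have := mu_prob lam s
  by_contra hne
  have hinj := smul_inj hS x hx
  have h1 : ∑' g : GG, mu lam s {g • x} = mu lam s (⋃ g : GG, {g • x}) := by
    rw [measure_iUnion]
    · intro g h hgh
      rw [Function.onFun, disjoint_singleton]
      exact fun e => hgh (hinj e)
    · intro g
      exact measurableSet_singleton _
  simp_rw [mu_smul_singleton hS s _ x] at h1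
  rw [ENNReal.tsum_const_eq_top_of_ne_zero hne] at h1
  exact measure_ne_top _ _ h1.symm

theorem mu_countable (hS : IsSys GG KK lam q c Q X0) (s : P) (C : Set (P × KK)) (hC : C.Countable)
    (hCX : C ⊆ X0) : mu lam s C = 0 := by
  have h1 : C = ⋃ x ∈ C, {x} := by simp
  rw [h1, measure_biUnion_null_iff hC]
  intro x hx
  exact mu_atom hS s x (hCX hx)

/-- Invariant sets have measure zero or one. -/
theorem zero_one (hS : IsSys GG KK lam q c Q X0) (s : P) (A : Set (P × KK)) (hA : MeasurableSet A)
    (hinv : ∀ (g : GG) (x : P × KK), x ∈ A → g • x ∈ A) :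
    mu lam s A = 0 ∨ mu lam s Aᶜ = 0 := by
  have := hS.prob
  have := mu_prob lam s
  by_cases h0 : mu lam s A = 0
  · exact Or.inl h0
  right
  set m := mu lam s with hm
  have hcp : IsProbabilityMeasure ((m A)⁻¹ • m.restrict A) := by
    constructor
    rw [Measure.smul_apply, Measure.restrict_apply_univ, smul_eq_mul,
      ENNReal.inv_mul_cancel h0 (measure_ne_top _ _)]
  have hpre : ∀ g : GG, (fun x : P × KK => g • x) ⁻¹' A = A := by
    intro g
    ext x
    constructor
    · intro hx
      have := hinv g⁻¹ _ hx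
      rwa [inv_smul_smul] at this
    · intro hx
      exact hinv g x hx
  have hue := hS.X0_ue ((m A)⁻¹ • m.restrict A) hcp ?_ ?_
  · have hfst : Measure.map Prod.fst ((m A)⁻¹ • m.restrict A) = Measure.dirac s := by
      ext D hD
      rw [Measure.map_apply measurable_fst hD, Measure.dirac_apply' _ hD]
      by_cases hs : s ∈ D
      · rw [indicator_of_mem hs, Pi.one_apply]
        have : ((m A)⁻¹ • m.restrict A) (Prod.fst ⁻¹' D)ᶜ = 0 := by
          rw [Measure.smul_apply]
          have h1 : m (Prod.fst ⁻¹' D)ᶜ = 0 := by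
            have h2 := mu_fst lam s
            rw [ae_iff] at h2
            refine measure_mono_null ?_ h2
            intro x hx h3
            apply hx
            show x.1 ∈ D
            rw [h3]
            exact hs
          have h2 : (m.restrict A) (Prod.fst ⁻¹' D)ᶜ = 0 :=
            le_antisymm ((Measure.restrict_apply_le _ _).trans h1.le) bot_le
          rw [h2, smul_zero]
        exact (prob_compl_eq_zero_iff (measurable_fst hD)).1 this
      · rw [indicator_of_notMem hs]
        rw [Measure.smul_apply]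
        have h1 : m (Prod.fst ⁻¹' D) = 0 := by
          have h2 := mu_fst lam s
          rw [ae_iff] at h2
          refine measure_mono_null ?_ h2
          intro x hx h3
          apply hs
          rw [← h3]
          exact hx
        have h2 : (m.restrict A) (Prod.fst ⁻¹' D) = 0 :=
          le_antisymm ((Measure.restrict_apply_le _ _).trans h1.le) bot_le
        rw [h2, smul_zero]
    rw [hfst] at hue
    have h3 : ((m A)⁻¹ • m.restrict A) Aᶜ = m Aᶜ := by
      rw [hue]
      rfl
    rw [← h3, Measure.smul_apply, Measure.restrict_apply hA.compl]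
    simp
  · intro g
    rw [Measure.map_smul]
    congr 1
    ext D hD
    rw [Measure.map_apply (meas_smul g) hD, Measure.restrict_apply (meas_smul g hD),
      Measure.restrict_apply hD]
    have h1 := congrArg (fun m : Measure (P × KK) => m (D ∩ A)) (mu_inv hS s g)
    rw [Measure.map_apply (meas_smul g) (hD.inter hA), preimage_inter, hpre g] at h1
    exact h1
  · rw [Measure.smul_apply]
    have h2 : (m.restrict A) X0ᶜ = 0 :=
      le_antisymm ((Measure.restrict_apply_le _ _).trans (mu_X0 hS s).le) bot_le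
    rw [h2, smul_zero]

end sys

/-- **Piece `S_fin1`.** -/
theorem holds : S_fin1 := by
  intro hS hCore hF
  obtain ⟨B, hB, ⟨s, hs⟩, hcore⟩ := hCore
  have := hS.prob
  have := hS.inf
  have hprob := mu_prob lamK s
  set Xs : Set (P × KK) := {x | x ∈ XX0 ∧ x.1 ∈ B} with hXs
  have hXm : MeasurableSet Xs := hS.X0_meas.inter (measurable_fst hB)
  have hXinv : ∀ (g : GG) (x : P × KK), x ∈ Xs → g • x ∈ Xs := by
    intro g x hx
    refine ⟨hS.X0_inv g x hx.1, ?_⟩
    show (g • x).1 ∈ B
    rw [hS.fst_smul]
    exact hx.2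
  have hXfull : mu lamK s Xsᶜ = 0 := by
    have h1 := mu_X0 hS s
    have h2 := mu_fst lamK s
    rw [ae_iff] at h2
    refine measure_mono_null ?_ (measure_union_null h1 h2)
    intro x hx
    by_cases h3 : x ∈ XX0
    · right
      intro h4
      apply hx
      refine ⟨h3, ?_⟩
      show x.1 ∈ B
      rw [h4]
      exact hs
    · exact Or.inl h3
  have hne : ¬ Xs.Countable := by
    intro hc
    have h1 := mu_countable hS s Xs hc (fun x hx => hx.1)
    have h2 : mu lamK s univ = 0 := by
      rw [← union_compl_self Xs]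
      exact measure_union_null h1 hXfull
    rw [measure_univ] at h2
    exact one_ne_zero h2
  have hSB : StandardBorelSpace Xs := hXm.standardBorel
  set E : Xs → Xs → Prop := fun x y => ∃ g : GG, g • x.1 = y.1 with hE
  have hEq : Equivalence E := by
    refine ⟨fun x => ⟨1, one_smul _ _⟩, ?_, ?_⟩
    · rintro x y ⟨g, hg⟩
      refine ⟨g⁻¹, ?_⟩
      rw [← hg, inv_smul_smul]
    · rintro x y z ⟨g, hg⟩ ⟨h, hh⟩
      refine ⟨h * g, ?_⟩
      rw [mul_smul, hg, hh]
  have hEm : MeasurableSet {p : Xs × Xs | E p.1 p.2} := by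
    have e : {p : Xs × Xs | E p.1 p.2} = ⋃ g : GG, {p : Xs × Xs | g • p.1.1 = p.2.1} := by
      ext p
      simp [hE]
    rw [e]
    refine MeasurableSet.iUnion fun g => ?_
    refine measurableSet_eq_fun ?_ ?_
    · exact (meas_smul g).comp (measurable_subtype_coe.comp measurable_fst)
    · exact measurable_subtype_coe.comp measurable_snd
  have hEc : ∀ x : Xs, {y : Xs | E x y}.Countable := by
    intro x
    have e : {y : Xs | E x y} = range (fun g : GG => (⟨g • x.1, hXinv g x.1 x.2⟩ : Xs)) := by
      ext y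
      constructor
      · rintro ⟨g, hg⟩
        exact ⟨g, Subtype.ext hg⟩
      · rintro ⟨g, hg⟩
        exact ⟨g, congrArg Subtype.val hg⟩
    rw [e]
    exact countable_range _
  have hEi : ∀ x : Xs, {y : Xs | E x y}.Infinite := by
    intro x
    refine (infinite_range_of_injective (f := fun g : GG => (⟨g • x.1, hXinv g x.1 x.2⟩ : Xs)) ?_).mono ?_
    · intro g h e
      have e' : g • x.1 = h • x.1 := congrArg Subtype.val e
      exact smul_inj hS x.1 x.2.1 e'
    · rintro _ ⟨g, rfl⟩
      exact ⟨g, rfl⟩
  have hns : ¬ ∃ f : Xs → ℝ, Measurable f ∧ ∀ x y : Xs, E x y ↔ f x = f y := by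
    rintro ⟨f, hf, hfE⟩
    classical
    obtain ⟨a, ha⟩ := exists_eventuallyEq_const_of_forall_separating
      (l := ae (mu lamK s)) (f := fun x : P × KK => if h : x ∈ Xs then f ⟨x, h⟩ else 0)
      (MeasurableSet : Set ℝ → Prop) (by
        intro U hU
        have hA : MeasurableSet (Subtype.val '' (f ⁻¹' U)) := hXm.subtype_image (hf hU)
        have h01 := zero_one hS s _ hA (by
          rintro g _ ⟨x, hx, rfl⟩
          refine ⟨⟨g • x.1, hXinv g x.1 x.2⟩, ?_, rfl⟩
          have h1 : E x ⟨g • x.1, hXinv g x.1 x.2⟩ := ⟨g, rfl⟩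
          have h2 := (hfE _ _).1 h1
          show f _ ∈ U
          rw [← h2]
          exact hx)
        have hX' : ∀ᵐ x ∂(mu lamK s), x ∈ Xs := by
          rw [ae_iff]
          exact hXfull
        rcases h01 with h | h
        · right
          have h' : ∀ᵐ x ∂(mu lamK s), x ∉ (Subtype.val '' (f ⁻¹' U) : Set (P × KK)) := by
            rw [ae_iff]
            simp only [not_not]
            exact h
          filter_upwards [hX', h'] with x h1 h2 h3
          rw [dif_pos h1] at h3
          exact h2 ⟨⟨x, h1⟩, h3, rfl⟩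
        · left
          have h' : ∀ᵐ x ∂(mu lamK s), x ∈ (Subtype.val '' (f ⁻¹' U) : Set (P × KK)) := by
            rw [ae_iff]
            exact h
          filter_upwards [hX', h'] with x h1 h2
          rw [dif_pos h1]
          obtain ⟨y, hy, rfl⟩ := h2
          exact hy)
    have hX' : ∀ᵐ x ∂(mu lamK s), x ∈ Xs := by
      rw [ae_iff]
      exact hXfull
    have ha' : ∀ᵐ x ∂(mu lamK s), ∃ h : x ∈ Xs, f ⟨x, h⟩ = a := by
      filter_upwards [hX', ha] with x h1 h2
      refine ⟨h1, ?_⟩
      rw [dif_pos h1] at h2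
      exact h2
    obtain ⟨x₀, hx₀, hfx₀⟩ := ha'.exists
    have hzero : mu lamK s (range (fun g : GG => g • x₀)) = 0 := by
      refine mu_countable hS s _ (countable_range _) ?_
      rintro _ ⟨g, rfl⟩
      exact hS.X0_inv g x₀ hx₀.1
    have hone : ∀ᵐ x ∂(mu lamK s), x ∈ range (fun g : GG => g • x₀) := by
      filter_upwards [ha'] with x hx
      obtain ⟨h1, h2⟩ := hx
      have h3 : E ⟨x₀, hx₀⟩ ⟨x, h1⟩ := (hfE _ _).2 (hfx₀.trans h2.symm)
      obtain ⟨g, hg⟩ := h3
      exact ⟨g, hg⟩
    have hone' : ∀ᵐ x ∂(mu lamK s), x ∉ range (fun g : GG => g • x₀) := by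
      rw [ae_iff]
      simp only [not_not]
      exact hzero
    obtain ⟨x, hx1, hx2⟩ := (hone.and hone').exists
    exact hx2 hx1
  have hunc : Uncountable Xs := by
    rw [← not_countable_iff]
    intro h
    exact hne (countable_coe_iff.1 h)
  obtain ⟨Γ, iG, iC, Kt, iT, iCp, iPol, iMA, iCS, iMS, iB, f, hf⟩ :=
    hF Xs hunc E hEq hEm hEc hEi hns
  have hne0 : Nonempty Xs := by
    by_contra h
    rw [not_nonempty_iff] at h
    exact hne (countable_coe_iff.1 inferInstance)
  obtain ⟨x₁⟩ := hne0
  classical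
  refine hcore Γ Kt (fun x => if h : x ∈ Xs then f ⟨x, h⟩ else f x₁) (fun y => (f.symm y).1) univ ?_
  have hΘ : ∀ (x : P × KK) (h : x ∈ Xs), (if h : x ∈ Xs then f ⟨x, h⟩ else f x₁) = f ⟨x, h⟩ :=
    fun x h => dif_pos h
  refine ⟨?_, ?_, MeasurableSet.univ, ?_, ?_, fun _ _ _ => mem_univ _, ?_, ?_⟩
  · exact Measurable.dite (s := Xs) f.measurable measurable_const hXm
  · exact measurable_subtype_coe.comp f.symm.measurable
  · intro x hx hxB
    refine ⟨mem_univ _, ?_⟩
    rw [hΘ x ⟨hx, hxB⟩, f.symm_apply_apply]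
  · intro y _
    have h1 : (f.symm y).1 ∈ Xs := (f.symm y).2
    refine ⟨h1.1, h1.2, ?_⟩
    rw [hΘ _ h1]
    simp
  · intro x x' hx hxB hx' hxB'
    rw [hΘ x ⟨hx, hxB⟩, hΘ x' ⟨hx', hxB'⟩]
    exact hf ⟨x, ⟨hx, hxB⟩⟩ ⟨x', ⟨hx', hxB'⟩⟩
  · intro ρ _ _
    rw [compl_univ]
    exact measure_empty

end Pool.Agent.H675.CRfin1
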