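import Pool.Agent.H646.CR.Stm2

set_option autoImplicit false

/-!
# The second frozen statement from the core theorem
-/

namespace Pool.Agent.H97.CRfin2

open MeasureTheory ProbabilityTheory Set Topology TopologicalSpace Filter
open scoped ENNReal
open Pool.Agent.H646.CR

theorem emb_img {α β : Type} [TopologicalSpace α] [MeasurableSpace α] [BorelSpace α]
    [TopologicalSpace β] {f : α → β} (hf : IsOpenEmbedding f) {s : Set α}
    (hs : MeasurableSet s) : MeasurableSet[borel β] (f '' s) := by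
  let _ : MeasurableSpace β := borel β
  have _ : BorelSpace β := ⟨rfl⟩
  exact hf.measurableEmbedding.measurableSet_image' hs

theorem sb_sum (α β : Type) [MeasurableSpace α] [MeasurableSpace β] [StandardBorelSpace α]
    [StandardBorelSpace β] : StandardBorelSpace (α ⊕ β) := by
  let _ := upgradeStandardBorel α
  let _ := upgradeStandardBorel β
  have : BorelSpace (α ⊕ β) := by
    constructor
    apply le_antisymm
    · intro s hs
      have h1 : MeasurableSet[borel (α ⊕ β)] (Sum.inl '' (Sum.inl ⁻¹' s)) :=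
        emb_img IsOpenEmbedding.inl (measurable_inl hs)
      have h2 : MeasurableSet[borel (α ⊕ β)] (Sum.inr '' (Sum.inr ⁻¹' s)) :=
        emb_img IsOpenEmbedding.inr (measurable_inr hs)
      have h3 := @MeasurableSet.union _ (borel (α ⊕ β)) _ _ h1 h2
      rwa [image_preimage_inl_union_image_preimage_inr] at h3
    · refine MeasurableSpace.generateFrom_le fun s hs => ?_
      have hs' : IsOpen s := hs
      rw [isOpen_sum_iff] at hs'
      rw [measurableSet_sum_iff]
      exact ⟨hs'.1.measurableSet, hs'.2.measurableSet⟩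
  infer_instance

theorem emb_inl {α β : Type} [MeasurableSpace α] [MeasurableSpace β] :
    MeasurableEmbedding (Sum.inl : α → α ⊕ β) :=
  ⟨Sum.inl_injective, measurable_inl, fun _ hs => hs.inl_image⟩

theorem emb_inr {α β : Type} [MeasurableSpace α] [MeasurableSpace β] :
    MeasurableEmbedding (Sum.inr : β → α ⊕ β) :=
  ⟨Sum.inr_injective, measurable_inr, fun _ hs => hs.inr_image⟩

/-- The relation on the disjoint union. -/
def SR {W V : Type} (R : W → W → Prop) (S : V → V → Prop) : W ⊕ V → W ⊕ V → Prop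
  | Sum.inl x, Sum.inl y => R x y
  | Sum.inr x, Sum.inr y => S x y
  | _, _ => False

theorem SR_equiv {W V : Type} {R : W → W → Prop} {S : V → V → Prop} (hR : Equivalence R)
    (hS : Equivalence S) : Equivalence (SR R S) := by
  refine ⟨?_, ?_, ?_⟩
  · rintro (x | x)
    · exact hR.refl x
    · exact hS.refl x
  · rintro (x | x) (y | y) h
    · exact hR.symm h
    · exact h.elim
    · exact h.elim
    · exact hS.symm h
  · rintro (x | x) (y | y) (z | z) h h'
    · exact hR.trans h h'
    · exact h'.elim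
    · exact h.elim
    · exact h.elim
    · exact h.elim
    · exact h.elim
    · exact h'.elim
    · exact hS.trans h h'

theorem SR_meas {W V : Type} [MeasurableSpace W] [MeasurableSpace V] {R : W → W → Prop}
    {S : V → V → Prop} (hR : MeasurableSet {p : W × W | R p.1 p.2})
    (hS : MeasurableSet {p : V × V | S p.1 p.2}) :
    MeasurableSet {p : (W ⊕ V) × (W ⊕ V) | SR R S p.1 p.2} := by
  have e : {p : (W ⊕ V) × (W ⊕ V) | SR R S p.1 p.2} =
      Prod.map Sum.inl Sum.inl '' {p : W × W | R p.1 p.2} ∪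
        Prod.map Sum.inr Sum.inr '' {p : V × V | S p.1 p.2} := by
    ext ⟨x, y⟩
    constructor
    · intro h
      rcases x with x | x <;> rcases y with y | y
      · exact Or.inl ⟨(x, y), h, rfl⟩
      · exact False.elim h
      · exact False.elim h
      · exact Or.inr ⟨(x, y), h, rfl⟩
    · rintro (⟨⟨a, b⟩, h, e⟩ | ⟨⟨a, b⟩, h, e⟩)
      · obtain ⟨rfl, rfl⟩ := Prod.ext_iff.1 e
        exact h
      · obtain ⟨rfl, rfl⟩ := Prod.ext_iff.1 e
        exact h
  rw [e]
  exact ((emb_inl.prodMap emb_inl).measurableSet_image' hR).union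
    ((emb_inr.prodMap emb_inr).measurableSet_image' hS)

theorem SR_countable {W V : Type} {R : W → W → Prop} {S : V → V → Prop}
    (hR : ∀ x, {y | R x y}.Countable) (hS : ∀ x, {y | S x y}.Countable) (x : W ⊕ V) :
    {y | SR R S x y}.Countable := by
  rcases x with x | x
  · refine ((hR x).image Sum.inl).mono ?_
    rintro (y | y) h
    · exact ⟨y, h, rfl⟩
    · exact False.elim h
  · refine ((hS x).image Sum.inr).mono ?_
    rintro (y | y) h
    · exact False.elim h
    · exact ⟨y, h, rfl⟩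

theorem SR_infinite {W V : Type} {R : W → W → Prop} {S : V → V → Prop}
    (hR : ∀ x, {y | R x y}.Infinite) (hS : ∀ x, {y | S x y}.Infinite) (x : W ⊕ V) :
    {y | SR R S x y}.Infinite := by
  rcases x with x | x
  · refine ((hR x).image Sum.inl_injective.injOn).mono ?_
    rintro _ ⟨y, h, rfl⟩
    exact h
  · refine ((hS x).image Sum.inr_injective.injOn).mono ?_
    rintro _ ⟨y, h, rfl⟩
    exact h

/-- Orbit relation of a countable family of measurable maps. -/
theorem orb_meas {X I : Type} [MeasurableSpace X] [StandardBorelSpace X] [Countable I]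
    (T : I → X → X) (hT : ∀ i, Measurable (T i)) :
    MeasurableSet {p : X × X | ∃ i, T i p.1 = p.2} := by
  have : {p : X × X | ∃ i, T i p.1 = p.2} = ⋃ i, {p : X × X | T i p.1 = p.2} := by
    ext p
    simp
  rw [this]
  exact MeasurableSet.iUnion fun i =>
    measurableSet_eq_fun ((hT i).comp measurable_fst) measurable_snd

open Pool.Agent.H139R3.MS (shift)

theorem shift_one {G : Type} [Group G] (x : G → Bool) : shift 1 x = x := by
  funext h
  simp [shift]

theorem shift_mul {G : Type} [Group G] (g g' : G) (x : G → Bool) :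
    shift (g * g') x = shift g (shift g' x) := by
  funext h
  simp [shift, mul_assoc]

theorem shift_meas {G : Type} [Group G] (g : G) : Measurable (shift g) :=
  measurable_pi_lambda _ fun _ => measurable_pi_apply _

/-- The universal space. -/
abbrev U : Type := (FreeGroup (Fin 2) → Bool) × ℕ

/-- The universal aperiodic relation. -/
def UR (x y : U) : Prop := ∃ g : FreeGroup (Fin 2), shift g x.1 = y.1

theorem UR_equiv : Equivalence UR := by
  refine ⟨fun x => ⟨1, shift_one _⟩, ?_, ?_⟩
  · rintro x y ⟨g, hg⟩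
    refine ⟨g⁻¹, ?_⟩
    rw [← hg, ← shift_mul, inv_mul_cancel, shift_one]
  · rintro x y z ⟨g, hg⟩ ⟨h, hh⟩
    refine ⟨h * g, ?_⟩
    rw [shift_mul, hg, hh]

theorem UR_meas : MeasurableSet {p : U × U | UR p.1 p.2} := by
  have h := orb_meas (X := FreeGroup (Fin 2) → Bool) (I := FreeGroup (Fin 2))
    (fun g => shift g) shift_meas
  have hm : Measurable fun p : U × U => (p.1.1, p.2.1) := by fun_prop
  exact hm h

theorem UR_countable (x : U) : {y | UR x y}.Countable := by
  refine (countable_range fun p : FreeGroup (Fin 2) × ℕ => ((shift p.1 x.1, p.2) : U)).mono ?_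
  rintro y ⟨g, hg⟩
  exact ⟨(g, y.2), Prod.ext hg rfl⟩

theorem UR_infinite (x : U) : {y | UR x y}.Infinite := by
  refine (infinite_range_of_injective (f := fun n : ℕ => ((x.1, n) : U)) ?_).mono ?_
  · intro n m h
    exact (Prod.ext_iff.1 h).2
  · rintro _ ⟨n, rfl⟩
    exact ⟨1, shift_one _⟩

section

variable {G K : Type} [Group G] [Countable G] [TopologicalSpace K] [CompactSpace K]
  [MetrizableSpace K] [MeasurableSpace K] [BorelSpace K]
  [MulAction G (P × K)] [ContinuousConstSMul G (P × K)]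

/-- The orbit relation on the part over `B`. -/
def WR (G : Type) {K : Type} [Group G] [MulAction G (P × K)] (X0 : Set (P × K)) (B : Set P)
    (x y : {x : P × K // x ∈ X0 ∧ x.1 ∈ B}) : Prop :=
  ∃ g : G, g • x.1 = y.1

omit [Countable G] [TopologicalSpace K] [CompactSpace K] [MetrizableSpace K]
  [MeasurableSpace K] [BorelSpace K] [ContinuousConstSMul G (P × K)] in
theorem WR_equiv (X0 : Set (P × K)) (B : Set P) : Equivalence (WR G X0 B) := by
  refine ⟨fun x => ⟨1, one_smul _ _⟩, ?_, ?_⟩
  · rintro x y ⟨g, hg⟩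
    exact ⟨g⁻¹, by rw [← hg, inv_smul_smul]⟩
  · rintro x y z ⟨g, hg⟩ ⟨h, hh⟩
    exact ⟨h * g, by rw [mul_smul, hg, hh]⟩

omit [TopologicalSpace K] [CompactSpace K] [MetrizableSpace K]
  [BorelSpace K] [ContinuousConstSMul G (P × K)] in
theorem WR_meas [StandardBorelSpace (P × K)] (hc : ∀ g : G, Measurable fun x : P × K => g • x)
    (X0 : Set (P × K)) (B : Set P) :
    MeasurableSet {p : {x : P × K // x ∈ X0 ∧ x.1 ∈ B} × {x : P × K // x ∈ X0 ∧ x.1 ∈ B} |
      WR G X0 B p.1 p.2} := by
  have h := orb_meas (X := P × K) (I := G) (fun g x => g • x) hc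
  have hm : Measurable fun p : {x : P × K // x ∈ X0 ∧ x.1 ∈ B} ×
      {x : P × K // x ∈ X0 ∧ x.1 ∈ B} => (p.1.1, p.2.1) := by fun_prop
  exact hm h

omit [TopologicalSpace K] [CompactSpace K] [MetrizableSpace K] [MeasurableSpace K]
  [BorelSpace K] [ContinuousConstSMul G (P × K)] in
theorem WR_countable (X0 : Set (P × K)) (B : Set P) (x : {x : P × K // x ∈ X0 ∧ x.1 ∈ B}) :
    {y | WR G X0 B x y}.Countable := by
  have h1 : {y : P × K | ∃ g : G, g • x.1 = y}.Countable := countable_range fun g : G => g • x.1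
  exact h1.preimage Subtype.val_injective

omit [Countable G] [TopologicalSpace K] [CompactSpace K] [MetrizableSpace K]
  [MeasurableSpace K] [BorelSpace K] [ContinuousConstSMul G (P × K)] in
theorem WR_infinite (hG : Infinite G) (X0 : Set (P × K)) (B : Set P)
    (hfst : ∀ (g : G) (x : P × K), (g • x).1 = x.1)
    (hinv : ∀ (g : G) (x : P × K), x ∈ X0 → g • x ∈ X0)
    (hfree : ∀ (g : G) (x : P × K), x ∈ X0 → g • x = x → g = 1)
    (x : {x : P × K // x ∈ X0 ∧ x.1 ∈ B}) :
    {y | WR G X0 B x y}.Infinite := by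
  refine (infinite_range_of_injective (f := fun g : G =>
    (⟨g • x.1, hinv g _ x.2.1, by rw [hfst]; exact x.2.2⟩ : {x : P × K // x ∈ X0 ∧ x.1 ∈ B}))
    ?_).mono ?_
  · intro g h e
    have e1 : g • x.1 = h • x.1 := Subtype.ext_iff.1 e
    have e2 : (h⁻¹ * g) • x.1 = x.1 := by rw [mul_smul, e1, inv_smul_smul]
    have e3 := hfree _ _ x.2.1 e2
    exact (inv_mul_eq_one.1 e3).symm
  · rintro _ ⟨g, rfl⟩
    exact ⟨g, rfl⟩

/-- The involution. -/
def tau {W : Type} (n : ℕ) : W ⊕ U → W ⊕ U :=
  Sum.map id (fun u => (u.1, Equiv.swap 0 n u.2))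

theorem tau_tau {W : Type} (n : ℕ) (x : W ⊕ U) : tau n (tau n x) = x := by
  rcases x with x | x
  · rfl
  · show (Sum.inr ((x.1, Equiv.swap 0 n (Equiv.swap 0 n x.2)) : U) : W ⊕ U) = _
    rw [Equiv.swap_apply_self]

theorem tau_meas {W : Type} [MeasurableSpace W] (n : ℕ) : Measurable (tau (W := W) n) := by
  refine Measurable.sumMap measurable_id (measurable_fst.prodMk ?_)
  exact (measurable_of_countable (fun m : ℕ => Equiv.swap 0 n m)).comp measurable_snd

theorem tau_rel {W : Type} {R : W → W → Prop} (hR : Equivalence R) (n : ℕ) (x : W ⊕ U) :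
    SR R UR x (tau n x) := by
  rcases x with x | x
  · exact hR.refl x
  · exact ⟨1, shift_one _⟩

/-- Extension by a constant. -/
noncomputable def ext0 {α β : Type} (s : Set α) (f : s → β) (c : β) (x : α) : β := by
  classical
  exact if h : x ∈ s then f ⟨x, h⟩ else c

theorem ext0_mem {α β : Type} (s : Set α) (f : s → β) (c : β) (x : α) (h : x ∈ s) :
    ext0 s f c x = f ⟨x, h⟩ := dif_pos h

theorem ext0_meas {α β : Type} [MeasurableSpace α] [MeasurableSpace β] (s : Set α)
    (hs : MeasurableSet s) (f : s → β) (hf : Measurable f) (c : β) : Measurable (ext0 s f c) := by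
  classical
  exact Measurable.dite hf measurable_const hs

theorem main [StandardBorelSpace (P × K)] (hG : Infinite G) (X0 : Set (P × K))
    (hm : MeasurableSet X0)
    (hfst : ∀ (g : G) (x : P × K), (g • x).1 = x.1)
    (hinv : ∀ (g : G) (x : P × K), x ∈ X0 → g • x ∈ X0)
    (hfree : ∀ (g : G) (x : P × K), x ∈ X0 → g • x = x → g = 1)
    (B : Set P) (hB : MeasurableSet B)
    (hcore : ∀ (Λ Y : Type) [Group Λ] [Countable Λ] [TopologicalSpace Y] [CompactSpace Y]
      [MetrizableSpace Y] [MeasurableSpace Y] [BorelSpace Y] [MulAction Λ Y]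
      [ContinuousConstSMul Λ Y] (Θ : P × K → Y) (Ξ : Y → P × K) (Y0 : Set Y),
      ¬ IsReal Λ Y G X0 B Θ Ξ Y0)
    (hpw : S_pw) (p0 : P × K) : ¬ Frozen2 := by
  classical
  intro hF
  have hcg : ∀ g : G, Measurable fun x : P × K => g • x := fun g =>
    (continuous_const_smul g).measurable
  have hWm : MeasurableSet {x : P × K | x ∈ X0 ∧ x.1 ∈ B} := hm.inter (measurable_fst hB)
  have hsb1 : StandardBorelSpace {x : P × K // x ∈ X0 ∧ x.1 ∈ B} := hWm.standardBorel
  have hsb : StandardBorelSpace ({x : P × K // x ∈ X0 ∧ x.1 ∈ B} ⊕ U) := sb_sum _ _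
  have hWe : Equivalence (WR G X0 B) := WR_equiv X0 B
  obtain ⟨Γ, _, _, Z, _, _, _, _, _, _, hcont, φ, hφ⟩ :=
    hF ({x : P × K // x ∈ X0 ∧ x.1 ∈ B} ⊕ U) (SR (WR G X0 B) UR) (SR_equiv hWe UR_equiv)
      (SR_meas (WR_meas hcg X0 B) UR_meas)
      (SR_countable (WR_countable X0 B) UR_countable)
      (SR_infinite (WR_infinite hG X0 B hfst hinv hfree) UR_infinite)
      (by
        intro Y _ _ F hFe hFm hFc
        obtain ⟨f, hf, -, hf2⟩ := Pool.Agent.H139R3.MS.reduction F hFe hFm hFc
        refine ⟨fun y => Sum.inr (f y, 0), measurable_inr.comp (hf.prodMk measurable_const),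
          fun y y' => ?_⟩
        rw [hf2 y y']
        constructor
        · rintro ⟨g, hg⟩
          exact ⟨g, hg.symm⟩
        · rintro ⟨g, hg⟩
          exact ⟨g, hg.symm⟩)
  have hcs : ContinuousConstSMul Γ Z := ⟨hcont⟩
  have hΓm : ∀ g : Γ, Measurable fun z : Z => g • z := fun g => (hcont g).measurable
  have hsbZ : StandardBorelSpace Z := by
    let _ := metrizableSpaceMetric Z
    infer_instance
  refine hcore Γ Z
    (ext0 {x : P × K | x ∈ X0 ∧ x.1 ∈ B} (fun x => φ (Sum.inl x))
      (φ (Sum.inr (fun _ => false, 0))))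
    (fun z => Sum.elim (fun w => w.1) (fun _ => p0) (φ.symm z))
    (φ.symm ⁻¹' range Sum.inl) ?_
  have hΘ : ∀ (x : P × K) (h : x ∈ X0 ∧ x.1 ∈ B),
      ext0 {x : P × K | x ∈ X0 ∧ x.1 ∈ B} (fun x => φ (Sum.inl x))
      (φ (Sum.inr (fun _ => false, 0))) x = φ (Sum.inl ⟨x, h⟩) := fun x h => ext0_mem _ _ _ x h
  refine ⟨?_, ?_, ?_, ?_, ?_, ?_, ?_, ?_⟩
  · exact ext0_meas _ hWm _ (φ.measurable.comp measurable_inl) _
  · exact (measurable_subtype_coe.sumElim measurable_const).comp φ.symm.measurable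
  · exact φ.symm.measurable measurableSet_range_inl
  · intro x hx hxB
    rw [hΘ x ⟨hx, hxB⟩]
    refine ⟨⟨_, (φ.symm_apply_apply _).symm⟩, ?_⟩
    rw [φ.symm_apply_apply]
    rfl
  · rintro y ⟨w, hw⟩
    rw [← hw]
    refine ⟨w.2.1, w.2.2, ?_⟩
    rw [Sum.elim_inl, hΘ w.1 w.2]
    show φ (Sum.inl w) = y
    rw [hw, φ.apply_symm_apply]
  · rintro g y ⟨w, hw⟩
    have h1 : SR (WR G X0 B) UR (Sum.inl w) (φ.symm (g • y)) := by
      rw [hφ]
      exact ⟨g, by rw [hw, φ.apply_symm_apply, φ.apply_symm_apply]⟩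
    show φ.symm (g • y) ∈ range Sum.inl
    rcases e : φ.symm (g • y) with a | a
    · exact ⟨a, rfl⟩
    · rw [e] at h1
      exact h1.elim
  · intro x x' hx hxB hx' hxB'
    rw [hΘ x ⟨hx, hxB⟩, hΘ x' ⟨hx', hxB'⟩, ← hφ]
    exact Iff.rfl
  · intro ρ hρ hρi
    have hZm : ∀ n : ℕ, MeasurableSet (φ.symm ⁻¹' {x | ∃ u : U, u.2 = n ∧ x = Sum.inr u}) := by
      intro n
      refine φ.symm.measurable ?_
      have : {x : {x : P × K // x ∈ X0 ∧ x.1 ∈ B} ⊕ U | ∃ u : U, u.2 = n ∧ x = Sum.inr u} =
          Sum.inr '' {u : U | u.2 = n} := by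
        ext x
        constructor
        · rintro ⟨u, h1, h2⟩
          exact ⟨u, h1, h2.symm⟩
        · rintro ⟨u, h1, h2⟩
          exact ⟨u, h1, h2.symm⟩
      rw [this]
      exact MeasurableSet.inr_image (measurable_snd (measurableSet_singleton n))
    have heq : ∀ n : ℕ, ρ (φ.symm ⁻¹' {x | ∃ u : U, u.2 = n ∧ x = Sum.inr u}) =
        ρ (φ.symm ⁻¹' {x | ∃ u : U, u.2 = 0 ∧ x = Sum.inr u}) := by
      intro n
      have hσm : Measurable fun z => φ (tau n (φ.symm z)) :=
        φ.measurable.comp ((tau_meas n).comp φ.symm.measurable)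
      have hσ := hpw Z Γ hΓm ρ hρ hρi (fun z => φ (tau n (φ.symm z))) univ
        hσm MeasurableSet.univ
        (by rw [compl_univ, measure_empty])
        (by
          intro z _ z' _ h
          have h1 := φ.injective h
          have h2 := congrArg (tau n) h1
          rw [tau_tau, tau_tau] at h2
          exact φ.symm.injective h2)
        (by
          intro z _
          obtain ⟨g, hg⟩ := (hφ _ _).1 (tau_rel hWe n (φ.symm z))
          rw [φ.apply_symm_apply] at hg
          exact ⟨g, hg.symm⟩)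
      conv_lhs => rw [← hσ]
      rw [Measure.map_apply hσm (hZm n)]
      congr 1
      ext z
      show (∃ u : U, u.2 = n ∧ φ.symm (φ (tau n (φ.symm z))) = Sum.inr u) ↔
        (∃ u : U, u.2 = 0 ∧ φ.symm z = Sum.inr u)
      rw [φ.symm_apply_apply]
      rcases φ.symm z with a | a
      · constructor
        · rintro ⟨u, -, h⟩
          exact absurd h Sum.inl_ne_inr
        · rintro ⟨u, -, h⟩
          exact absurd h Sum.inl_ne_inr
      · constructor
        · rintro ⟨u, hu, h⟩
          refine ⟨a, ?_, rfl⟩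
          have h1 : (a.1, Equiv.swap 0 n a.2) = u := Sum.inr_injective h
          rw [← h1] at hu
          have hu' : Equiv.swap 0 n a.2 = n := hu
          have h3 := congrArg (Equiv.swap 0 n) hu'
          rwa [Equiv.swap_apply_self, Equiv.swap_apply_right] at h3
        · rintro ⟨u, hu, h⟩
          have h1 : a = u := Sum.inr_injective h
          refine ⟨(a.1, Equiv.swap 0 n a.2), ?_, rfl⟩
          show Equiv.swap 0 n a.2 = n
          rw [h1, hu, Equiv.swap_apply_left]
    have hdisj : Pairwise (Function.onFun Disjoint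
        fun n : ℕ => φ.symm ⁻¹' {x | ∃ u : U, u.2 = n ∧ x = Sum.inr u}) := by
      intro n m hnm
      rw [Function.onFun, Set.disjoint_left]
      rintro z ⟨u, hu, h⟩ ⟨u', hu', h'⟩
      have : u = u' := Sum.inr_injective (h.symm.trans h')
      rw [this, hu'] at hu
      exact hnm hu.symm
    have hunion : (φ.symm ⁻¹' range Sum.inl)ᶜ =
        ⋃ n : ℕ, φ.symm ⁻¹' {x | ∃ u : U, u.2 = n ∧ x = Sum.inr u} := by
      ext z
      rw [mem_compl_iff, mem_iUnion]
      constructor
      · intro h
        rcases e : φ.symm z with a | a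
        · exact absurd (show z ∈ φ.symm ⁻¹' range Sum.inl from ⟨a, e.symm⟩) h
        · exact ⟨a.2, a, rfl, e⟩
      · rintro ⟨n, u, hu, h⟩ ⟨w, hw⟩
        rw [h] at hw
        exact absurd hw Sum.inl_ne_inr
    have hsum : ρ (φ.symm ⁻¹' range Sum.inl)ᶜ = ∑' _ : ℕ,
        ρ (φ.symm ⁻¹' {x | ∃ u : U, u.2 = 0 ∧ x = Sum.inr u}) := by
      rw [hunion, measure_iUnion hdisj hZm]
      exact tsum_congr heq
    have h0 : ρ (φ.symm ⁻¹' {x | ∃ u : U, u.2 = 0 ∧ x = Sum.inr u}) = 0 := by
      by_contra hne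
      rw [ENNReal.tsum_const_eq_top_of_ne_zero hne] at hsum
      exact measure_ne_top ρ _ hsum
    rw [hsum, h0, tsum_zero]

end

theorem holds (hpw : S_pw) : S_fin2 := by
  rintro hS ⟨B, hB, -, hcore⟩
  exact main hS.inf XX0 hS.X0_meas hS.fst_smul hS.X0_inv hS.X0_free B hB
    (fun Λ Y => hcore Λ Y) hpw (fun _ => false, fun _ => 0)

theorem S_fin2_holds (hpw : S_pw) : S_fin2 := holds hpw

end Pool.Agent.H97.CRfin2
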