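import Pool.Agent.H646.CR.Final
import Pool.Agent.H646.CR.PClosed
import Pool.Agent.H646.CR.PTr2
import Pool.Agent.H646.CR.PRtH
import Pool.Agent.H646.CR.PGrp
import Pool.Agent.H646.CR.PFin1
import Pool.Agent.H646.CR.PFin2

set_option autoImplicit false

/-!
# The two negative answers
-/

namespace Pool.Agent.H646.CR

theorem isSys : IsSys GG KK lamK qq cc QQ XX0 :=
  sys Pool.Agent.H358.CR.holds Pool.Agent.H358.CRgrp.holds

theorem coreThm : Core :=
  core (Pool.Agent.H154.CRclosed.holds Pool.Agent.H803.CR.Usc.holds)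
    Pool.Agent.H34.CRtr2.holds isSys

theorem not_frozen1 : ¬ Frozen1 := Pool.Agent.H675.CRfin1.holds isSys coreThm

theorem not_frozen2 : ¬ Frozen2 :=
  Pool.Agent.H97.CRfin2.S_fin2_holds Pool.Agent.H71.CRpw.holds isSys coreThm

end Pool.Agent.H646.CR
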