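import Pool.Agent.H646.CR.Conc

set_option autoImplicit false

/-!
# The lemmas

Every statement `S_X` has a paper proof in its docstring.  A subtask (prove `S_X`) means: a module
with a theorem `S_X_holds : S_X` (or with the hypotheses explicitly allowed in the docstring).
-/

namespace Pool.Agent.H646.CR

open MeasureTheory ProbabilityTheory Set Topology TopologicalSpace Filter
open scoped ENNReal

/-- **Topological lemma.**  `R i t s` closed in `s` and, for given `i` and `s`, true for at most one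
`t`.  Then there are a dense sequence `D j` and a dense `G_δ` set `B` such that `R i (D j) s` fails
for all `i, j` and `s ∈ B`.

Proof.  For `i` and a nonempty basic open set `O` (countable basis of `P`) there is at most one `t`
with `O ⊆ {s | R i t s}` (take a point of `O`).  So the set `N` of all `t` such that for some `i`
the closed set `{s | R i t s}` has nonempty interior is countable.  `P = ℕ → Bool` is a Baire space
without isolated points, hence the complement of the countable set `N` is dense; take a countable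
dense subset of it (nonempty) and enumerate it as `D j`.  `B := ⋂ i j, {s | R i (D j) s}ᶜ` is a
countable intersection of dense open sets. -/
def S_topo : Prop :=
  ∀ (ι : Type) [Countable ι] (R : ι → P → P → Prop),
    (∀ i t, IsClosed {s | R i t s}) → (∀ i s t t', R i t s → R i t' s → t = t') →
    ∃ D : ℕ → P, DenseRange D ∧ ∃ B : Set P, IsGδ B ∧ Dense B ∧ ∀ s ∈ B, ∀ i j, ¬ R i (D j) s

/-- **GNS construction** for real positive definite functions on a group.

Proof.  On the real vector space `V = G →₀ ℝ` put the symmetric positive semidefinite form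
`⟪x, y⟫ = ∑ g h, x g * y h * Φ (h * g⁻¹)` (`PreInnerProductSpace.Core` gives a seminormed inner
product space; use a type synonym for `G →₀ ℝ`), `π k (δ g) = δ (g * k⁻¹)` (so `π (k * k') = π k ∘ π k'`),
`ξ = δ 1`.  Then `⟪π k x, π k y⟫ = ⟪x, y⟫`, and `⟪π k ξ, ξ⟫ = ⟪δ k⁻¹, δ 1⟫ = Φ k`. -/
def S_gns : Prop :=
  ∀ (G : Type) [Group G] (Φ : G → ℝ), IsPD Φ →
    ∃ (V : Type) (_ : SeminormedAddCommGroup V) (_ : InnerProductSpace ℝ V)
      (π : G → (V →ₗ[ℝ] V)) (ξ : V),
      (∀ g h v, π (g * h) v = π g (π h v)) ∧ (∀ v, π 1 v = v) ∧ (∀ g v, ‖π g v‖ = ‖v‖) ∧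
      ‖ξ‖ = 1 ∧ ∀ g, inner ℝ (π g ξ) ξ = Φ g

/-- **Relative property (T)** (elementary), Hilbert space form.  Write `e i = c (2 i)`,
`f i = c (2 i + 1)`.

Proof.  `r := 2 / 10 ^ 3`.
Let `X i = (1 + π (e i)) / 2`, `Y i = (1 + π (f i)) / 2`, `X' i = 1 - X i`, `Y' i = 1 - Y i`
(commuting self-adjoint idempotents, `⟪X i v, w⟫ = ⟪v, X i w⟫`).  Define recursively
`O 0 = 1, O (n+1) = O n * X n * Y n`, `Pn 0 = Q 0 = D 0 = 0`,
`Pn (n+1) = Pn n + O n * X' n * Y n`, `Q (n+1) = Q n + O n * X n * Y' n`,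
`D (n+1) = D n + O n * X' n * Y' n`.
(They are the spectral projections of the sets `v x < v y`, `v x > v y`, `v x = v y < n`,
where `v` is the first index with a nonzero digit, all valuations `≥ n` being identified.)
All are commuting self-adjoint idempotents, hence contractions, with `O + Pn + Q + D = 1`.
From the conjugation relations (`π α X n π α⁻¹ = X n`, and `π α Y n π α⁻¹ = (1 + π (e n) π (f n)) / 2`)
we get `π α Pn π α⁻¹ = D` and `π β Q π β⁻¹ = D` (at every level `n`),
and the range of `(Q (n+1) + D (n+1)) - (level 0 part Y' 0)` is mapped by `π γ` into the range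
of `Pn n`: at level `i ≥ 1` (that is, `O i * Y' i`), `γ` maps `O i * Y' i` to a projection below
`O (i-1) * X' (i-1) * Y (i-1)`, because on the range of `O i * Y' i` the element `e (i-1)` acts as
`1` and `f i` as `-1`, so `e (i-1) f i` acts as `-1`, and `γ e (i-1) γ⁻¹ = e (i-1) f i`.
For a self-adjoint idempotent `E` and an isometry `u` with `‖u ξ - ξ‖ ≤ r`:
`|⟪E (u ξ), u ξ⟫ - ⟪E ξ, ξ⟫| ≤ 2 r`.  With `p = ⟪Pn ξ, ξ⟫` etc. we get `|p - d| ≤ 2 r`,
`|q - d| ≤ 2 r`, `q + d ≤ p + 2 r + ⟪Y' 0 ξ, ξ⟫ ≤ p + 3 r`, hence `d ≤ 7 r`, `p, q ≤ 9 r` and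
`o ≥ 1 - 25 r`.  Finally for `i < n` and `a = e i` or `f i`: `π a O n = O n`, so
`⟪π a ξ, ξ⟫ ≥ o - (1 - o) ≥ 1 - 50 r = 9 / 10`. -/
def S_rtH : Prop :=
  ∀ (G : Type) [Group G] (c : ℕ → G) (α β γ : G),
    (∀ i j, c i * c j = c j * c i) → (∀ i, c i * c i = 1) →
    (∀ i, α * c (2 * i) * α⁻¹ = c (2 * i)) →
    (∀ i, α * c (2 * i + 1) * α⁻¹ = c (2 * i) * c (2 * i + 1)) →
    (∀ i, β * c (2 * i) * β⁻¹ = c (2 * i) * c (2 * i + 1)) →
    (∀ i, β * c (2 * i + 1) * β⁻¹ = c (2 * i + 1)) →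
    (∀ i, γ * c (2 * i) * γ⁻¹ = c (2 * i) * c (2 * i + 3)) →
    (∀ i, γ * c (2 * i + 1) * γ⁻¹ = c (2 * i + 1)) →
    ∀ (V : Type) [SeminormedAddCommGroup V] [InnerProductSpace ℝ V]
      (π : G → (V →ₗ[ℝ] V)) (ξ : V),
      (∀ g h v, π (g * h) v = π g (π h v)) → (∀ v, π 1 v = v) → (∀ g v, ‖π g v‖ = ‖v‖) →
      ‖ξ‖ = 1 → ‖π α ξ - ξ‖ ≤ 2 / 10 ^ 3 → ‖π β ξ - ξ‖ ≤ 2 / 10 ^ 3 →
      ‖π γ ξ - ξ‖ ≤ 2 / 10 ^ 3 → ‖π (c 1) ξ - ξ‖ ≤ 2 / 10 ^ 3 →
      ∀ n, 9 / 10 ≤ inner ℝ (π (c n) ξ) ξ

/-- **Relative property (T)**: consequence of `S_gns` and `S_rtH` (owner). -/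
def S_rt : Prop :=
  ∀ (G : Type) [Group G] (c : ℕ → G) (α β γ : G),
    (∀ i j, c i * c j = c j * c i) → (∀ i, c i * c i = 1) →
    (∀ i, α * c (2 * i) * α⁻¹ = c (2 * i)) →
    (∀ i, α * c (2 * i + 1) * α⁻¹ = c (2 * i) * c (2 * i + 1)) →
    (∀ i, β * c (2 * i) * β⁻¹ = c (2 * i) * c (2 * i + 1)) →
    (∀ i, β * c (2 * i + 1) * β⁻¹ = c (2 * i + 1)) →
    (∀ i, γ * c (2 * i) * γ⁻¹ = c (2 * i) * c (2 * i + 3)) →
    (∀ i, γ * c (2 * i + 1) * γ⁻¹ = c (2 * i + 1)) →
    ∀ Φ : G → ℝ, IsPD Φ → 1 - 2 / 10 ^ 6 ≤ Φ α → 1 - 2 / 10 ^ 6 ≤ Φ β →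
      1 - 2 / 10 ^ 6 ≤ Φ γ → 1 - 2 / 10 ^ 6 ≤ Φ (c 1) → ∀ n, 9 / 10 ≤ Φ (c n)

/-- **Approximation of Borel functions by continuous functions from the countable family.**

Proof.  Choose `N` with `μ {f > N}` at most `ε / 2`, put `f' = min f N` (bounded, measurable).
Bounded continuous functions are dense in `L¹ (μ)` (`MemLp.exists_boundedContinuous_eLpNorm_sub_le`
or `Integrable.exists_boundedContinuous_integral_sub_le`): take a continuous `g` with
`∫ |g - f'| ≤ ε / 16`, and `l` with `‖dn X l - g‖ ≤ 1 / 8` (`denseRange_denseSeq`).  By Markov's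
inequality `μ {|g - f'| > 1 / 8} ≤ ε / 2`. -/
def S_approx : Prop :=
  ∀ (X : Type) [TopologicalSpace X] [CompactSpace X] [MetrizableSpace X] [MeasurableSpace X]
    [BorelSpace X] (μ : Measure X), IsProbabilityMeasure μ → ∀ f : X → ℕ, Measurable f →
    ∀ ε : ℝ, 0 < ε → ∃ l : ℕ, μ {x | 1 / 4 < |dn X l x - f x|} ≤ ENNReal.ofReal ε

/-- **Piecewise maps preserve the measure.**

Proof.  Let `A n` be the set of `x ∈ X1` such that `n` is least with `φ x = en G n • x` (measurable,
the `A n` partition `X1`).  `(map φ μ) D = ∑ n, μ (A n ∩ {x | en G n • x ∈ D})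
= ∑ n, μ (en G n • A n ∩ D) ≤ μ D`, because the sets `en G n • A n = φ '' A n` are
measurable (preimages of `A n` under the inverse) and disjoint (`φ` is injective on `X1`).  So `map φ μ ≤ μ`, and
both are probability measures. -/
def S_pw : Prop :=
  ∀ (X : Type) [MeasurableSpace X] [StandardBorelSpace X] (G : Type) [Group G] [Countable G]
    [MulAction G X], (∀ g : G, Measurable fun x : X => g • x) →
    ∀ μ : Measure X, IsProbabilityMeasure μ → (∀ g : G, Measure.map (fun x => g • x) μ = μ) →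
    ∀ (φ : X → X) (X1 : Set X), Measurable φ → MeasurableSet X1 → μ X1ᶜ = 0 → InjOn φ X1 →
      (∀ x ∈ X1, ∃ g : G, φ x = g • x) → Measure.map φ μ = μ

/-- **Upper semicontinuity.**  Proof: `F` is an intersection of a decreasing sequence of continuous
functions `thickenedIndicator`; or `ProbabilityMeasure.limsup_measure_closed_le_of_tendsto`. -/
def S_usc : Prop :=
  ∀ (Z : Type) [TopologicalSpace Z] [CompactSpace Z] [MetrizableSpace Z] [MeasurableSpace Z]
    [BorelSpace Z] (F : Set Z) (a : ℝ≥0∞), IsClosed F →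
    IsClosed {η : ProbabilityMeasure Z | a ≤ (η : Measure Z) F}

section

/-- **Closedness on the side of the system** (`S_usc` may be assumed).

Proof.  `P × ProbabilityMeasure (St G K)` is compact (instance in
`Mathlib.MeasureTheory.Measure.Prokhorov`), so it is enough to show that the set of all `(s, η)`
with `RelW lam q Q l l' t s η` is closed (then take the image under the first projection, a compact
set).  `lab_one`, `lab_uniq`: the events are clopen.  `marg`: `η ↦ η.map fst` is continuous,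
`s ↦ (dirac s).prod lam` is continuous, the space of probability measures is `T2`.  `par`: the event
`{ω | ω.2.1.1 = t}` is closed, use `S_usc` with `a = 1`.  `gen`, `dig`: the sets `FX`, `HX` are
closed (`dn` is bounded, so the union over `m` in `FX` is finite), use `S_usc`.  `inv`: equivalent
to the equality of the integrals of all bounded continuous functions `f` against the two finite
measures `(η.restrict {ω | ω.2.2 g u = true}).map (T g u)` and
`η.restrict {ω | ω.2.2 g⁻¹ u⁻¹ = true}` (`ext_of_forall_integral_eq_of_IsFiniteMeasure`), i.e. of the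
integrals against `η` of the continuous functions `1_{ω.2.2 g u} * f ∘ T g u` and
`1_{ω.2.2 g⁻¹ u⁻¹} * f` (the indicators are continuous, the events being clopen). -/
def S_closed : Prop :=
  ∀ (G K : Type) [Group G] [Countable G] [TopologicalSpace K] [CompactSpace K]
    [MetrizableSpace K] [MeasurableSpace K] [BorelSpace K]
    [MulAction G (P × K)] [ContinuousConstSMul G (P × K)]
    (lam : Measure K) (q : P × K → Bool) (c : ℕ → G) (Q : Fin 4 → G) (X0 : Set (P × K)),
    IsSys G K lam q c Q X0 → ∀ (l : Fin 4 → ℕ) (l' : ℕ) (t : P),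
      IsClosed {s | Rel lam q Q l l' t s}

/-- **Existence of the coupling.**

Proof.  `W = (P × K) × Lab G` is standard Borel; let `ν = map fst η`, `κ = η.condKernel`,
`κ' = η'.condKernel`, and `C = ν ⊗ₘ (κ ×ₖ κ')`.  The marginals are clear, and `one`, `uniq` follow
from them.  For `g, u` put `U = {w | w.2 g u = true}`, `U' = {w | w.2 g⁻¹ u⁻¹ = true}` and
`τ w = (g • w.1, shL g u w.2)`.  Claim: for `ν`-a.e. `x`,
`((κ x).restrict U).map τ = (κ (u • x)).restrict U'`, and the same for `κ'`.  Indeed for measurable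
`A, D`: `∫ x in A, κ x (U ∩ τ⁻¹ D) ∂ν = η (A ×ˢ (U ∩ τ⁻¹ D)) = η ({ω.2.2 g u} ∩ T g u ⁻¹' (uA ×ˢ D))
= η ({ω.2.2 g⁻¹ u⁻¹} ∩ (uA ×ˢ D)) = ∫ x in uA, κ x (U' ∩ D) ∂ν = ∫ x in A, κ (u • x) (U' ∩ D) ∂ν`
(invariance of `ν`); so the two finite kernels `(κ.restrict U).map τ` and
`(κ.restrict U').comap (u • ·)` have the same composition-product with `ν`:
`Kernel.ae_eq_of_compProd_eq`.  Integrating the product measures gives `inv`:
`C (Û ∩ TC⁻¹ D) = ∫ ((κ x|U).map τ).prod ((κ' x|U).map τ) {w | (u • x, w) ∈ D} ∂ν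
= ∫ (κ (u • x)|U').prod (κ' (u • x)|U') {w | (u • x, w) ∈ D} ∂ν = C (Û' ∩ D)`. -/
def S_coup : Prop :=
  ∀ (G K : Type) [Group G] [Countable G] [TopologicalSpace K] [CompactSpace K]
    [MetrizableSpace K] [MeasurableSpace K] [BorelSpace K]
    [MulAction G (P × K)] [ContinuousConstSMul G (P × K)] (η η' : Measure (St G K)),
    W0 η → W0 η' → Measure.map Prod.fst η = Measure.map Prod.fst η' →
    (∀ u : G, Measure.map (fun x => u • x) (Measure.map Prod.fst η) = Measure.map Prod.fst η) →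
    ∃ C : Measure (Cp G K), CW C ∧
      Measure.map (fun ω : Cp G K => ((ω.1, ω.2.1) : St G K)) C = η ∧
      Measure.map (fun ω : Cp G K => ((ω.1, ω.2.2) : St G K)) C = η'

/-- **Positive definiteness of the agreement function.**

Proof.  Let `N h` be the event `∃ u, L h u ∧ L' h u` (`L = ω.2.1.2`, `L' = ω.2.2.2`); the `u` is a.s.
unique.  Given `g : Fin n → G`, `a : Fin n → ℝ`, let `S i (ω) = {j | N (g j * (g i)⁻¹)}`
(a `Finset (Fin n)`), which contains `i` a.s.  Claim: `C (S i = S) = C (S k = S)` if `i, k ∈ S`.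
With `h = g k * (g i)⁻¹`: the event `S i = S` is contained in `N h`, so it is the disjoint (a.s.)
union over `u` of `{L h u ∧ L' h u} ∩ {S i = S}`, and on `{L h u ∧ L' h u}` one has
`S k ∘ TC h u = S i` (as `(shL h u L) (g j * (g k)⁻¹) w = L (g j * (g i)⁻¹) (w * u)`).  Apply `inv` with
`D = {S k = S}` and sum over `u` (`h⁻¹ = g i * (g k)⁻¹`, `i ∈ S`).
Now `∑ i j, a i a j Φ (g j * (g i)⁻¹) = ∑ i, a i ∑ S, C (S i = S) ∑ j ∈ S, a j
= ∑ S, p S * (∑ j ∈ S, a j) ^ 2 ≥ 0`, where `p S` is the common value of `C (S i = S)`, `i ∈ S`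
(and `C (S i = S) = 0` if `i ∉ S`).  `one`: from `one₁`, `one₂`.  `symm`: `inv` with `D = univ`,
summed over `u`. -/
def S_pd : Prop :=
  ∀ (G K : Type) [Group G] [Countable G] [TopologicalSpace K] [CompactSpace K]
    [MetrizableSpace K] [MeasurableSpace K] [BorelSpace K]
    [MulAction G (P × K)] [ContinuousConstSMul G (P × K)] (C : Measure (Cp G K)), CW C →
    IsPD fun g : G =>
      (C {ω | ∃ u : G, ω.2.1.2 g u = true ∧ ω.2.2.2 g u = true}).toReal

/-- **Uniqueness** (`S_coup`, `S_pd` may be assumed).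

Proof.  Let `η, η'` witness the two relations, `C` the coupling (`marg` and `pres`, `fst_smul` give
the hypotheses).  `Φ` as in `S_pd`.  On `FX (l i) (Q i)` (for both) the labels agree: the integer
`m` with `|dn _ x - m| ≤ 1 / 4` is unique.  So `Φ (Q i) ≥ 1 - 2 / 10 ^ 6`, and `rt` gives
`Φ (c n) ≥ 9 / 10` for all `n`.  If `t ≠ t'` take `n` with `t n ≠ t' n` and `a = c n`.  Let
`H x = decide (1 / 2 < dn _ l' x)`; on `HX q l'` we have `H x = q x'` (`x = ω.1`, `x' = ω.2.1`).
Under `η` the event `∃ u, L a u ∧ H (u • x) ≠ q (a • x')` has measure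
`≤ ∑ u, η ({L a u} ∩ T a u ⁻¹' Bad) = ∑ u, η ({L a⁻¹ u⁻¹} ∩ Bad) ≤ η Bad ≤ 1 / 10 ^ 6` with
`Bad = {H x ≠ q x'}` (labels are a.s. unique).  The same for `η'`.  So with positive probability
under `C` there is `u` with `L a u`, `L' a u`,
`H (u • x) = q (a • x') = xor (t n) (q x') = xor (t n) (H x)` and
`H (u • x) = xor (t' n) (H x)`: contradiction. -/
def S_uniq : Prop :=
  ∀ (G K : Type) [Group G] [Countable G] [TopologicalSpace K] [CompactSpace K]
    [MetrizableSpace K] [MeasurableSpace K] [BorelSpace K]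
    [MulAction G (P × K)] [ContinuousConstSMul G (P × K)]
    (lam : Measure K) (q : P × K → Bool) (c : ℕ → G) (Q : Fin 4 → G) (X0 : Set (P × K)),
    IsSys G K lam q c Q X0 → ∀ (l : Fin 4 → ℕ) (l' : ℕ) (t t' s : P),
      Rel lam q Q l l' t s → Rel lam q Q l l' t' s → t = t'

/-- **Closedness on the side of the realization** (`S_usc` may be assumed).  Proof as for
`S_closed`: the set of all `(d, ζ)` with `LimW Λ q Q l l' d ζ` is closed in
`P × ProbabilityMeasure ((P × K) × (G → Y))`; `inv`, `marg`: maps of probability measures under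
continuous maps are continuous; `par`: equivalent to
`map (fun ω => ω.1.1) ζ = dirac d`, and `d ↦ dirac d` is continuous (or: for each `n` the set
`ω.1.1 n = d n` is clopen, locally constant in `d`). -/
def S_ycl : Prop :=
  ∀ (G K : Type) [Group G] [Countable G] [TopologicalSpace K] [CompactSpace K]
    [MetrizableSpace K] [MeasurableSpace K] [BorelSpace K]
    [MulAction G (P × K)] [ContinuousConstSMul G (P × K)]
    (q : P × K → Bool) (Q : Fin 4 → G)
    (Λ Y : Type) [Group Λ] [Countable Λ] [TopologicalSpace Y] [CompactSpace Y]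
    [MetrizableSpace Y] [MeasurableSpace Y] [BorelSpace Y] [MulAction Λ Y]
    [ContinuousConstSMul Λ Y],
    Continuous q → ∀ (l : Fin 4 → ℕ) (l' : ℕ),
      IsClosed {d | ∃ ζ : Measure ((P × K) × (G → Y)), LimW Λ q Q l l' d ζ}

/-- **Existence of the processes for `s ∈ B`** (`S_approx`, `S_pw` may be assumed).

Proof.  `ζ = map (fun x => (x, fun g => Θ (g • x))) (mu lam s)`.  `inv`: `mu lam s` is `G`-invariant.
`marg`: for `w : Λ` the map `φ x = Ξ (w • Θ x)` on `P × K` satisfies the hypotheses of `S_pw` for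
`X1 = {x ∈ X0 | x.1 = s}` (or `x.1 ∈ B`): `w • Θ x ∈ Y0`, so `Θ (φ x) = w • Θ x`, injectivity is clear and
`φ x ∈ G x` by `orb`; hence `map φ μ = μ` and `map (w • Θ ·) μ = map (Θ ∘ φ) μ = map Θ μ`.
`gen`: let `f y` be the least `m` with `Θ (Q i • Ξ y) = en Λ m • y` (`0` if there is none), a Borel
function; `S_approx` for `map Θ μ` gives `l i`.  `dig`: `f y = if q (Ξ y) then 1 else 0`. -/
def S_yex : Prop :=
  ∀ (G K : Type) [Group G] [Countable G] [TopologicalSpace K] [CompactSpace K]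
    [MetrizableSpace K] [MeasurableSpace K] [BorelSpace K]
    [MulAction G (P × K)] [ContinuousConstSMul G (P × K)]
    (lam : Measure K) (q : P × K → Bool) (c : ℕ → G) (Q : Fin 4 → G) (X0 : Set (P × K)),
    IsSys G K lam q c Q X0 →
    ∀ (Λ Y : Type) [Group Λ] [Countable Λ] [TopologicalSpace Y] [CompactSpace Y]
    [MetrizableSpace Y] [MeasurableSpace Y] [BorelSpace Y] [MulAction Λ Y]
    [ContinuousConstSMul Λ Y] (B : Set P) (Θ : P × K → Y) (Ξ : Y → P × K) (Y0 : Set Y),
    IsReal Λ Y G X0 B Θ Ξ Y0 → MeasurableSet B →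
    ∀ s ∈ B, ∃ (l : Fin 4 → ℕ) (l' : ℕ) (ζ : Measure ((P × K) × (G → Y))),
      LimW Λ q Q l l' s ζ

/-- The processes obtained from a limit process, before disintegration. -/
def Pre {G K : Type} [Group G] [Countable G] [TopologicalSpace K] [CompactSpace K]
    [MetrizableSpace K] [MeasurableSpace K] [BorelSpace K]
    [MulAction G (P × K)] [ContinuousConstSMul G (P × K)]
    (lam : Measure K) (q : P × K → Bool) (Q : Fin 4 → G) (B : Set P) (l : Fin 4 → ℕ) (l' : ℕ)
    (d : P) : Prop :=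
  ∃ η : Measure (St G K), W0 η ∧ η {ω | ω.2.1.1 ≠ d} = 0 ∧ η {ω | ω.1.1 ∉ B} = 0 ∧
    Measure.map Prod.fst η = (Measure.map (fun ω : St G K => ω.1.1) η).prod lam ∧
    (∀ i, ENNReal.ofReal (1 - 2 / 10 ^ 8) ≤ η (FX (l i) (Q i))) ∧
    ENNReal.ofReal (1 - 2 / 10 ^ 8) ≤ η (HX q l')

/-- The labelled process of a process in the realization. -/
noncomputable def tr {G K Y : Type} [Group G] [MulAction G (P × K)]
    (Ξ : Y → P × K) (ω : (P × K) × (G → Y)) : St G K :=
  (Ξ (ω.2 1), (ω.1, fun g u => @decide (Ξ (ω.2 g) = u • Ξ (ω.2 1)) (Classical.propDecidable _)))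

/-- Measurability of `tr` (`measurableSet_eq_fun` in the second countable Hausdorff space
`P × K`). -/
def S_trm : Prop :=
  ∀ (G K : Type) [Group G] [Countable G] [TopologicalSpace K] [CompactSpace K]
    [MetrizableSpace K] [MeasurableSpace K] [BorelSpace K]
    [MulAction G (P × K)] [ContinuousConstSMul G (P × K)]
    (Y : Type) [MeasurableSpace Y] (Ξ : Y → P × K), Measurable Ξ →
    Measurable (tr (G := G) Ξ)

/-- **Transfer, a: the labelled process satisfies `W0`** (`S_trm` may be assumed).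

Proof.  Write `ω = (x', z)`, `ρ = map (fun ω => ω.2 1) ζ`.  `ρ` is `Λ`-invariant (`marg`), so
`ρ Y0ᶜ = 0` (`full`), so a.s. `Ξ (z 1) ∈ X0` (`ΞX`).  `lab_one` is clear; `lab_uniq` from `X0_free`;
`inv`: let `R = (g • x', fun h => z (h * g))` (the map of `LimW.inv`); for the labels `L` of
`(x', z)` and `L_R` of `R`: `L_R g⁻¹ u⁻¹ = true ↔ L g u = true`, and then
`tr Ξ R = T g u (tr Ξ (x', z))`; now use `inv` of `ζ`. -/
def S_tr1a : Prop :=
  ∀ (G K : Type) [Group G] [Countable G] [TopologicalSpace K] [CompactSpace K]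
    [MetrizableSpace K] [MeasurableSpace K] [BorelSpace K]
    [MulAction G (P × K)] [ContinuousConstSMul G (P × K)]
    (lam : Measure K) (q : P × K → Bool) (c : ℕ → G) (Q : Fin 4 → G) (X0 : Set (P × K)),
    IsSys G K lam q c Q X0 →
    ∀ (Λ Y : Type) [Group Λ] [Countable Λ] [TopologicalSpace Y] [CompactSpace Y]
    [MetrizableSpace Y] [MeasurableSpace Y] [BorelSpace Y] [MulAction Λ Y]
    [ContinuousConstSMul Λ Y] (B : Set P) (Θ : P × K → Y) (Ξ : Y → P × K) (Y0 : Set Y),
    IsReal Λ Y G X0 B Θ Ξ Y0 → MeasurableSet B →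
    ∀ (l : Fin 4 → ℕ) (l' : ℕ) (d : P) (ζ : Measure ((P × K) × (G → Y))),
      LimW Λ q Q l l' d ζ →
      W0 (Measure.map (tr (G := G) Ξ) ζ)

/-- **Transfer, b: the marginal** (`S_pw` may be assumed).

Proof.  Let `ρ = map (fun ω => ω.2 1) ζ` (`Λ`-invariant by `marg`, so `ρ Y0ᶜ = 0` by `full`).  The
measure `ρX = map Ξ ρ` is `G`-invariant: for `g : G` the map `φ y = Θ (g • Ξ y)` satisfies the
hypotheses of `S_pw` for the action of `Λ` on `(Y, ρ)` and `X1 = Y0` (injective: apply `Ξ`; `φ y` is in the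
orbit of `y` by `orb`), and `Ξ (φ y) = g • Ξ y` on `Y0`.  `ρX` is concentrated on `X0` and on
`{x | x.1 ∈ B}` by `ΞX`; `X0_ue` gives the product formula. -/
def S_tr1b : Prop :=
  ∀ (G K : Type) [Group G] [Countable G] [TopologicalSpace K] [CompactSpace K]
    [MetrizableSpace K] [MeasurableSpace K] [BorelSpace K]
    [MulAction G (P × K)] [ContinuousConstSMul G (P × K)]
    (lam : Measure K) (q : P × K → Bool) (c : ℕ → G) (Q : Fin 4 → G) (X0 : Set (P × K)),
    IsSys G K lam q c Q X0 →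
    ∀ (Λ Y : Type) [Group Λ] [Countable Λ] [TopologicalSpace Y] [CompactSpace Y]
    [MetrizableSpace Y] [MeasurableSpace Y] [BorelSpace Y] [MulAction Λ Y]
    [ContinuousConstSMul Λ Y] (B : Set P) (Θ : P × K → Y) (Ξ : Y → P × K) (Y0 : Set Y),
    IsReal Λ Y G X0 B Θ Ξ Y0 → MeasurableSet B →
    ∀ (l : Fin 4 → ℕ) (l' : ℕ) (d : P) (ζ : Measure ((P × K) × (G → Y))),
      LimW Λ q Q l l' d ζ →
      Measure.map (fun ω : (P × K) × (G → Y) => Ξ (ω.2 1)) ζ =
        (Measure.map (fun ω : (P × K) × (G → Y) => (Ξ (ω.2 1)).1) ζ).prod lam ∧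
      ζ {ω | (Ξ (ω.2 1)).1 ∉ B} = 0

/-- **Transfer, c: the continuous data on the side of the system** (`S_approx`, `S_trm` may be
assumed).

Proof.  `ρ = map (fun ω => ω.2 1) ζ` satisfies `ρ Y0ᶜ = 0` (`marg` and `full`), and by `inv` a.s.
`z g ∈ Y0` for every `g` (`z = ω.2`).  Let `ρX = map Ξ ρ`, the law of `x = Ξ (z 1)`, and note
`Θ x = z 1` a.s.  Let `m x = ⌊dn Y (l i) (Θ x) + 1 / 2⌋₊` and `θ x` the least `k` with
`en G k • x = Ξ (en Λ (m x) • Θ x)` (`0` if there is none), a Borel function `P × K → ℕ`.  On the event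
`FY Λ (l i) (Q i)` (and `z 1, z (Q i) ∈ Y0`) we have `z (Q i) = en Λ (m x) • z 1`, so by `orb` such a `k`
exists and the label array of `tr Ξ ω` satisfies `L (Q i) (en G (θ x)) = true`.  `S_approx` for
`ρX`, `θ`, `ε = 1 / 10 ^ 8` gives the index `k i`.  For the digit: on `HY q l'` we have
`q x' = decide (1 / 2 < dn Y l' (Θ x))`; apply `S_approx` to the function `if 1 / 2 < dn Y l' (Θ x) then 1 else 0`. -/
def S_tr1c : Prop :=
  ∀ (G K : Type) [Group G] [Countable G] [TopologicalSpace K] [CompactSpace K]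
    [MetrizableSpace K] [MeasurableSpace K] [BorelSpace K]
    [MulAction G (P × K)] [ContinuousConstSMul G (P × K)]
    (lam : Measure K) (q : P × K → Bool) (c : ℕ → G) (Q : Fin 4 → G) (X0 : Set (P × K)),
    IsSys G K lam q c Q X0 →
    ∀ (Λ Y : Type) [Group Λ] [Countable Λ] [TopologicalSpace Y] [CompactSpace Y]
    [MetrizableSpace Y] [MeasurableSpace Y] [BorelSpace Y] [MulAction Λ Y]
    [ContinuousConstSMul Λ Y] (B : Set P) (Θ : P × K → Y) (Ξ : Y → P × K) (Y0 : Set Y),
    IsReal Λ Y G X0 B Θ Ξ Y0 → MeasurableSet B →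
    ∀ (l : Fin 4 → ℕ) (l' : ℕ) (d : P) (ζ : Measure ((P × K) × (G → Y))),
      LimW Λ q Q l l' d ζ → ∃ (k : Fin 4 → ℕ) (k' : ℕ),
      (∀ i, ENNReal.ofReal (1 - 2 / 10 ^ 8) ≤ (Measure.map (tr (G := G) Ξ) ζ) (FX (k i) (Q i))) ∧
      ENNReal.ofReal (1 - 2 / 10 ^ 8) ≤ (Measure.map (tr (G := G) Ξ) ζ) (HX q k')

/-- **Disintegration.**

Proof.  Let `m = map (fun ω => ω.1.1) η`, a probability measure on `P` with `m Bᶜ = 0`.  Write
`St G K = P × Ω` (`Ω = K × ((P × K) × Lab G)`, standard Borel) and let `κ` be the conditional kernel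
`P → Ω` of `η`.  For `m`-a.e. `s` the measure `κ s` (put on the fibre over `s`) satisfies: `lab_one`,
`lab_uniq`, `ω.2.1.1 = d` (null sets); marginal on `K` equal to `lam` (both `κ.map fst` and the
constant kernel have the same composition-product with `m`, `Kernel.ae_eq_of_compProd_eq`); `inv`
for all `g, u` (`T g u` preserves the first coordinate `s` by `fst_smul`; compare the kernels
`P → St G K` `s ↦ ((δ_s × κ s).restrict {L g u}).map (T g u)` and `s ↦ (δ_s × κ s).restrict {L g⁻¹ u⁻¹}`).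
The total failure `F s = ∑ i, κ s (FX (l i) (Q i))ᶜ + κ s (HX q l')ᶜ` has `∫ F ∂m ≤ 5 * 2 / 10 ^ 8`,
so `F s ≤ 1 / 10 ^ 6` on a set of positive `m`-measure; choose such an `s ∈ B` with all the a.e.
properties. -/
def S_tr2 : Prop :=
  ∀ (G K : Type) [Group G] [Countable G] [TopologicalSpace K] [CompactSpace K]
    [MetrizableSpace K] [MeasurableSpace K] [BorelSpace K]
    [MulAction G (P × K)] [ContinuousConstSMul G (P × K)]
    (lam : Measure K) (q : P × K → Bool) (c : ℕ → G) (Q : Fin 4 → G) (X0 : Set (P × K)),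
    IsSys G K lam q c Q X0 → ∀ B : Set P, MeasurableSet B →
    ∀ (l : Fin 4 → ℕ) (l' : ℕ) (d : P), Pre lam q Q B l l' d → ∃ s ∈ B, Rel lam q Q l l' d s

end

/-! ### The concrete system -/

/-- The relations of the concrete group.  (`SemidirectProduct.inl_aut`; the automorphisms `auts`.) -/
def S_grp : Prop :=
  (∀ i j, cc i * cc j = cc j * cc i) ∧ (∀ i, cc i * cc i = 1) ∧
  (∀ i, QQ 0 * cc (2 * i) * (QQ 0)⁻¹ = cc (2 * i)) ∧
  (∀ i, QQ 0 * cc (2 * i + 1) * (QQ 0)⁻¹ = cc (2 * i) * cc (2 * i + 1)) ∧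
  (∀ i, QQ 1 * cc (2 * i) * (QQ 1)⁻¹ = cc (2 * i) * cc (2 * i + 1)) ∧
  (∀ i, QQ 1 * cc (2 * i + 1) * (QQ 1)⁻¹ = cc (2 * i + 1)) ∧
  (∀ i, QQ 2 * cc (2 * i) * (QQ 2)⁻¹ = cc (2 * i) * cc (2 * i + 3)) ∧
  (∀ i, QQ 2 * cc (2 * i + 1) * (QQ 2)⁻¹ = cc (2 * i + 1))

/-- Haar measure: probability, invariance of the fibre action (a coordinate permutation, which is a
continuous automorphism of the compact group, followed by a translation), and orthogonality:
`∫ chi S = 0` for `S ≠ ∅` (translate by one coordinate vector); a finite measure on `KK` is determined by its character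
integrals (the indicator of a cylinder set is a linear combination of characters; cylinder sets
form a π-system); `chi (S) * chi (S') = chi (S ∆ S')`. -/
def S_haar : Prop :=
  IsProbabilityMeasure lamK ∧
  (∀ (h : GG) (s : P), Measure.map (actK h s) lamK = lamK) ∧
  (∀ S : Finset (F3 ⊕ GG), S.Nonempty → ∫ k, chi S k ∂lamK = 0) ∧
  (∀ m₁ m₂ : Measure KK, IsFiniteMeasure m₁ → IsFiniteMeasure m₂ →
    (∀ S, ∫ k, chi S k ∂m₁ = ∫ k, chi S k ∂m₂) → m₁ = m₂)

/-- `XX0` is measurable and invariant. -/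
def S_X0a : Prop :=
  MeasurableSet XX0 ∧ ∀ (g : GG) (x : P × KK), x ∈ XX0 → g • x ∈ XX0

/-- Almost every point of each fibre has trivial stabilizer (`S_haar` may be assumed).

Proof.  Let `h ≠ 1`.  If `h • (s, k) = (s, k)` then `k (inr (g * h)) = k (inr g)` for all `g`.  The
set of such `k` is a closed subgroup `H` of `KK`; it has infinite index: choose an infinite set `J`
of elements `g` with `g' ≠ g * h` for all `g, g' ∈ J` (greedily, `GG` is infinite); for distinct
`g, g' ∈ J` the vector `e_{inr g} + e_{inr g'}` is not in `H`, so the translates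
`H + e_{inr g}`, `g ∈ J`, are disjoint and have the same measure, which must be `0`. -/
def S_X0b : Prop := ∀ (g : GG) (s : P), g ≠ 1 → lamK {k | g • ((s, k) : P × KK) = (s, k)} = 0

/-- Almost every point of each fibre is generic (`S_haar` may be assumed).

Proof.  `chi S ((g0 ^ j * h) • (s, k)).2 = ± chi (S_j) k` with a sign independent of `k` and
`S_j = {i • (g0 ^ j * h) | i ∈ S}` (right multiplication on both kinds of indices).  The sets `S_j`
are distinct for distinct `j`: use the homomorphism `F3 → ℤ` sending the generator `0` to `1` and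
the others to `0`, extended to `GG` by the projection: it adds `|S| * j` to the sum of the heights
over `S` (up to the
contribution of `h`).  So the functions are orthonormal in `L² (lamK)`, the averages `M_n` over
`j < n ^ 2` have `∫ M_n ^ 2 = 1 / n ^ 2`, summable, hence `M_n → 0` a.e. -/
def S_X0c : Prop :=
  ∀ (s : P) (h : GG) (S : Finset (F3 ⊕ GG)), S.Nonempty →
    ∀ᵐ k ∂lamK, Tendsto (fun n : ℕ =>
      (∑ j ∈ Finset.range (n ^ 2), chi S ((g0 ^ j * h) • ((s, k) : P × KK)).2) / (n : ℝ) ^ 2)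
        atTop (𝓝 0)

/-- Unique ergodicity over the parameter space (`S_haar` may be assumed).

Proof.  For a measurable set `A' ⊆ P` and `S ≠ ∅`, by invariance of `ρ` under `g0 ^ j` and of the
first coordinate, `∫ 1_{A'} (x.1) chi S x.2 ∂ρ = ∫ 1_{A'} (x.1) chi S ((g0 ^ j • x).2) ∂ρ` for all
`j`; average over `j < n ^ 2` and let `n → ∞` (dominated convergence, `h = 1` in `XX0`): it is
`0 = (ρ (A' × K)) * ∫ chi S ∂lamK`.  So the finite measures `D ↦ ρ (A' ×ˢ D)` and
`D ↦ ρ (A' ×ˢ univ) * lamK D` have the same character integrals. -/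
def S_X0d : Prop :=
  ∀ ρ : Measure (P × KK), IsProbabilityMeasure ρ →
    (∀ g : GG, Measure.map (fun x => g • x) ρ = ρ) → ρ XX0ᶜ = 0 →
    ρ = (Measure.map Prod.fst ρ).prod lamK

end Pool.Agent.H646.CR
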