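import Pool.Agent.H646.CR.Conc
import Pool.Agent.H646.CR.Stm

set_option autoImplicit false

/-! S_haar for project CR (helper646). -/

namespace Pool.Agent.H233.CR

open MeasureTheory Set Topology Filter Pool.Agent.H646.CR

instance : IsProbabilityMeasure lamK := by
  constructor
  have h := Measure.addHaarMeasure_self (K₀ := (⊤ : TopologicalSpace.PositiveCompacts KK))
  rw [TopologicalSpace.PositiveCompacts.coe_top] at h
  exact h

instance : lamK.IsAddHaarMeasure := by
  unfold lamK
  infer_instance

/-- right translation of the indices -/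
noncomputable def sig (h : GG) : F3 ⊕ GG ≃ F3 ⊕ GG := Equiv.sumCongr (Equiv.mulRight h.right) (Equiv.mulRight h)

/-- the translation vector -/
noncomputable def vec (h : GG) (s : P) : KK := Sum.elim (fun f => cy s h f) (fun _ => 0)

theorem actK_eq (h : GG) (s : P) : actK h s = fun k => (fun i => k (sig h i)) + vec h s := by
  funext k i
  rcases i with f | g
  · rfl
  · show k (Sum.inr (g * h)) = k (Sum.inr (g * h)) + 0
    rw [add_zero]

/-- permutation of the coordinates -/
noncomputable def perm (σ : F3 ⊕ GG ≃ F3 ⊕ GG) : KK ≃+ KK where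
  toFun k := fun i => k (σ i)
  invFun k := fun i => k (σ.symm i)
  left_inv k := by funext i; simp
  right_inv k := by funext i; simp
  map_add' a b := rfl

theorem map_perm (σ : F3 ⊕ GG ≃ F3 ⊕ GG) : Measure.map (perm σ) lamK = lamK := by
  have h1 : Continuous (perm σ) := continuous_pi fun i => continuous_apply _
  have h2 : Continuous (perm σ).symm := continuous_pi fun i => continuous_apply _
  have h3 : (Measure.map (perm σ) lamK).IsAddHaarMeasure :=
    AddEquiv.isAddHaarMeasure_map lamK (perm σ) h1 h2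
  have h4 : IsProbabilityMeasure (Measure.map (perm σ) lamK) :=
    Measure.isProbabilityMeasure_map h1.measurable.aemeasurable
  exact Measure.isAddHaarMeasure_eq_of_isProbabilityMeasure _ _

theorem map_act (h : GG) (s : P) : Measure.map (actK h s) lamK = lamK := by
  rw [actK_eq]
  have h1 : Measurable (perm (sig h)) := (continuous_pi fun i => continuous_apply _ :
    Continuous (perm (sig h))).measurable
  have h2 : (fun k : KK => (fun i => k (sig h i)) + vec h s) =
      (fun k => k + vec h s) ∘ perm (sig h) := rfl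
  rw [h2, ← Measure.map_map (measurable_add_const _) h1, map_perm, map_add_right_eq_self]

theorem chi_add (S : Finset (F3 ⊕ GG)) (i : F3 ⊕ GG) (hi : i ∈ S) (k : KK) :
    chi S (k + Pi.single i 1) = -chi S k := by
  unfold chi
  rw [← Finset.mul_prod_erase S _ hi, ← Finset.mul_prod_erase S _ hi]
  have h1 : ∏ j ∈ S.erase i, (if (k + Pi.single i 1 : KK) j = 0 then (1 : ℝ) else -1) =
      ∏ j ∈ S.erase i, (if k j = 0 then (1 : ℝ) else -1) := by
    refine Finset.prod_congr rfl fun j hj => ?_
    have hne : j ≠ i := Finset.ne_of_mem_erase hj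
    rw [Pi.add_apply, Pi.single_eq_of_ne hne, add_zero]
  rw [h1, ← neg_mul]
  congr 1
  rw [Pi.add_apply, Pi.single_eq_same]
  have h2 : ∀ x : ZMod 2, (if x + 1 = 0 then (1 : ℝ) else -1) = -(if x = 0 then (1 : ℝ) else -1) := by
    intro x
    fin_cases x
    · have h3 : ¬ ((0 : ZMod 2) + 1 = 0) := by decide
      show (if (0 : ZMod 2) + 1 = 0 then (1 : ℝ) else -1) =
        -(if (0 : ZMod 2) = 0 then (1 : ℝ) else -1)
      rw [if_neg h3, if_pos rfl]
    · have h3 : (1 : ZMod 2) + 1 = 0 := by decide
      have h4 : ¬ ((1 : ZMod 2) = 0) := by decide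
      show (if (1 : ZMod 2) + 1 = 0 then (1 : ℝ) else -1) =
        -(if (1 : ZMod 2) = 0 then (1 : ℝ) else -1)
      rw [if_pos h3, if_neg h4, neg_neg]
  exact h2 _

theorem int_chi (S : Finset (F3 ⊕ GG)) (hS : S.Nonempty) : ∫ k, chi S k ∂lamK = 0 := by
  obtain ⟨i, hi⟩ := hS
  have h1 := integral_add_right_eq_self (μ := lamK) (fun k => chi S k) (Pi.single i 1 : KK)
  simp only [chi_add S i hi] at h1
  rw [integral_neg] at h1
  linarith

/-! ### Characters determine measures -/

/-- cylinder sets -/
def cyl (S : Finset (F3 ⊕ GG)) (v : KK) : Set KK := {k | ∀ i ∈ S, k i = v i}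

theorem meas_cyl (S : Finset (F3 ⊕ GG)) (v : KK) : MeasurableSet (cyl S v) := by
  have : cyl S v = ⋂ i ∈ S, (fun k : KK => k i) ⁻¹' {v i} := by
    ext k
    simp [cyl]
  rw [this]
  exact Finset.measurableSet_biInter S fun i _ => measurable_pi_apply i (measurableSet_singleton _)

theorem measurable_chi (S : Finset (F3 ⊕ GG)) : Measurable (chi S) := by
  unfold chi
  refine Finset.measurable_prod S fun i _ => ?_
  exact Measurable.ite (measurable_pi_apply i (measurableSet_singleton 0)) measurable_const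
    measurable_const

theorem chi_abs (S : Finset (F3 ⊕ GG)) (k : KK) : ‖chi S k‖ ≤ 1 := by
  unfold chi
  rw [norm_prod]
  refine Finset.prod_le_one (fun i _ => norm_nonneg _) fun i _ => ?_
  split_ifs <;> simp

theorem integrable_chi (m : Measure KK) [IsFiniteMeasure m] (S : Finset (F3 ⊕ GG)) :
    Integrable (chi S) m :=
  Integrable.of_bound (measurable_chi S).aestronglyMeasurable 1
    (Eventually.of_forall fun k => chi_abs S k)

theorem ind_cyl (S : Finset (F3 ⊕ GG)) (v k : KK) : (cyl S v).indicator (1 : KK → ℝ) k =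
    ∑ T ∈ S.powerset, ((∏ i ∈ T, (if v i = 0 then (1 : ℝ) else -1) / 2) *
      ∏ i ∈ S \ T, (1 / 2 : ℝ)) * chi T k := by
  have h1 : (cyl S v).indicator (1 : KK → ℝ) k = ∏ i ∈ S, (if k i = v i then (1 : ℝ) else 0) := by
    by_cases h : k ∈ cyl S v
    · rw [Set.indicator_of_mem h, Finset.prod_congr rfl (g := fun _ => (1 : ℝ))
        (fun i hi => if_pos (h i hi))]
      simp
    · rw [Set.indicator_of_notMem h]
      have h2 : ∃ i ∈ S, k i ≠ v i := by
        by_contra hc
        push Not at hc
        exact h hc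
      obtain ⟨i, hi, hi'⟩ := h2
      rw [Finset.prod_eq_zero hi (if_neg hi')]
  have h2 : ∀ i, (if k i = v i then (1 : ℝ) else 0) =
      (if v i = 0 then (1 : ℝ) else -1) / 2 * (if k i = 0 then (1 : ℝ) else -1) + 1 / 2 := by
    intro i
    have key : ∀ x y : ZMod 2, (if x = y then (1 : ℝ) else 0) =
      (if y = 0 then (1 : ℝ) else -1) / 2 * (if x = 0 then (1 : ℝ) else -1) + 1 / 2 := by
      intro x y
      by_cases hx : x = 0
      · by_cases hy : y = 0
        · rw [hx, hy]; norm_num
        · rw [if_neg (by rw [hx]; exact fun h => hy h.symm), if_neg hy, if_pos hx]; norm_num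
      · have hx1 : x = 1 := by
          revert x; decide
        by_cases hy : y = 0
        · rw [if_neg (by rw [hy]; exact hx), if_pos hy, if_neg hx]; norm_num
        · have hy1 : y = 1 := by
            revert y; decide
          rw [if_pos (by rw [hx1, hy1]), if_neg hy, if_neg hx]; norm_num
    exact key _ _
  rw [h1, Finset.prod_congr rfl fun i _ => h2 i, Finset.prod_add]
  refine Finset.sum_congr rfl fun T _ => ?_
  rw [Finset.prod_mul_distrib]
  unfold chi
  ring

theorem int_cyl (m : Measure KK) [IsFiniteMeasure m] (S : Finset (F3 ⊕ GG)) (v : KK) :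
    m.real (cyl S v) = ∑ T ∈ S.powerset, ((∏ i ∈ T, (if v i = 0 then (1 : ℝ) else -1) / 2) *
      ∏ i ∈ S \ T, (1 / 2 : ℝ)) * ∫ k, chi T k ∂m := by
  rw [← integral_indicator_one (meas_cyl S v)]
  simp_rw [ind_cyl]
  rw [integral_finsetSum]
  · refine Finset.sum_congr rfl fun T _ => ?_
    rw [integral_const_mul]
  · intro T _
    exact (integrable_chi m T).const_mul _

theorem ext_chi (m₁ m₂ : Measure KK) [IsFiniteMeasure m₁] [IsFiniteMeasure m₂]
    (h : ∀ S, ∫ k, chi S k ∂m₁ = ∫ k, chi S k ∂m₂) : m₁ = m₂ := by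
  have hc : ∀ S v, m₁ (cyl S v) = m₂ (cyl S v) := by
    intro S v
    have h1 : m₁.real (cyl S v) = m₂.real (cyl S v) := by
      rw [int_cyl, int_cyl]
      exact Finset.sum_congr rfl fun T _ => by rw [h]
    exact (ENNReal.toReal_eq_toReal_iff' (measure_ne_top _ _) (measure_ne_top _ _)).1 h1
  refine ext_of_generate_finite {s | ∃ S v, s = cyl S v} ?_ ?_ ?_ ?_
  · apply le_antisymm
    · refine iSup_le fun i => ?_
      rintro _ ⟨t, -, rfl⟩
      have h1 : (fun k : KK => k i) ⁻¹' t = ⋃ x ∈ t, cyl {i} (fun _ => x) := by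
        ext k
        simp [cyl]
      rw [h1]
      refine MeasurableSet.biUnion (Set.to_countable t) fun x _ => ?_
      exact MeasurableSpace.measurableSet_generateFrom ⟨_, _, rfl⟩
    · refine MeasurableSpace.generateFrom_le ?_
      rintro _ ⟨S, v, rfl⟩
      exact meas_cyl S v
  · rintro _ ⟨S, v, rfl⟩ _ ⟨S', v', rfl⟩ ⟨k₀, hk, hk'⟩
    refine ⟨S ∪ S', k₀, ?_⟩
    ext k
    constructor
    · rintro ⟨h1, h2⟩ i hi
      rcases Finset.mem_union.1 hi with hi | hi
      · rw [h1 i hi, hk i hi]
      · rw [h2 i hi, hk' i hi]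
    · intro h1
      exact ⟨fun i hi => by rw [h1 i (Finset.mem_union_left _ hi), hk i hi],
        fun i hi => by rw [h1 i (Finset.mem_union_right _ hi), hk' i hi]⟩
  · rintro _ ⟨S, v, rfl⟩
    exact hc S v
  · have h1 : cyl ∅ 0 = univ := by
      ext k
      simp [cyl]
    rw [← h1]
    exact hc _ _

theorem holds : Pool.Agent.H646.CR.S_haar :=
  ⟨inferInstance, map_act, int_chi, fun m₁ m₂ h1 h2 h => by
    have := h1
    have := h2
    exact ext_chi m₁ m₂ h⟩

end Pool.Agent.H233.CR
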