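import Pool.Agent.H646.CR.Stm
import Pool.Graph.R_seed8.H139R3.MSMain

set_option autoImplicit false

/-!
# The last two statements: from the core theorem to the frozen statements
-/

namespace Pool.Agent.H646.CR

open MeasureTheory ProbabilityTheory Set Topology TopologicalSpace Filter
open scoped ENNReal

/-- **Core theorem.**  For some nonempty Borel set `B` of parameters the part over `B` has no
(partial) compact action realization. -/
def Core : Prop :=
  ∃ B : Set P, MeasurableSet B ∧ B.Nonempty ∧
    ∀ (Λ Y : Type) [Group Λ] [Countable Λ] [TopologicalSpace Y] [CompactSpace Y]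
    [MetrizableSpace Y] [MeasurableSpace Y] [BorelSpace Y] [MulAction Λ Y]
    [ContinuousConstSMul Λ Y] (Θ : P × KK → Y) (Ξ : Y → P × KK) (Y0 : Set Y),
    ¬ IsReal Λ Y GG XX0 B Θ Ξ Y0

/-- The statement of `S15661`. -/
def Frozen1 : Prop :=
    ∀ (X : Type) [MeasurableSpace X] [StandardBorelSpace X], Uncountable X →
    ∀ (E : X → X → Prop), Equivalence E →
      MeasurableSet {p : X × X | E p.1 p.2} →
      (∀ x : X, {y : X | E x y}.Countable) →
      (∀ x : X, {y : X | E x y}.Infinite) →
      (¬ ∃ f : X → ℝ, Measurable f ∧ ∀ x y : X, E x y ↔ f x = f y) →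
      ∃ (Γ : Type) (_ : Group Γ) (_ : Countable Γ)
        (K : Type) (_ : TopologicalSpace K) (_ : CompactSpace K) (_ : PolishSpace K)
        (_ : MulAction Γ K) (_ : ContinuousConstSMul Γ K)
        (_ : MeasurableSpace K) (_ : BorelSpace K) (f : X ≃ᵐ K),
        ∀ x y : X, E x y ↔ ∃ g : Γ, g • f x = f y

/-- The statement of `S15475`. -/
def Frozen2 : Prop :=
  ∀ (X : Type) [MeasurableSpace X] [StandardBorelSpace X] (E : X → X → Prop),
    Equivalence E →
    MeasurableSet {p : X × X | E p.1 p.2} →
    (∀ x : X, {y : X | E x y}.Countable) →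
    (∀ x : X, {y : X | E x y}.Infinite) →
    (∀ (Y : Type) [MeasurableSpace Y] [StandardBorelSpace Y] (F : Y → Y → Prop),
      Equivalence F →
      MeasurableSet {p : Y × Y | F p.1 p.2} →
      (∀ y : Y, {y' : Y | F y y'}.Countable) →
      ∃ f : Y → X, Measurable f ∧ ∀ y y' : Y, (F y y' ↔ E (f y) (f y'))) →
    ∃ (Γ : Type) (_ : Group Γ) (_ : Countable Γ)
      (Z : Type) (_ : TopologicalSpace Z) (_ : MeasurableSpace Z) (_ : BorelSpace Z)
      (_ : CompactSpace Z) (_ : TopologicalSpace.MetrizableSpace Z) (_ : MulAction Γ Z),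
      (∀ g : Γ, Continuous (fun z : Z => g • z)) ∧
      ∃ φ : X ≃ᵐ Z, ∀ x y : X, (E x y ↔ ∃ g : Γ, g • φ x = φ y)

/-- **First frozen statement.**

Proof.  `X = {x : P × KK // x ∈ XX0 ∧ x.1 ∈ B}`, `E x y := ∃ g : GG, g • x.1 = y.1`.
Classes are infinite (`X0_free`, `inf`), `E` is Borel and countable.  The measure `mu lamK s`
(`s ∈ B`) gives measure `0` to every point of `X0`: all points of its (infinite) orbit lie in the
fibre and have the same measure.  So `X` is uncountable.  Nonsmooth: if `f` were a smoothing map,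
then for a Borel set `D ⊆ ℝ` the invariant set `X_D = {x | x ∈ X, x.1 = s, f x ∈ D}` has measure
`a ∈ {0, 1}` under `mu lamK s`: otherwise the normalised restriction of `mu lamK s` to `X_D` is
invariant, concentrated on `X0`, hence equal to `mu lamK s` by `X0_ue`, contradiction.  So `f` is
a.e. constant, and one class, a countable set, has measure one, contradiction.
A realization `(Γ, K, f)` gives `IsReal Γ K GG XX0 B Θ Ξ univ` with `Θ x = f ⟨x, _⟩` on `X` (constant
elsewhere), `Ξ y = (f.symm y).1`. -/
def S_fin1 : Prop := IsSys GG KK lamK qq cc QQ XX0 → Core → ¬ Frozen1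

/-- **Second frozen statement** (`S_pw` may be assumed).

Proof.  Let `X₁` be the space of `S_fin1`, `X = X₁ ⊕ ((FreeGroup (Fin 2) → Bool) × ℕ)`, with the
relation of `S_fin1` on the first part, and `(z, n) E (z', n') ↔ ∃ g, z' = shift g z` on the second
(`Pool.Agent.H139R3.MS.shift`); points of different parts are not related.  All classes are infinite; `E` is universal by
`Pool.Agent.H139R3.MS.reduction` (`y ↦ inr (f y, 0)`).  A realization `(Γ, Z, φ)` gives
`IsReal Γ Z GG XX0 B Θ Ξ Y0`, `Y0 = φ '' (range inl)`.  `full`: let `ρ` be an invariant probability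
measure on `Z`, `Z n = φ '' {inr (z, n)}`; the involution of `Z` which exchanges `φ (inr (z, 0))`
and `φ (inr (z, n))` and is the identity elsewhere preserves `ρ` by `S_pw`, so `ρ (Z n) = ρ (Z 0)`
for all `n`; the `Z n` are disjoint, so `ρ (Z n) = 0` and `ρ Y0ᶜ = 0`. -/
def S_fin2 : Prop := IsSys GG KK lamK qq cc QQ XX0 → Core → ¬ Frozen2

end Pool.Agent.H646.CR
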